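import Pool.Agent.PLX.Ns
import Pool.Agent.PLX.NUSea.Cur

/-!
# The transported density of an admissible current

`Bf s (iD η) (iD η1) = i hd + Br`, `hd = (s P η)'`, `Br` second order; the real part is of second
order with three derivatives.
-/

set_option autoImplicit false
set_option linter.unusedSectionVars false

open MeasureTheory Set Filter Topology Complex

namespace NUSea.PLX

open NUMF (l l_pos)
open NUAct NUKer

noncomputable section

variable [Sea]

variable {s ε M b : ℝ} {e η η1 : ℝ → ℝ}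

lemma Pc1_im (t : ℝ) : (iteratedDeriv 1 Pc (t : ℂ)).im = 0 := by
  have h1 : HasDerivAt (fun t : ℝ => ((P t : ℂ)).im) (iteratedDeriv 1 Pc (t : ℂ)).im t :=
    Complex.imCLM.hasFDerivAt.comp_hasDerivAt t (hasDerivAt_Pt t)
  have h2 : HasDerivAt (fun t : ℝ => ((P t : ℂ)).im) 0 t := by
    simp only [Complex.ofReal_im]
    exact hasDerivAt_const t 0
  exact h1.unique h2

/-- derivative of the current `s P η` -/
def hd (s : ℝ) (η η1 : ℝ → ℝ) (t : ℝ) : ℝ := (af s (iD η) (iD η1) t).im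

lemma af_re (s : ℝ) (η η1 : ℝ → ℝ) (t : ℝ) : (af s (iD η) (iD η1) t).re = 0 := by
  unfold af iD
  rw [Pc_ofReal, Complex.re_ofReal_mul]
  have h1 := Pc1_im t
  have : (iteratedDeriv 1 Pc (t : ℂ) * ((η t : ℂ) * I) + (P t : ℂ) * ((η1 t : ℂ) * I)).re = 0 := by
    rw [Complex.add_re, ← mul_assoc, ← mul_assoc, Complex.mul_I_re, Complex.mul_I_re,
      Complex.im_mul_ofReal, h1, ← Complex.ofReal_mul, Complex.ofReal_im]
    ring
  rw [this, mul_zero]

lemma af_eq (s : ℝ) (η η1 : ℝ → ℝ) (t : ℝ) : af s (iD η) (iD η1) t = (hd s η η1 t : ℂ) * I := by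
  apply Complex.ext
  · rw [af_re]
    simp
  · unfold hd
    simp

lemma hasDerivAt_hd (s : ℝ) {η η1 : ℝ → ℝ} (h1 : ∀ t, HasDerivAt η (η1 t) t) (t : ℝ) :
    HasDerivAt (fun t => s * P t * η t) (hd s η η1 t) t := by
  have h2 : HasDerivAt (fun t : ℝ => (s : ℂ) * ((P t : ℂ) * iD η t)) (af s (iD η) (iD η1) t) t := by
    have h3 : HasDerivAt (iD η) (iD η1 t) t := (h1 t).ofReal_comp.mul_const I
    have h4 := ((hasDerivAt_Pt t).mul h3).const_mul (s : ℂ)
    refine h4.congr_deriv ?_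
    unfold af
    rw [Pc_ofReal]
  have h5 : HasDerivAt (fun t : ℝ => ((s : ℂ) * ((P t : ℂ) * iD η t)).im) (hd s η η1 t) t :=
    Complex.imCLM.hasFDerivAt.comp_hasDerivAt t h2
  refine h5.congr_of_eventuallyEq (Eventually.of_forall fun t => ?_)
  unfold iD
  simp
  ring

lemma B_eq (s : ℝ) (η η1 : ℝ → ℝ) (t : ℝ) :
    Bf s (iD η) (iD η1) t = (hd s η η1 t : ℂ) * I + Br s (iD η) (iD η1) t := by
  rw [Bf_eq, af_eq]

lemma B_re (s : ℝ) (η η1 : ℝ → ℝ) (t : ℝ) :
    (Bf s (iD η) (iD η1) t).re = (Br s (iD η) (iD η1) t).re := by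
  rw [B_eq]
  simp

/-- what is used of the transported density -/
structure BB (s μ M b : ℝ) (η η1 : ℝ → ℝ) : Prop where
  cont : Continuous (Bf s (iD η) (iD η1))
  le : ∀ t, ‖Bf s (iD η) (iD η1) t‖ ≤ M
  supp : ∀ t, b < |t| → Bf s (iD η) (iD η1) t = 0
  re : NUOC.O 3 μ fun t => (Bf s (iD η) (iD η1) t).re
  hc : Continuous (hd s η η1)
  hle : ∀ t, |hd s η η1 t| ≤ M
  hsupp : ∀ t, b < |t| → hd s η η1 t = 0
  rc : Continuous (Br s (iD η) (iD η1))
  rle : ∀ t, ‖Br s (iD η) (iD η1) t‖ ≤ μ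
  rsupp : ∀ t, b < |t| → Br s (iD η) (iD η1) t = 0

/-- **the transported density** -/
theorem exists_BB : ∃ C : ℝ, 1 ≤ C ∧ ∀ {s ε M b : ℝ} {e η η1 : ℝ → ℝ}, 0 ≤ s → ε ≤ 1 / 20 →
    Cur s ε M b e η → (∀ t, HasDerivAt η (η1 t) t) → BB s (C * (M * ε)) (C * M) b η η1 := by
  obtain ⟨C1, h1, H1⟩ := Br_OC 3
  obtain ⟨C2, h2, H2⟩ := af_OC 3
  refine ⟨1 + C1 + C2, by linarith, fun {s ε M b e η η1} hs hε hc hη => ?_⟩
  have o0 := hc.oc.lower
  have o1 := hc.oc1 hη
  have hse : ∀ t, e t ≤ 1 / 20 := fun t => (hc.le t).trans hε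
  have i0 : ∀ t, HasDerivAt (iD η) (iD η1 t) t := fun t => (hη t).ofReal_comp.mul_const I
  have b1 := H1 hs i0 o0 o1 hse
  have b2 := H2 hs o0 o1
  have hM := hc.M0 hs
  have hε0 := hc.ε0
  have m1 : ∀ t, C1 * (s * P t * e t ^ 2) ≤ C1 * (M * ε) := fun t => by
    have q1 := hc.mass t
    have q2 := hc.le t
    have q3 := hc.nonneg t
    calc C1 * (s * P t * e t ^ 2) = C1 * ((s * P t * e t) * e t) := by ring
      _ ≤ C1 * (M * ε) := by gcongr
  have m2 : ∀ t, C2 * (s * P t * e t) ≤ C2 * M := fun t => by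
    have q1 := hc.mass t
    gcongr
  have z1 : ∀ t, b < |t| → C1 * (s * P t * e t ^ 2) = 0 := fun t ht => by
    rw [hc.supp t ht]; ring
  have z2 : ∀ t, b < |t| → C2 * (s * P t * e t) = 0 := fun t ht => by
    rw [hc.supp t ht]; ring
  have hMε : M * ε ≤ M := by nlinarith
  have rle : ∀ t, ‖Br s (iD η) (iD η1) t‖ ≤ C1 * (M * ε) := fun t => (b1.le t).trans (m1 t)
  have ale : ∀ t, ‖af s (iD η) (iD η1) t‖ ≤ C2 * M := fun t => (b2.le t).trans (m2 t)
  have rz : ∀ t, b < |t| → Br s (iD η) (iD η1) t = 0 := fun t ht => by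
    have := b1.le t
    rw [z1 t ht] at this
    exact norm_le_zero_iff.1 this
  have az : ∀ t, b < |t| → af s (iD η) (iD η1) t = 0 := fun t ht => by
    have := b2.le t
    rw [z2 t ht] at this
    exact norm_le_zero_iff.1 this
  have eB : Bf s (iD η) (iD η1) = fun t => af s (iD η) (iD η1) t + Br s (iD η) (iD η1) t := by
    funext t
    exact Bf_eq _ _ _ _
  have hMε0 : 0 ≤ M * ε := mul_nonneg hM hε0
  have t1 : C1 * (M * ε) ≤ (1 + C1 + C2) * (M * ε) :=
    mul_le_mul_of_nonneg_right (by linarith) hMε0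
  have t2 : C2 * M ≤ (1 + C1 + C2) * M := mul_le_mul_of_nonneg_right (by linarith) hM
  have t3 : C2 * M + C1 * (M * ε) ≤ (1 + C1 + C2) * M := by nlinarith
  refine ⟨?_, fun t => ?_, fun t ht => ?_, ?_, ?_, fun t => ?_, fun t ht => ?_, b1.cont,
    fun t => (rle t).trans t1, rz⟩
  · rw [eB]
    exact b2.cont.add b1.cont
  · rw [Bf_eq]
    exact (norm_add_le _ _).trans ((add_le_add (ale t) (rle t)).trans t3)
  · rw [Bf_eq, rz t ht, az t ht, add_zero]
  · refine (b1.re (a := (1 + C1 + C2) * (M * ε)) fun t => (m1 t).trans t1).congr fun t => ?_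
    exact (B_re s η η1 t).symm
  · exact Complex.continuous_im.comp b2.cont
  · exact (Complex.abs_im_le_norm _).trans ((ale t).trans t2)
  · unfold hd
    rw [az t ht]
    simp

end

end NUSea.PLX
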