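import Pool.Agent.PLX.Ns
import Pool.Agent.PLX.NUSea.Bfin

/-!
# Two curves with nearly equal currents

`Com κ s e η η1`: `|s a η a - s true η true| ≤ κ e`, and the same for the derivatives: the currents
`s a P η a` of the two species differ by at most `κ P e`, their derivatives by at most `C κ P e`.
-/

set_option autoImplicit false
set_option linter.unusedSectionVars false

open MeasureTheory Set Filter Topology Complex

namespace NUSea.PLX

open NUSea
open NUMF (l l_pos)
open NUKer NUAct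

noncomputable section

/-- **the currents of the two species are nearly equal** -/
structure Com (κ : ℝ) (s : Bool → ℝ) (e : ℝ → ℝ) (η η1 : Bool → ℝ → ℝ) : Prop where
  k0 : 0 ≤ κ
  c0 : ∀ a t, |s a * η a t - s true * η true t| ≤ κ * e t
  c1 : ∀ a t, |s a * η1 a t - s true * η1 true t| ≤ κ * e t

theorem Com.mono {κ κ' : ℝ} {s : Bool → ℝ} {e : ℝ → ℝ} {η η1 : Bool → ℝ → ℝ} (h : Com κ s e η η1)
    (hk : κ ≤ κ') (he : ∀ t, 0 ≤ e t) : Com κ' s e η η1 where
  k0 := h.k0.trans hk
  c0 a t := (h.c0 a t).trans (mul_le_mul_of_nonneg_right hk (he t))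
  c1 a t := (h.c1 a t).trans (mul_le_mul_of_nonneg_right hk (he t))

variable [Sea]

variable {κ ε M b : ℝ} {s : Bool → ℝ} {e : ℝ → ℝ} {η η1 : Bool → ℝ → ℝ}

/-- the difference of the currents -/
theorem Com.cur (h : Com κ s e η η1) (a : Bool) (t : ℝ) :
    |s a * P t * η a t - s true * P t * η true t| ≤ κ * (P t * e t) := by
  have h1 := h.c0 a t
  have hp := (P_pos t).le
  have e1 : s a * P t * η a t - s true * P t * η true t =
      P t * (s a * η a t - s true * η true t) := by ring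
  rw [e1, abs_mul, abs_of_nonneg hp]
  nlinarith

/-- the derivative of the current -/
lemma hd_val (s : ℝ) (η η1 : ℝ → ℝ) (t : ℝ) :
    hd s η η1 t = (iteratedDeriv 1 Pc (t : ℂ)).re * (s * η t) + P t * (s * η1 t) := by
  have h1 := Pc1_im t
  unfold hd af iD
  rw [Pc_ofReal]
  have e1 : ((s : ℂ) * (iteratedDeriv 1 Pc (t : ℂ) * ((η t : ℂ) * I) + (P t : ℂ) * ((η1 t : ℂ) * I))) =
      (((s * η t : ℝ) : ℂ) * iteratedDeriv 1 Pc (t : ℂ) + ((P t * (s * η1 t) : ℝ) : ℂ)) * I := by
    push_cast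
    ring
  rw [e1, Complex.mul_I_im, Complex.add_re, Complex.ofReal_re, Complex.re_ofReal_mul]
  ring

/-- **the difference of the derivatives of the currents** -/
theorem exists_com : ∃ C : ℝ, 1 ≤ C ∧ ∀ {κ : ℝ} {s : Bool → ℝ} {e : ℝ → ℝ} {η η1 : Bool → ℝ → ℝ},
    Com κ s e η η1 → ∀ a t, |s a * P t * η a t - s true * P t * η true t| ≤ C * (κ * (P t * e t)) ∧
      |hd (s a) (η a) (η1 a) t - hd (s true) (η true) (η1 true) t| ≤ C * (κ * (P t * e t)) := by
  obtain ⟨C, hC, h⟩ := Pc_deriv_P (b := 0) le_rfl (by have := l_pos; linarith) 1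
  refine ⟨1 + C, by linarith, ?_⟩
  intro κ s e η η1 hc a t
  have hp := (P_pos t).le
  have h0 := hc.cur a t
  have hke : 0 ≤ κ * e t := (abs_nonneg _).trans (hc.c0 a t)
  have hkp : 0 ≤ κ * (P t * e t) := by
    have : 0 ≤ P t * (κ * e t) := mul_nonneg hp hke
    linarith
  refine ⟨h0.trans (by nlinarith), ?_⟩
  have h1 := h t (by simp)
  rw [Complex.ofReal_re] at h1
  have h2 : |(iteratedDeriv 1 Pc (t : ℂ)).re| ≤ C * P t := (Complex.abs_re_le_norm _).trans h1
  rw [hd_val, hd_val]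
  have e1 : (iteratedDeriv 1 Pc (t : ℂ)).re * (s a * η a t) + P t * (s a * η1 a t) -
      ((iteratedDeriv 1 Pc (t : ℂ)).re * (s true * η true t) + P t * (s true * η1 true t)) =
      (iteratedDeriv 1 Pc (t : ℂ)).re * (s a * η a t - s true * η true t) +
        P t * (s a * η1 a t - s true * η1 true t) := by ring
  rw [e1]
  refine (abs_add_le _ _).trans ?_
  rw [abs_mul, abs_mul, abs_of_nonneg hp]
  have g1 : |(iteratedDeriv 1 Pc (t : ℂ)).re| * |s a * η a t - s true * η true t| ≤
      C * P t * (κ * e t) := mul_le_mul h2 (hc.c0 a t) (abs_nonneg _) (by positivity)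
  have g2 : P t * |s a * η1 a t - s true * η1 true t| ≤ P t * (κ * e t) :=
    mul_le_mul_of_nonneg_left (hc.c1 a t) hp
  calc _ ≤ C * P t * (κ * e t) + P t * (κ * e t) := add_le_add g1 g2
    _ = _ := by ring

end

end NUSea.PLX
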