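import Pool.Agent.PLX.NUSea.One
import Pool.Agent.NUMFC.Const

/-!
# Mean field constants, general sea, two numbers of rows

`Ms r = r ^ 2 ∫ P v` (interaction energy of a sea `r P` of one species),
`MF s = 1/2 ∑_a Ms (s a) - 1/2 (s true - s false) ^ 2 ∫ P vx`, `MFs s p n = MF s - (p + n) log act`.
-/

set_option autoImplicit false
set_option linter.unusedSectionVars false

open MeasureTheory

namespace NUSea.PLX

open NUMF (g V)
open NUMFC (act cpc act_pos act_one exp_half_log)

noncomputable section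

variable [Sea]

/-- `r ^ 2 ∫ P v` -/
def Ms (r : ℝ) : ℝ := r ^ 2 * ∫ t, P t * v t

/-- `∫ P vx` -/
def Mx : ℝ := ∫ t, P t * (vx t).re

/-- the mean field constant -/
def MF (s : Bool → ℝ) : ℝ := 1 / 2 * (Ms (s true) + Ms (s false)) - 1 / 2 * (s true - s false) ^ 2 * Mx

/-- mean field exponent of the gas with `p + n` quanta (no activities) -/
def MFs (s : Bool → ℝ) (p n : ℕ) : ℝ := MF s - ((p : ℝ) + n) * Real.log act

/-- the interaction energy of the sea of one species is `Ms r` -/
theorem energy (r : ℝ) : ∫ t, (r * P t) * ∫ u, (r * P u) * V (t - u) = Ms r := by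
  unfold Ms
  rw [← integral_const_mul]
  congr 1
  funext t
  have h1 : ∀ u, r * P u * V (t - u) = r * (P u * V (t - u)) := fun u => by ring
  simp_rw [h1]
  rw [integral_const_mul, (conv_V t).2]
  ring

theorem sea_v (s t : ℝ) : ∫ u, (s * P u) * V (t - u) = s * v t := by
  have h1 : ∀ u, s * P u * V (t - u) = s * (P u * V (t - u)) := fun u => by ring
  simp_rw [h1]
  rw [integral_const_mul, (conv_V t).2]

theorem MF_zero : MF (fun _ => 0) = 0 := by unfold MF Ms; simp

theorem MF_smul (c : ℝ) (s : Bool → ℝ) : MF (fun a => c * s a) = c ^ 2 * MF s := by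
  unfold MF Ms
  ring

/-- the diagonal constants and the circle constants make up `MFs` -/
theorem exp_MFs (s : Bool → ℝ) (p n : ℕ) :
    Real.exp (MFs s p n) = (√(g 0) * cpc) ^ (p + n) * Real.exp (MF s) := by
  have h1 := act_pos
  have h2 := act_one
  have h3 : √(g 0) * cpc = act⁻¹ := by
    field_simp
    linarith
  unfold MFs
  rw [sub_eq_add_neg, Real.exp_add, mul_comm, h3]
  congr 1
  rw [← mul_neg, ← Real.log_inv, ← Nat.cast_add, Real.exp_nat_mul, Real.exp_log (by positivity)]

theorem exp_MFs' (s : Bool → ℝ) (p n : ℕ) :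
    Real.exp (Real.log (g 0) * (((p : ℝ) + n) / 2)) * (cpc ^ p * cpc ^ n) * Real.exp (MF s) =
      Real.exp (MFs s p n) := by
  rw [exp_MFs]
  congr 1
  have h1 : Real.log (g 0) * (((p : ℝ) + n) / 2) = ((p + n : ℕ) : ℝ) * (Real.log (g 0) / 2) := by
    push_cast; ring
  rw [h1, Real.exp_nat_mul, exp_half_log, ← pow_add, ← mul_pow]

/-- activities times the gas -/
theorem act_MFs (s : Bool → ℝ) (p n : ℕ) : act ^ (p + n) * Real.exp (MFs s p n) = Real.exp (MF s) := by
  rw [exp_MFs, ← mul_assoc, ← mul_pow]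
  have := act_one
  rw [mul_assoc] at this
  rw [this, one_pow, one_mul]

end

end NUSea.PLX
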