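import Pool.Agent.PLX.NUSea.Wd

/-!
The contents of the landed module `NUSea.PhiQ3` are in `PLX.NUSea.PhiQ` and `PLX.NUSea.PhiQ2`.
-/
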