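import Pool.Agent.PLX.NUSea.Com
import Pool.Agent.PLX.Fil

/-!
# The curves of the two species from one admissible displacement

* `Cur.cv`: the curve `Fil.cv a η` of species `a` is an admissible displacement for every number `s'`
  of rows, mass `s' / s * M`;
* `Cur.com`: the currents `s' a * P * cv a η` of the two species are nearly equal;
* `Cur.spc`: both, for numbers `s' a ≤ q s` with `|s' a / b a - s' true| ≤ κ`.
-/

set_option autoImplicit false
set_option linter.unusedSectionVars false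

open MeasureTheory Set Filter Topology Complex
open PLX (Fil)

namespace NUSea.PLX

open NUSea
open NUKer NUAct

noncomputable section

variable [Sea] [Fil]

variable {s ε M b : ℝ} {e η η1 : ℝ → ℝ}

theorem iD_cv (a : Bool) (η : ℝ → ℝ) (t : ℝ) :
    iD (Fil.cv a η) t = (((Fil.b a)⁻¹ : ℝ) : ℂ) * iD η t := by
  unfold iD
  rw [Fil.cv_apply]
  push_cast
  ring

/-- **the curve of species `a` is admissible** -/
theorem Cur.cv (h : Cur s ε M b e η) (hs : 0 < s) (a : Bool) {s' : ℝ} (hs' : 0 ≤ s') :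
    Cur s' ε (s' / s * M) b e (Fil.cv a η) where
  oc := by
    have h1 := h.oc.smul (((Fil.b a)⁻¹ : ℝ) : ℂ)
    refine (h1.mono fun t => ?_).congr fun t => (iD_cv a η t).symm
    have h2 : ‖(((Fil.b a)⁻¹ : ℝ) : ℂ)‖ ≤ 1 := by
      rw [Complex.norm_real, Real.norm_eq_abs, abs_of_pos (Fil.inv_b_pos a)]
      exact Fil.inv_b_le a
    exact mul_le_of_le_one_left (h.oc.nonneg t) h2
  le := h.le
  mass t := by
    have h1 := h.mass t
    have h2 : s' * P t * e t = s' / s * (s * P t * e t) := by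
      field_simp
    rw [h2]
    exact mul_le_mul_of_nonneg_left h1 (div_nonneg hs' hs.le)
  supp := h.supp

theorem Cur.abs_le (h : Cur s ε M b e η) (t : ℝ) : |η t| ≤ e t := by
  have h1 := h.oc.le t
  unfold iD at h1
  rwa [norm_mul, Complex.norm_I, mul_one, Complex.norm_real, Real.norm_eq_abs] at h1

theorem Cur.abs_le1 (h : Cur s ε M b e η) (h1 : ∀ t, HasDerivAt η (η1 t) t) (t : ℝ) :
    |η1 t| ≤ e t := by
  have h2 := (h.oc1 h1).le t
  unfold iD at h2
  rwa [norm_mul, Complex.norm_I, mul_one, Complex.norm_real, Real.norm_eq_abs] at h2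

/-- **the currents of the two species are nearly equal** -/
theorem Cur.com (h : Cur s ε M b e η) (h1 : ∀ t, HasDerivAt η (η1 t) t) {s' : Bool → ℝ} {κ : ℝ}
    (hκ : 0 ≤ κ) (hk : ∀ a, |s' a / Fil.b a - s' true| ≤ κ) :
    Com κ s' e (fun a => Fil.cv a η) fun a => Fil.cv a η1 := by
  have key : ∀ (ζ : ℝ → ℝ), (∀ t, |ζ t| ≤ e t) → ∀ a t,
      |s' a * Fil.cv a ζ t - s' true * Fil.cv true ζ t| ≤ κ * e t := by
    intro ζ hζ a t
    have e1 : s' a * Fil.cv a ζ t - s' true * Fil.cv true ζ t =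
        (s' a / Fil.b a - s' true) * ζ t := by
      rw [Fil.cv_true, Fil.cv_apply]
      ring
    rw [e1, abs_mul]
    exact mul_le_mul (hk a) (hζ t) (abs_nonneg _) hκ
  exact ⟨hκ, fun a t => key η h.abs_le a t, fun a t => key η1 (h.abs_le1 h1) a t⟩

/-- **both species** -/
theorem Cur.spc (h : Cur s ε M b e η) (hs : 0 < s) (h1 : ∀ t, HasDerivAt η (η1 t) t)
    {s' : Bool → ℝ} {κ : ℝ} (hs' : ∀ a, 0 ≤ s' a) (hq : ∀ a, s' a ≤ (Fil.q : ℝ) * s) (hκ : 0 ≤ κ)
    (hk : ∀ a, |s' a / Fil.b a - s' true| ≤ κ) :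
    (∀ a, Cur (s' a) ε (Fil.q * M) b e (Fil.cv a η)) ∧
      Com κ s' e (fun a => Fil.cv a η) fun a => Fil.cv a η1 := by
  refine ⟨fun a => ?_, h.com h1 hκ hk⟩
  obtain ⟨k1, k2, k3, k4⟩ := h.cv hs a (hs' a)
  refine ⟨k1, k2, fun t => (k3 t).trans ?_, k4⟩
  have hM : 0 ≤ M := by
    have h2 := h.mass 0
    have h3 := h.oc.nonneg 0
    have h4 := P_pos 0
    refine le_trans ?_ h2
    positivity
  refine mul_le_mul_of_nonneg_right ?_ hM
  rw [div_le_iff₀ hs]
  exact hq a

end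

end NUSea.PLX
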