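import Pool.Agent.PLX.Ns
import Pool.Agent.PLX.NUSea.One
import Pool.Agent.NUO.OneB
import Pool.Agent.NUSea.Clo

/-!
# Clouds of the objects, two numbers of rows

`mfo s B = ∫ P (s true log ppN true + s false log ppN false)`: interaction of the constituents `B` with
the clouds of `s true` rows of the first, `s false` rows of the second species; `Cloud s B v`:
integrability and value; `clo s a j`: the cloud of a quantum of species `a` at offset `j`, own part
`s a`, cross part `s (!a)`.
-/

set_option autoImplicit false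
set_option linter.unusedSectionVars false

noncomputable section

open Complex MeasureTheory Set

namespace NUSea.PLX.O

open NUP1 NUO
open NUSea.O (int_lq int_lqg)

variable [Sea]

/-! ### clouds -/

/-- logarithm of the factors of a quantum of species `true` (`s true` times) and of a quantum of
species `false` (`s false` times) against `B` -/
def lpS (s : Bool → ℝ) (B : List (Bool × Bool × ℂ)) (z : ℂ) : ℝ :=
  s true * Real.log (ppN [(true, false, z)] B) + s false * Real.log (ppN [(false, false, z)] B)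

/-- interaction of the constituents `B` with the clouds of the rows -/
def mfo (s : Bool → ℝ) (B : List (Bool × Bool × ℂ)) : ℝ := ∫ t, P t * lpS s B (vl l t)

/-- own cloud of a quantum at offset `j` -/
def cloP (j t : ℝ) : ℝ := ∫ u, P u * NUMF.lq j (t - u)

/-- cross cloud of a quantum at offset `j` -/
def cloC (j t : ℝ) : ℝ := ∫ u, P u * NUMF.lqg j (t - u)

/-- the cloud of a quantum of species `a` at offset `j`, height `t` -/
def clo (s : Bool → ℝ) (a : Bool) (j t : ℝ) : ℝ := s a * cloP j t + s (!a) * cloC j t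

theorem clo_one (a : Bool) (j t : ℝ) : clo (fun _ => 1) a j t = NUSea.O.clo j t := by
  unfold clo NUSea.O.clo cloP cloC
  ring

theorem lpS_one (B : List (Bool × Bool × ℂ)) (z : ℂ) : lpS (fun _ => 1) B z = lpL B z := by
  unfold lpS lpL
  ring

/-- equal numbers of rows -/
theorem lpS_same (r : ℝ) (B : List (Bool × Bool × ℂ)) (z : ℂ) :
    lpS (fun _ => r) B z = r * lpL B z := by
  unfold lpS lpL
  ring

theorem mfo_same (r : ℝ) (B : List (Bool × Bool × ℂ)) :
    mfo (fun _ => r) B = r * ∫ t, P t * lpL B (vl l t) := by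
  unfold mfo
  rw [← integral_const_mul]
  congr 1
  funext t
  rw [lpS_same]
  ring

/-- `v` is the interaction of `B` with the clouds -/
structure Cloud (s : Bool → ℝ) (B : List (Bool × Bool × ℂ)) (v : ℝ) : Prop where
  ia : ∀ a : Bool, Integrable fun t => P t * Real.log (ppN [(a, false, vl l t)] B)
  val : mfo s B = v
  ne : ∀ᵐ t : ℝ, ∀ s, ppN [(s, false, vl l t)] B ≠ 0

theorem Cloud.int {s : Bool → ℝ} {B : List (Bool × Bool × ℂ)} {v : ℝ} (h : Cloud s B v) :
    Integrable fun t => P t * lpS s B (vl l t) := by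
  refine (((h.ia true).const_mul (s true)).add ((h.ia false).const_mul (s false))).congr
    (Filter.Eventually.of_forall fun t => ?_)
  simp only [Pi.add_apply, lpS]
  ring

theorem Cloud.nil {s : Bool → ℝ} : Cloud s [] 0 := by
  have h : ∀ z, lpS s [] z = 0 := fun z => by simp [lpS, ppN]
  refine ⟨fun a => by simp [ppN], by simp [mfo, h],
    Filter.Eventually.of_forall fun t s => by simp [ppN]⟩

theorem Cloud.cons {s : Bool → ℝ} {b : Bool × Bool × ℂ} {B : List (Bool × Bool × ℂ)} {v v' : ℝ}
    (hb : Cloud s [b] v) (hB : Cloud s B v') : Cloud s (b :: B) (v + v') := by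
  have e0 : ∀ᵐ t : ℝ, ∀ a, Real.log (ppN [(a, false, vl l t)] (b :: B)) =
      Real.log (ppN [(a, false, vl l t)] [b]) + Real.log (ppN [(a, false, vl l t)] B) := by
    filter_upwards [hb.ne, hB.ne] with t h1 h2 a
    rw [← Real.log_mul (h1 a) (h2 a), ppN_single, ppN_single, ppN_single, List.map_cons,
      List.prod_cons, List.map_singleton, List.prod_singleton]
  have e' : (fun t => P t * lpS s (b :: B) (vl l t)) =ᵐ[volume]
      fun t => P t * lpS s [b] (vl l t) + P t * lpS s B (vl l t) := by
    filter_upwards [e0] with t ht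
    unfold lpS
    rw [ht, ht]
    ring
  refine ⟨fun a => ?_, ?_, ?_⟩
  · refine ((hb.ia a).add (hB.ia a)).congr ?_
    filter_upwards [e0] with t ht
    simp only [Pi.add_apply]
    rw [ht, mul_add]
  · unfold mfo
    rw [integral_congr_ae e', integral_add hb.int hB.int, ← hb.val, ← hB.val]
    rfl
  · filter_upwards [hb.ne, hB.ne] with t h1 h2 s
    rw [ppN_single, List.map_cons, List.prod_cons]
    have h1' := h1 s
    have h2' := h2 s
    rw [ppN_single, List.map_singleton, List.prod_singleton] at h1'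
    rw [ppN_single] at h2'
    exact mul_ne_zero h1' h2'

/-- constituent: general principle -/
theorem Cloud.of {s : Bool → ℝ} {σ ty : Bool} {u : ℂ} {f g : ℝ → ℝ} {τ : ℝ}
    (h1 : ∀ t : ℝ, t ≠ τ → Kn.pz false ty (vl l t - u) ≠ 0 ∧
      Real.log ‖Kn.pz false ty (vl l t - u)‖ = f t)
    (h2 : ∀ t : ℝ, t ≠ τ → Kn.cz false ty (vl l t - u) ≠ 0 ∧
      Real.log ‖Kn.cz false ty (vl l t - u)‖ = g t)
    (hf : Integrable fun t => P t * f t) (hg : Integrable fun t => P t * g t) :
    Cloud s [(σ, ty, u)] (s σ * (∫ t, P t * f t) + s (!σ) * ∫ t, P t * g t) := by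
  have ht : ∀ᵐ t : ℝ, t ≠ τ := by
    have : ({τ} : Set ℝ)ᶜ ∈ ae (volume : Measure ℝ) := compl_mem_ae_iff.2 (by simp)
    filter_upwards [this] with t ht using ht
  have v : ∀ t : ℝ, t ≠ τ → ∀ a : Bool, Real.log (ppN [(a, false, vl l t)] [(σ, ty, u)]) =
      if a = σ then f t else g t := by
    intro t ht a
    rw [ppN_single, List.map_singleton, List.prod_singleton, pp_false]
    split_ifs
    · exact (h1 t ht).2
    · exact (h2 t ht).2
  have e : (fun t => P t * lpS s [(σ, ty, u)] (vl l t)) =ᵐ[volume]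
      fun t => s σ * (P t * f t) + s (!σ) * (P t * g t) := by
    filter_upwards [ht] with t ht
    unfold lpS
    rw [v t ht, v t ht]
    cases σ <;> simp <;> ring
  refine ⟨fun a => ?_, ?_, ?_⟩
  · have e1 : (fun t => P t * if a = σ then f t else g t) =ᵐ[volume]
        fun t => P t * Real.log (ppN [(a, false, vl l t)] [(σ, ty, u)]) := by
      filter_upwards [ht] with t ht
      rw [v t ht]
    by_cases h : a = σ
    · simp only [if_pos h] at e1
      exact hf.congr e1
    · simp only [if_neg h] at e1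
      exact hg.congr e1
  · unfold mfo
    rw [integral_congr_ae e, integral_add (hf.const_mul _) (hg.const_mul _), integral_const_mul,
      integral_const_mul]
  · filter_upwards [ht] with t ht s
    rw [ppN_single, List.map_singleton, List.prod_singleton, pp_false]
    split_ifs
    · exact norm_ne_zero_iff.2 (h1 t ht).1
    · exact norm_ne_zero_iff.2 (h2 t ht).1

/-- the cloud of a quantum at offset `j` -/
theorem good_quantum (s : Bool → ℝ) (σ : Bool) (j τ : ℝ) :
    Cloud s [(σ, false, vl ((1 - j) * l) τ)] (clo s σ j τ) := by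
  have i1 := int_lq j τ
  have i2 := int_lqg j τ
  have h := Cloud.of (s := s) (σ := σ) (ty := false) (u := vl ((1 - j) * l) τ) (τ := τ)
    (f := fun t => NUMF.lq j (τ - t)) (g := fun t => NUMF.lqg j (τ - t)) (fun t ht => ?_)
    (fun t ht => ?_) i1 i2
  · exact h
  · have := NUMF.log_q (j := j) (sub_ne_zero.2 ht)
    rw [vl_sub]
    change q _ ≠ 0 ∧ Real.log ‖q _‖ = _
    rw [q_bridge]
    refine ⟨this.1, this.2.trans ?_⟩
    rw [← lq_neg, neg_sub]
  · have := NUMF.log_qg (j := j) (sub_ne_zero.2 ht)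
    rw [vl_sub]
    change Bd.qg _ ≠ 0 ∧ Real.log ‖Bd.qg _‖ = _
    rw [qg_bridge]
    refine ⟨this.1, this.2.trans ?_⟩
    rw [← lqg_neg, neg_sub]

/-- the cloud of a string at offset `j` (quanta at `j` and `j + 1`) -/
theorem good_string (s : Bool → ℝ) (σ : Bool) (j τ : ℝ) :
    Cloud s [(σ, true, vl ((1 - j) * l) τ)] (clo s σ j τ + clo s σ (j + 1) τ) := by
  have i1 := int_lq j τ
  have i2 := int_lqg j τ
  have i3 := int_lq (j + 1) τ
  have i4 := int_lqg (j + 1) τ
  have j1 : Integrable fun t => P t * (NUMF.lq j (τ - t) + NUMF.lq (j + 1) (τ - t)) := by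
    refine (i1.add i3).congr (Filter.Eventually.of_forall fun t => ?_)
    simp only [Pi.add_apply]
    ring
  have j2 : Integrable fun t => P t * (NUMF.lqg j (τ - t) + NUMF.lqg (j + 1) (τ - t)) := by
    refine (i2.add i4).congr (Filter.Eventually.of_forall fun t => ?_)
    simp only [Pi.add_apply]
    ring
  have h := Cloud.of (s := s) (σ := σ) (ty := true) (u := vl ((1 - j) * l) τ) (τ := τ)
    (f := fun t => NUMF.lq j (τ - t) + NUMF.lq (j + 1) (τ - t))
    (g := fun t => NUMF.lqg j (τ - t) + NUMF.lqg (j + 1) (τ - t)) (fun t ht => ?_)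
    (fun t ht => ?_) j1 j2
  · have e : clo s σ j τ + clo s σ (j + 1) τ =
        s σ * (∫ t, P t * (NUMF.lq j (τ - t) + NUMF.lq (j + 1) (τ - t))) +
        s (!σ) * ∫ t, P t * (NUMF.lqg j (τ - t) + NUMF.lqg (j + 1) (τ - t)) := by
      simp only [mul_add]
      rw [integral_add i1 i3, integral_add i2 i4]
      unfold clo cloP cloC
      ring
    rw [e]
    exact h
  · have hne := sub_ne_zero.2 ht
    have k1 := NUMF.log_q (j := j) hne
    have k2 := NUMF.log_q (j := j + 1) hne
    rw [← q_bridge] at k1 k2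
    rw [vl_sub]
    change q1 _ ≠ 0 ∧ Real.log ‖q1 _‖ = _
    have hz := zj_l j (t - τ)
    have n0 := NUMF.zsin_ne (j := j) hne
    have n1 := NUMF.zsin_ne (j := j + 1) hne
    have n2 := NUMF.zsin_ne (j := j + 2) hne
    have n3 := NUMF.zsin_ne (j := j + -1) hne
    have e2 := NUMF.zj_add j (t - τ) 2
    have e3 := NUMF.zj_add j (t - τ) (-1)
    rw [l_eq] at e2 e3
    rw [← hz] at n1 k2
    rw [← e2] at n2
    rw [← e3] at n3
    have hq := q1_eq n0 n1 (by
      rw [sub_eq_add_neg]
      convert n3 using 3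
      push_cast
      ring) (by
      convert n2 using 3
      push_cast
      ring)
    rw [← hq, norm_mul, Real.log_mul (norm_ne_zero_iff.2 k1.1) (norm_ne_zero_iff.2 k2.1), k1.2, k2.2]
    refine ⟨mul_ne_zero k1.1 k2.1, ?_⟩
    rw [← lq_neg, neg_sub, ← lq_neg (j + 1), neg_sub]
  · have hne := sub_ne_zero.2 ht
    have k1 := NUMF.log_qg (j := j) hne
    have k2 := NUMF.log_qg (j := j + 1) hne
    rw [← qg_bridge] at k1 k2
    rw [vl_sub]
    change Bd.qg _ * Bd.qg _ ≠ 0 ∧ Real.log ‖Bd.qg _ * Bd.qg _‖ = _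
    rw [← zj_l] at k2
    rw [norm_mul, Real.log_mul (norm_ne_zero_iff.2 k1.1) (norm_ne_zero_iff.2 k2.1), k1.2, k2.2]
    refine ⟨mul_ne_zero k1.1 k2.1, ?_⟩
    rw [← lqg_neg, neg_sub, ← lqg_neg (j + 1), neg_sub]

end NUSea.PLX.O
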