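import Pool.Agent.PLX.Ns
import Pool.Agent.PLX.NUSea.Cur
import Pool.Agent.NUCUR.Eta

/-!
# Displacements from currents, general sea

Copy of `NUCUR/Eta` (the part which depends on the density) for a general sea, namespace `NUSea.CUR`.
-/

set_option autoImplicit false
set_option linter.unusedSectionVars false

open MeasureTheory Set Filter Topology

namespace NUSea.PLX.CUR

open NUMF (l l_pos)
open NUAct NUCUR

noncomputable section

variable [Sea]

/-- iterated derivatives of a real function from the class `OC` -/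
lemma iter_of_OC {j : ℕ} : ∀ {f : ℝ → ℝ} {e : ℝ → ℝ}, (OC j e fun t => (f t : ℂ)) → ∀ k ≤ j,
    ∀ t, |iteratedDeriv k f t| ≤ e t := by
  induction j with
  | zero =>
    intro f e h k hk t
    obtain rfl : k = 0 := by omega
    rw [iteratedDeriv_zero, ← Real.norm_eq_abs, ← Complex.norm_real]
    exact h.2 t
  | succ j ih =>
    intro f e h k hk t
    rcases k with _ | k
    · rw [iteratedDeriv_zero, ← Real.norm_eq_abs, ← Complex.norm_real]
      exact h.1 t
    · obtain ⟨-, f', h1, h2⟩ := h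
      have h3 : ∀ t, HasDerivAt f (f' t).re t := fun t => by
        have := Complex.reCLM.hasFDerivAt.comp_hasDerivAt t (h1 t)
        exact this
      have h4 : ∀ t, f' t = ((f' t).re : ℂ) := fun t => (h1 t).unique (h3 t).ofReal_comp
      have h5 : OC j e fun t => ((f' t).re : ℂ) := h2.congr h4
      rw [iteratedDeriv_succ']
      have h6 : deriv f = fun t => (f' t).re := funext fun t => (h3 t).deriv
      rw [h6]
      exact ih h5 k (by omega) t

lemma contDiff_P {n : ℕ∞} : ContDiff ℝ n P := by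
  have h : ContDiff ℝ n fun t : ℝ => (Pc (t : ℂ)).re := by
    rw [contDiff_iff_contDiffAt]
    intro t
    have h1 : AnalyticAt ℂ Pc (t : ℂ) := Pc_analyticAt (by simpa using l_pos)
    have h2 : ContDiffAt ℝ n Pc (t : ℂ) := (h1.contDiffAt (n := n)).restrict_scalars ℝ
    have h3 : ContDiffAt ℝ n (fun t : ℝ => (t : ℂ)) t := Complex.ofRealCLM.contDiff.contDiffAt
    have h4 : ContDiffAt ℝ n (fun t : ℝ => Pc (t : ℂ)) t := h2.comp t h3
    exact Complex.reCLM.contDiff.contDiffAt.comp t h4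
  have e : (fun t : ℝ => (Pc (t : ℂ)).re) = P := funext fun t => by rw [Pc_ofReal, Complex.ofReal_re]
  rwa [e] at h

lemma contDiff_inv_P {n : ℕ∞} : ContDiff ℝ n (fun t => (P t)⁻¹) :=
  contDiff_P.inv fun t => (P_pos t).ne'

/-- derivatives of `1 / P` are `O(exp (8 |t| / 3))` -/
theorem inv_P_bound (k : ℕ) : ∃ C : ℝ, 0 < C ∧ ∀ t : ℝ,
    |iteratedDeriv k (fun t => (P t)⁻¹) t| ≤ C * Real.exp (8 / 3 * |t|) := by
  obtain ⟨C, hC, h⟩ := inv_OC k
  obtain ⟨c, hc, hle⟩ := le_P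
  refine ⟨C / c, by positivity, fun t => (iter_of_OC h k le_rfl t).trans ?_⟩
  have h1 := hle t
  have h2 := P_pos t
  rw [div_le_iff₀ h2]
  have h3 : Real.exp (8 / 3 * |t|) * Real.exp (-(8 / 3) * |t|) = 1 := by
    rw [← Real.exp_add]
    have : 8 / 3 * |t| + -(8 / 3) * |t| = 0 := by ring
    rw [this, Real.exp_zero]
  calc C = C / c * (c * (Real.exp (8 / 3 * |t|) * Real.exp (-(8 / 3) * |t|))) := by
        rw [h3]
        field_simp
    _ = C / c * (Real.exp (8 / 3 * |t|) * (c * Real.exp (-(8 / 3) * |t|))) := by ring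
    _ ≤ C / c * (Real.exp (8 / 3 * |t|) * P t) := by gcongr
    _ = _ := by ring

/-- one constant for all orders up to `N` -/
theorem inv_P_bound_all (N : ℕ) : ∃ C : ℝ, 0 < C ∧ ∀ k ≤ N, ∀ t : ℝ,
    |iteratedDeriv k (fun t => (P t)⁻¹) t| ≤ C * Real.exp (8 / 3 * |t|) := by
  choose C hC hb using inv_P_bound
  refine ⟨∑ k ∈ Finset.range (N + 1), C k, ?_, fun k hk t => ?_⟩
  · apply Finset.sum_pos (fun k _ => hC k)
    exact ⟨0, Finset.mem_range.mpr (by omega)⟩
  · refine (hb k t).trans ?_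
    apply mul_le_mul_of_nonneg_right _ (Real.exp_pos _).le
    exact Finset.single_le_sum (fun k _ => (hC k).le) (Finset.mem_range.mpr (by omega))

/-- **The eta bound.** -/
theorem eta_bound (N : ℕ) : ∃ C : ℝ, 0 < C ∧ ∀ h : ℝ → ℝ, ContDiff ℝ N h → ∀ B R s : ℝ, 0 < s →
    (∀ k ≤ N, ∀ t, |iteratedDeriv k h t| ≤ B) → (∀ t, R ≤ |t| → h t = 0) →
    ∀ k ≤ N, ∀ t, |iteratedDeriv k (fun t => h t / (s * P t)) t| ≤
      C * B * Real.exp (8 / 3 * R) / s := by
  obtain ⟨C, hC, hb⟩ := inv_P_bound_all N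
  refine ⟨2 ^ N * C, by positivity, ?_⟩
  intro h hh B R s hs hB hR k hk t
  have hB0 : 0 ≤ B := (abs_nonneg _).trans (hB 0 (Nat.zero_le _) 0)
  have hrhs : 0 ≤ 2 ^ N * C * B * Real.exp (8 / 3 * R) / s := by positivity
  by_cases ht : R < |t|
  · rw [iter_zero_out (R := R) (fun t ht => by rw [hR t ht, zero_div]) k t ht, abs_zero]
    exact hrhs
  push Not at ht
  have e : (fun t => h t / (s * P t)) = fun t => s⁻¹ * (h t * (P t)⁻¹) := by
    funext t
    have := (P_pos t).ne'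
    field_simp
  rw [e, iteratedDeriv_const_mul_field, abs_mul, abs_of_pos (inv_pos.mpr hs)]
  have h1 : ‖iteratedFDeriv ℝ k (fun t => h t * (P t)⁻¹) t‖ ≤
      ∑ i ∈ Finset.range (k + 1), (k.choose i : ℝ) * ‖iteratedFDeriv ℝ i h t‖ *
        ‖iteratedFDeriv ℝ (k - i) (fun t => (P t)⁻¹) t‖ := by
    apply norm_iteratedFDeriv_mul_le (N := N) hh (contDiff_inv_P (n := N)) t
    exact_mod_cast hk
  rw [norm_iteratedFDeriv_eq_norm_iteratedDeriv, Real.norm_eq_abs] at h1
  have h2 : ∑ i ∈ Finset.range (k + 1), (k.choose i : ℝ) * ‖iteratedFDeriv ℝ i h t‖ *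
        ‖iteratedFDeriv ℝ (k - i) (fun t => (P t)⁻¹) t‖ ≤
      ∑ i ∈ Finset.range (k + 1), (k.choose i : ℝ) * (B * (C * Real.exp (8 / 3 * R))) := by
    apply Finset.sum_le_sum
    intro i hi
    rw [Finset.mem_range] at hi
    rw [mul_assoc]
    apply mul_le_mul_of_nonneg_left _ (Nat.cast_nonneg _)
    rw [norm_iteratedFDeriv_eq_norm_iteratedDeriv, norm_iteratedFDeriv_eq_norm_iteratedDeriv,
      Real.norm_eq_abs, Real.norm_eq_abs]
    have h3 := hB i (by omega) t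
    have h4 := hb (k - i) (by omega) t
    have h5 : C * Real.exp (8 / 3 * |t|) ≤ C * Real.exp (8 / 3 * R) := by
      apply mul_le_mul_of_nonneg_left _ hC.le
      rw [Real.exp_le_exp]
      linarith
    exact mul_le_mul h3 (h4.trans h5) (abs_nonneg _) hB0
  have h6 : ∑ i ∈ Finset.range (k + 1), (k.choose i : ℝ) * (B * (C * Real.exp (8 / 3 * R))) =
      2 ^ k * (B * (C * Real.exp (8 / 3 * R))) := by
    rw [← Finset.sum_mul]
    congr 1
    have := Nat.sum_range_choose k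
    exact_mod_cast this
  have h7 : (2 : ℝ) ^ k ≤ 2 ^ N := pow_le_pow_right₀ (by norm_num) hk
  have h8 : |iteratedDeriv k (fun t => h t * (P t)⁻¹) t| ≤
      2 ^ N * (B * (C * Real.exp (8 / 3 * R))) := by
    refine h1.trans (h2.trans ?_)
    rw [h6]
    apply mul_le_mul_of_nonneg_right h7
    positivity
  calc s⁻¹ * |iteratedDeriv k (fun t => h t * (P t)⁻¹) t|
      ≤ s⁻¹ * (2 ^ N * (B * (C * Real.exp (8 / 3 * R)))) :=
        mul_le_mul_of_nonneg_left h8 (inv_pos.mpr hs).le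
    _ = 2 ^ N * C * B * Real.exp (8 / 3 * R) / s := by
        rw [div_eq_inv_mul]; ring

/-- The eta bound for currents supported in `|t| ≤ (1 - e) T`, `T = (3/8) log m`, and row number
`s ≥ m / 2`: everything is `O(B m^{-e})`. -/
theorem eta_bound_T (N : ℕ) : ∃ C : ℝ, 0 < C ∧ ∀ h : ℝ → ℝ, ContDiff ℝ N h → ∀ B e m s : ℝ,
    0 < m → m / 2 ≤ s →
    (∀ k ≤ N, ∀ t, |iteratedDeriv k h t| ≤ B) →
    (∀ t, (1 - e) * (3 / 8 * Real.log m) ≤ |t| → h t = 0) →
    ∀ k ≤ N, ∀ t, |iteratedDeriv k (fun t => h t / (s * P t)) t| ≤ C * B * m ^ (-e) := by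
  obtain ⟨C, hC, hb⟩ := eta_bound N
  refine ⟨2 * C, by positivity, ?_⟩
  intro h hh B e m s hm hs hB hR k hk t
  have hs0 : 0 < s := by linarith
  have hB0 : 0 ≤ B := (abs_nonneg _).trans (hB 0 (Nat.zero_le _) 0)
  refine (hb h hh B _ s hs0 hB hR k hk t).trans ?_
  have h1 : Real.exp (8 / 3 * ((1 - e) * (3 / 8 * Real.log m))) = m * m ^ (-e) := by
    rw [Real.rpow_def_of_pos hm]
    nth_rewrite 2 [← Real.exp_log hm]
    rw [← Real.exp_add]
    congr 1
    ring
  rw [h1, div_le_iff₀ hs0]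
  have h2 : 0 ≤ C * B * m ^ (-e) := by
    have := Real.rpow_nonneg hm.le (-e)
    positivity
  nlinarith

/-- smoothness of eta -/
theorem eta_contDiff {N : ℕ∞} {h : ℝ → ℝ} (hh : ContDiff ℝ N h) (s : ℝ) :
    ContDiff ℝ N (fun t => h t / (s * P t)) := by
  have e : (fun t => h t / (s * P t)) = fun t => s⁻¹ * (h t * (P t)⁻¹) := by
    funext t
    rw [div_eq_mul_inv, mul_inv]
    ring
  rw [e]
  exact contDiff_const.mul (hh.mul contDiff_inv_P)

/-- support of eta -/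
theorem eta_zero {h : ℝ → ℝ} {R : ℝ} (hR : ∀ t, R ≤ |t| → h t = 0) (s : ℝ) (t : ℝ)
    (ht : R ≤ |t|) : h t / (s * P t) = 0 := by
  rw [hR t ht, zero_div]

/-- the bounds of `1 / (s P)` everywhere -/
theorem inv_sP_bound (N : ℕ) : ∃ C : ℝ, 0 < C ∧ ∀ s : ℝ, 0 < s → ∀ k ≤ N, ∀ t : ℝ,
    |iteratedDeriv k (fun t => (s * P t)⁻¹) t| ≤ C * Real.exp (8 / 3 * |t|) / s := by
  obtain ⟨C, hC, hb⟩ := inv_P_bound_all N
  refine ⟨C, hC, fun s hs k hk t => ?_⟩
  have e : (fun t => (s * P t)⁻¹) = fun t => s⁻¹ * (P t)⁻¹ := by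
    funext t
    rw [mul_inv]
  rw [e, iteratedDeriv_const_mul_field, abs_mul, abs_of_pos (inv_pos.mpr hs), div_eq_inv_mul]
  exact mul_le_mul_of_nonneg_left (hb k hk t) (inv_pos.mpr hs).le

end

end NUSea.PLX.CUR
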