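import Pool.Agent.PLX.Ns
import Pool.Agent.NUO.Par0G
import Pool.Agent.NUO.DirP5
import Pool.Agent.PLX.NUSea.Par0

/-!
# The parameters and the curve are admissible, general sea
-/

set_option autoImplicit false

noncomputable section

namespace NUSea.PLX.O

open NUSea.O

open NUO

variable [Sea]

/-- **the parameters and the curve are admissible** -/
theorem good_par0 {e1 : ℝ} (he : 0 < e1) {J : ℝ} (hJ : 0 ≤ J) :
    ∃ m0 : ℕ, ∀ m ≥ m0, NUO.Good (par0 m) (etaA e1 J m) (etaA' e1 J m) := by
  have hl := l_pos0
  obtain ⟨m0, h0⟩ := etaA_small he J hJ (x := NUP1.l / 20) (by positivity)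
  refine ⟨m0, fun m hm => ?_⟩
  refine
    { j1 := by rw [par0_jL]; norm_num
      j2 := by rw [par0_jL]; norm_num
      e1 := by rw [par0_e]; norm_num
      d0 := d0_pos
      e2 := fun r => by have := d0_le r; rw [par0_e, par0_d]; linarith
      rm := rad0_meas m
      r0 := fun r t => rad0_pos m r t
      r1 := fun r t => ?_
      hd := etaA_hasDeriv e1 J m
      hc := etaA'_cont e1 J m
      h0 := etaA_nonneg hJ m
      h1 := fun t => ?_
      hb := ⟨NUP1.l / 20, fun t => ?_⟩ }
  · refine (rad0_le m r t).trans ?_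
    have h3 := d0_pos r
    show NUP1.l * d0 r / (64 * (r + 1)) ≤ NUP1.l * d0 r / (8 * (r + 1))
    gcongr
    norm_num
  · have := h0 m hm 0 (by norm_num) t
    rw [iteratedDeriv_zero] at this
    exact (le_abs_self _).trans this
  · have := h0 m hm 1 (by norm_num) t
    rwa [iteratedDeriv_one] at this

theorem small_par0 (m r : ℕ) : NUDirP.Small 8 (par0 m) r where
  d0 := d0_pos r
  d1 := by have := d0_le r; rw [par0_d]; norm_num at this ⊢; linarith
  r0 := fun t => (rad0_pos m r t).le
  r1 := fun t => by
    rw [par0_rad, par0_d]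
    have h1 := rad0_le m r t
    have h2 := d0_pos r
    have h3 := l_pos0
    have h4 : (0 : ℝ) ≤ r := Nat.cast_nonneg r
    calc 64 * (r : ℝ) * rad0 m r t ≤ 64 * (r + 1) * rad0 m r t := by
          have := rad0_pos m r t
          nlinarith
      _ ≤ 64 * (r + 1) * (NUP1.l * d0 r / (64 * (r + 1))) :=
          mul_le_mul_of_nonneg_left h1 (by positivity)
      _ = d0 r * NUP1.l := by field_simp

end NUSea.PLX.O
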