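import Pool.Agent.PLX.Ns
import Pool.Agent.NUO.OneAct
import Pool.Agent.PLX.NUSea.Par0

/-!
# The conditions on the parameters, general sea

Copy of `NUO.ParOK` (`NUO/OneAct`) with the density of a general sea.
-/

set_option autoImplicit false
set_option linter.unusedSectionVars false

noncomputable section

namespace NUSea.PLX.O

open NUSea.O

open NUO NUP1

variable [Sea]

/-- the lines and the circles of the objects, as needed by the one body bounds -/
structure ParOK (P : NUO.Par) (m : ℕ) (K1 : ℝ) : Prop where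
  j1 : 2 ≤ P.jL
  j2 : P.jL ≤ 5 / 2
  e0 : 1 / 4 ≤ P.e
  d0 : ∀ r, 0 ≤ P.d r
  e1 : ∀ r, P.e + P.d r ≤ 31 / 100
  r0 : ∀ r t, 0 < P.rad r t
  r1 : ∀ r t, P.rad r t ≤ l / 20
  r2 : ∀ r t, P.rad r t * (1 + m * NUSea.P t) ≤ 1
  r3 : ∀ r t, 1 / P.rad r t ≤ K1 * ((r : ℝ) + 1) ^ 5 * (1 + Real.log m) * (1 + m * NUSea.P t)

theorem ei_bd {P : NUO.Par} {m : ℕ} {K1 : ℝ} (h : ParOK P m K1) {r : ℕ} (O : Fin r → Xo) (i : Fin r) :
    1 / 4 ≤ ei P O i ∧ ei P O i ≤ 31 / 100 := by
  have h0 := h.e0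
  have h1 := h.e1 r
  have h2 := h.d0 r
  have hr : (rk O i : ℝ) / r ≤ 1 := by
    refine div_le_one_of_le₀ ?_ (Nat.cast_nonneg r)
    have : rk O i ≤ r := by
      unfold rk
      exact (Finset.card_le_univ _).trans (by rw [Fintype.card_fin])
    exact_mod_cast this
  have hr0 : 0 ≤ (rk O i : ℝ) / r := by positivity
  unfold ei
  constructor
  · nlinarith
  · nlinarith

/-- the parameters of TARGET-A, any sea -/
theorem parOK_par0 (m : ℕ) : ParOK (par0 m) m K1c where
  j1 := by rw [par0_jL]; norm_num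
  j2 := by rw [par0_jL]; norm_num
  e0 := by rw [par0_e]
  d0 := fun r => (d0_pos r).le
  e1 := fun r => by have := d0_le r; rw [par0_e, par0_d]; linarith
  r0 := fun r t => rad0_pos m r t
  r1 := fun r t => rad0_le_l m r t
  r2 := fun r t => rad0_rho1 m r t
  r3 := fun r t => rad0_inv m r t

end NUSea.PLX.O

end
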