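import Pool.Agent.PLX.Ns
import Pool.Agent.PLX.NUSea.One
import Pool.Agent.NUSea.Inst
import Pool.Agent.NUMFH.Dens

/-!
# The two instances of `Sea` in the notation of `NUMF` and `NUMFH`

`seaH` (rows at `± l / 2`): density `NUMFH.Pd`, field `NUMFH.vd`; the transform of the density and
the bulk constant.  `seaP` (rows at `0`): density `NUMF.P`, field `NUMF.v`.
-/

set_option autoImplicit false

open MeasureTheory Set Filter Topology Complex

namespace NUSea.PLX

open NUMF (l l_pos)

/-- the density of the rows at `± l / 2`, two forms -/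
theorem Ph_eq_Pd (t : ℝ) : Ph t = NUMFH.Pd t := by
  have h1 := Phc_ofReal t
  have h2 := NUMFH.Pb_add (l / 2) t
  rw [NUMFH.Pb_half] at h2
  have h3 : Phc t = (NUMFH.Pd t : ℂ) := by
    unfold Phc av
    rw [h2]
    ring
  exact_mod_cast h1.symm.trans h3

theorem P_seaH : @P seaH = NUMFH.Pd := funext Ph_eq_Pd

theorem Pc_seaH : @Pc seaH = av NUMF.Pc := rfl

theorem vs_seaH : @vs seaH = av NUAct.vs := rfl

theorem vx_seaH : @vx seaH = av NUAct.vx := rfl

theorem vc_seaH : @vc seaH = av NUAct.vc := by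
  funext z
  change av NUAct.vs z + av NUAct.vx z = av NUAct.vc z
  unfold av
  rw [NUAct.vc_eq, NUAct.vc_eq]
  ring

/-- the field of the rows at `± l / 2` -/
theorem v_seaH : @v seaH = NUMFH.vd := by
  funext t
  have h1 := (@conv_V seaH t).2
  rw [P_seaH] at h1
  exact h1.symm.trans (NUMFH.conv_Vd t).2

/-- **the bulk constant of the two clusters** -/
theorem int_Pv_seaH : Integrable (fun s => @P seaH s * @v seaH s) ∧
    ∫ s, @P seaH s * @v seaH s =
      5 * Real.log 2 - 3 * Real.log 3 + 5 / 2 * Real.log (1 + NUMF.r) := by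
  rw [P_seaH, v_seaH]
  exact NUMFH.int_vdPd

/-- transform of the density, rows at `± l / 2` -/
theorem P_seaH_forward (k : ℝ) : Integrable (fun t => @P seaH t * Real.cos (k * t)) ∧
    ∫ t, @P seaH t * Real.cos (k * t) = Real.cosh (k * (l / 2)) / (2 * NUMF.ck1 k - 1) := by
  rw [P_seaH]
  exact NUMFH.Pd_forward k

/-- **mean field = bulk factor** for two clusters of `M` rows in each of the two groups -/
theorem bulk_seaH (M : ℕ) :
    (2 - √2) ^ (2 * M) * (4 + 2 * √2) ^ (2 * (M * (M - 1))) * 16 ^ (M ^ 2) *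
      Real.exp ((2 * (M : ℝ)) ^ 2 * ∫ s, @P seaH s * @v seaH s) =
    (2 / 3 * (2 + √2)) ^ (4 * M * (2 * M - 1)) * (8 / 3 * (1 + NUMF.r)) ^ (4 * M ^ 2) *
      (2 / 3) ^ (4 * M) := by
  rw [P_seaH, v_seaH]
  exact NUMFH.bulk_h_match M

/-! ### rows at `0` -/

theorem P_seaP : @P seaP = NUMF.P := rfl

theorem Pc_seaP : @Pc seaP = NUMF.Pc := rfl

theorem vs_seaP : @vs seaP = NUAct.vs := rfl

theorem vx_seaP : @vx seaP = NUAct.vx := rfl

theorem vc_seaP : @vc seaP = NUAct.vc := by
  funext z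
  exact (NUAct.vc_eq z).symm

theorem v_seaP : @v seaP = NUMF.v := by
  funext t
  have h1 : @v seaP t = (@vc seaP t).re := rfl
  rw [h1, vc_seaP, NUAct.vc_ofReal, Complex.ofReal_re]

end NUSea.PLX
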