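import Pool.Agent.PLX.Ns
import Pool.Agent.NUR2.OC
import Pool.Agent.NUP.Trans
import Pool.Agent.PLX.NUSea.Disp

/-!
# The exact transport of [4.7] for a general sea

`ψ = G⁻¹ (G + F / s)`: the increasing diffeomorphism of the line with
`s P (ψ x) ψ' x = s P x + F' x`; `ψ - id` and its first four derivatives are `O (M / (s P b))`.
Copy of `NUR2/Disp.lean`.
-/

set_option autoImplicit false
set_option linter.unusedSectionVars false

open MeasureTheory Set Filter Topology NUOC NUTr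

namespace NUSea.PLX

noncomputable section

variable [Sea]

/-! ### the logarithmic derivative of `P` -/

/-- the derivatives of `P` on the line -/
def Pn (k : ℕ) (x : ℝ) : ℝ := (iteratedDeriv k Pc (x : ℂ)).re

/-- their ratios with `P` -/
def qk (k : ℕ) (x : ℝ) : ℝ := Pn k x / P x

/-- `log P` -/
def ell (x : ℝ) : ℝ := Real.log (P x)

/-- its derivative -/
def ell' (x : ℝ) : ℝ := qk 1 x

lemma Pn_zero (x : ℝ) : Pn 0 x = P x := by
  unfold Pn
  rw [iteratedDeriv_zero, Pc_ofReal, Complex.ofReal_re]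

lemma Pn_deriv (k : ℕ) (x : ℝ) : HasDerivAt (Pn k) (Pn (k + 1) x) x := by
  have h := (hasDerivAt_real k x)
  exact (Complex.reCLM.hasFDerivAt.comp_hasDerivAt x h)

lemma P_deriv (x : ℝ) : HasDerivAt P (Pn 1 x) x := by
  have h := Pn_deriv 0 x
  have e : Pn 0 = P := funext Pn_zero
  rwa [e] at h

lemma Pn_le (k : ℕ) : ∃ C : ℝ, 0 ≤ C ∧ ∀ x : ℝ, |Pn k x| ≤ C * P x := by
  obtain ⟨C, hC, h⟩ := Pc_deriv_P (b := 0) le_rfl (by have := NUMF.l_pos; linarith) k
  refine ⟨C, hC, fun x => ?_⟩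
  have h1 := h x (by simp)
  rw [Complex.ofReal_re] at h1
  exact (Complex.abs_re_le_norm _).trans h1

lemma qk_le (k : ℕ) : ∃ C : ℝ, 0 ≤ C ∧ ∀ x : ℝ, |qk k x| ≤ C := by
  obtain ⟨C, hC, h⟩ := Pn_le k
  refine ⟨C, hC, fun x => ?_⟩
  unfold qk
  rw [abs_div, abs_of_pos (P_pos x), div_le_iff₀ (P_pos x)]
  exact h x

lemma qk_deriv (k : ℕ) (x : ℝ) : HasDerivAt (qk k) (qk (k + 1) x - qk k x * qk 1 x) x := by
  have h := (Pn_deriv k x).div (P_deriv x) (P_pos x).ne'
  refine HasDerivAt.congr_deriv h ?_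
  have := P_pos x
  unfold qk
  field_simp

lemma qk_O (j : ℕ) : ∀ k : ℕ, ∃ a : ℝ, O j a (qk k) := by
  induction j with
  | zero =>
    intro k
    obtain ⟨C, hC, h⟩ := qk_le k
    exact ⟨C, continuous_iff_continuousAt.2 fun x => (qk_deriv k x).continuousAt, h⟩
  | succ j ih =>
    intro k
    obtain ⟨C, hC, h⟩ := qk_le k
    obtain ⟨a, ha⟩ := ih k
    obtain ⟨a', ha'⟩ := ih (k + 1)
    obtain ⟨b, hb⟩ := ih 1
    exact ⟨max C _, fun x => (h x).trans (le_max_left _ _), _, qk_deriv k,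
      (ha'.sub (ha.mul hb)).mono (le_max_right _ _)⟩

lemma ell'_O (j : ℕ) : ∃ a : ℝ, O j a ell' := qk_O j 1

lemma ell_deriv (x : ℝ) : HasDerivAt ell (ell' x) x := (P_deriv x).log (P_pos x).ne'

/-! ### the distribution function -/

/-- the distribution function of `P` -/
def G (t : ℝ) : ℝ := ∫ u in (0:ℝ)..t, P u

lemma hasDerivAt_G (t : ℝ) : HasDerivAt G (P t) t :=
  intervalIntegral.integral_hasDerivAt_right (P_cont.intervalIntegrable _ _)
    P_cont.stronglyMeasurable.stronglyMeasurableAtFilter P_cont.continuousAt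

lemma G_cont : Continuous G := continuous_iff_continuousAt.2 fun x => (hasDerivAt_G x).continuousAt

lemma G_neg (t : ℝ) : G (-t) = - G t := by
  unfold G
  have h := intervalIntegral.integral_comp_neg (a := 0) (b := t) P
  simp only [P_neg, neg_zero] at h
  rw [h, intervalIntegral.integral_symm]

lemma G_strictMono : StrictMono G := by
  apply strictMono_of_deriv_pos
  intro x
  rw [(hasDerivAt_G x).deriv]
  exact P_pos x

lemma half_mass : ∫ t in Ioi (0:ℝ), P t = 1 / 2 := by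
  have h1 : (∫ t in Iic (0:ℝ), P t) + ∫ t in Ioi (0:ℝ), P t = 1 := by
    rw [← P_mass]
    have := integral_add_compl (measurableSet_Iic (a := (0:ℝ))) P_int
    rwa [compl_Iic] at this
  have h2 := integral_comp_neg_Iic (0:ℝ) P
  simp only [P_neg, neg_zero] at h2
  linarith

lemma G_top : Tendsto G atTop (𝓝 (1 / 2)) := by
  rw [← half_mass]
  exact intervalIntegral_tendsto_integral_Ioi 0 P_int.integrableOn tendsto_id

lemma G_bot : Tendsto G atBot (𝓝 (-(1 / 2))) := by
  have h := (G_top.comp tendsto_neg_atBot_atTop).neg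
  refine h.congr fun t => ?_
  simp only [Function.comp, G_neg, neg_neg]

lemma G_lt (x : ℝ) : G x < 1 / 2 :=
  (G_strictMono (by linarith : x < x + 1)).trans_le
    (ge_of_tendsto G_top ((eventually_ge_atTop (x + 1)).mono fun y hy => G_strictMono.monotone hy))

lemma lt_G (x : ℝ) : -(1 / 2) < G x := by
  have := G_lt (-x)
  rw [G_neg] at this
  linarith

lemma G_surj {u : ℝ} (h1 : -(1 / 2) < u) (h2 : u < 1 / 2) : ∃ x, G x = u := by
  obtain ⟨a, ha⟩ := (G_bot.eventually (gt_mem_nhds h1)).exists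
  obtain ⟨b, hb⟩ := (G_top.eventually (lt_mem_nhds h2)).exists
  exact mem_range_of_exists_le_of_exists_ge G_cont ⟨a, ha.le⟩ ⟨b, hb.le⟩

/-- the inverse of `G` -/
def Gi (u : ℝ) : ℝ := Function.invFun G u

lemma G_Gi {u : ℝ} (h1 : -(1 / 2) < u) (h2 : u < 1 / 2) : G (Gi u) = u :=
  Function.invFun_eq (G_surj h1 h2)

lemma Gi_G (x : ℝ) : Gi (G x) = x := G_strictMono.injective (G_Gi (lt_G x) (G_lt x))

lemma Gi_cont {u : ℝ} (h1 : -(1 / 2) < u) (h2 : u < 1 / 2) : ContinuousAt Gi u := by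
  have hG := G_Gi h1 h2
  refine tendsto_order.2 ⟨fun a ha => ?_, fun a ha => ?_⟩
  · have h3 : G a < u := by
      rw [← hG]
      exact G_strictMono ha
    filter_upwards [Ioo_mem_nhds h3 h2] with y hy
    rw [← G_strictMono.lt_iff_lt, G_Gi ((lt_G a).trans hy.1) hy.2]
    exact hy.1
  · have h3 : u < G a := by
      rw [← hG]
      exact G_strictMono ha
    filter_upwards [Ioo_mem_nhds h1 h3] with y hy
    rw [← G_strictMono.lt_iff_lt, G_Gi hy.1 (hy.2.trans (G_lt a))]
    exact hy.2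

lemma Gi_deriv {u : ℝ} (h1 : -(1 / 2) < u) (h2 : u < 1 / 2) : HasDerivAt Gi (P (Gi u))⁻¹ u := by
  refine HasDerivAt.of_local_left_inverse (Gi_cont h1 h2) (hasDerivAt_G (Gi u)) (P_pos _).ne' ?_
  filter_upwards [Ioo_mem_nhds h1 h2] with y hy
  exact G_Gi hy.1 hy.2

/-! ### comparison of values of `P` -/

lemma exists_c1 : ∃ c : ℝ, 0 < c ∧ ∀ b y : ℝ, 0 ≤ b → |y| ≤ b + 1 → c * P b ≤ P y := by
  obtain ⟨C, hC, h1⟩ := P_le
  obtain ⟨c, hc, h2⟩ := le_P
  refine ⟨c * Real.exp (-(8 / 3)) / C, by positivity, fun b y hb hy => ?_⟩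
  have h3 := h1 b
  rw [abs_of_nonneg hb] at h3
  have h4 : Real.exp (-(8 / 3) * (b + 1)) ≤ Real.exp (-(8 / 3) * |y|) := by
    apply Real.exp_le_exp.2
    nlinarith
  have h5 : Real.exp (-(8 / 3) * (b + 1)) = Real.exp (-(8 / 3)) * Real.exp (-(8 / 3) * b) := by
    rw [← Real.exp_add]; congr 1; ring
  calc c * Real.exp (-(8 / 3)) / C * P b ≤
        c * Real.exp (-(8 / 3)) / C * (C * Real.exp (-(8 / 3) * b)) := by gcongr
    _ = c * Real.exp (-(8 / 3) * (b + 1)) := by
        rw [h5]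
        field_simp
    _ ≤ c * Real.exp (-(8 / 3) * |y|) := by gcongr
    _ ≤ _ := h2 y

/-- the constant of comparison -/
def c1 : ℝ := exists_c1.choose

lemma c1_pos : 0 < c1 := exists_c1.choose_spec.1

lemma P_compT {b y : ℝ} (hb : 0 ≤ b) (hy : |y| ≤ b + 1) : c1 * P b ≤ P y :=
  exists_c1.choose_spec.2 b y hb hy

lemma G_gap {b x d : ℝ} (hb : 0 ≤ b) (hx : |x| ≤ b) (hd : 0 ≤ d) (hd1 : d ≤ 1) :
    c1 * P b * d ≤ G (x + d) - G x := by
  have hx' := abs_le.1 hx
  have h1 : ∀ y ∈ Icc x (x + d), c1 * P b ≤ P y := by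
    intro y hy
    apply P_compT hb
    rw [abs_le]
    constructor <;> linarith [hy.1, hy.2, hx'.1, hx'.2]
  have := Convex.mul_sub_le_image_sub_of_le_deriv (D := Icc x (x + d)) (f := G) (C := c1 * P b)
    (convex_Icc _ _) (fun y _ => (hasDerivAt_G y).continuousAt.continuousWithinAt)
    (fun y _ => (hasDerivAt_G y).differentiableAt.differentiableWithinAt)
    (fun y hy => by
      rw [(hasDerivAt_G y).deriv]
      exact h1 y (interior_subset hy)) x ⟨le_refl _, by linarith⟩ (x + d) ⟨by linarith, le_refl _⟩ (by linarith)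
  rw [add_sub_cancel_left] at this
  exact this

/-! ### the transport -/

/-- the transport of the mass equation -/
def ps (s : ℝ) (F : ℝ → ℝ) (x : ℝ) : ℝ := Gi (G x + F x / s)

/-- hypotheses on `F` -/
structure Hy (j : ℕ) (c s M b : ℝ) (F F' : ℝ → ℝ) : Prop where
  s0 : 0 < s
  b0 : 0 ≤ b
  der : ∀ x, HasDerivAt F (F' x) x
  bd : ∀ x, |F x| ≤ M
  od : O j M F'
  zero : ∀ x, b ≤ |x| → F x = 0
  sm : M ≤ c * (s * P b)

section

variable {j : ℕ} {c s M b : ℝ} {F F' : ℝ → ℝ}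

lemma Hy.M0 (h : Hy j c s M b F F') : 0 ≤ M := (abs_nonneg _).trans (h.bd 0)

lemma Hy.rho (h : Hy j c s M b F F') : 0 < s * P b := mul_pos h.s0 (P_pos b)

lemma Hy.weak {c' : ℝ} (h : Hy j c s M b F F') (hc : c ≤ c') : Hy j c' s M b F F' :=
  ⟨h.s0, h.b0, h.der, h.bd, h.od, h.zero, h.sm.trans (mul_le_mul_of_nonneg_right hc h.rho.le)⟩

lemma Hy.low (h : Hy (j + 1) c s M b F F') : Hy j c s M b F F' :=
  ⟨h.s0, h.b0, h.der, h.bd, h.od.lower, h.zero, h.sm⟩

lemma Hy.zero' (h : Hy j c s M b F F') {x : ℝ} (hx : b < |x|) : F' x = 0 := by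
  have e : F =ᶠ[𝓝 x] fun _ => 0 := by
    filter_upwards [(continuous_abs.tendsto x).eventually (lt_mem_nhds hx)] with y hy
    exact h.zero y (le_of_lt hy)
  exact (h.der x).unique ((hasDerivAt_const x (0:ℝ)).congr_of_eventuallyEq e)

/-- the size of the displacement -/
def dd (s M b : ℝ) : ℝ := M / (c1 * (s * P b))

lemma dd_nonneg (h : Hy j c s M b F F') : 0 ≤ dd s M b :=
  div_nonneg h.M0 (mul_pos c1_pos h.rho).le

lemma dd_le (h : Hy j c s M b F F') (hc : c ≤ c1) : dd s M b ≤ 1 := by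
  unfold dd
  rw [div_le_one (mul_pos c1_pos h.rho)]
  exact h.sm.trans (mul_le_mul_of_nonneg_right hc h.rho.le)

lemma dd_eq (h : Hy j c s M b F F') : c1 * P b * dd s M b = M / s := by
  have := h.s0
  have := P_pos b
  have := c1_pos
  unfold dd
  field_simp

lemma U_le (h : Hy j c s M b F F') (hc : c ≤ c1) (x : ℝ) : G x + F x / s ≤ G (x + dd s M b) := by
  have hd := dd_nonneg h
  rcases le_or_gt b |x| with hx | hx
  · rw [h.zero x hx, zero_div, add_zero]
    exact G_strictMono.monotone (by linarith)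
  · have h1 := G_gap h.b0 hx.le hd (dd_le h hc)
    rw [dd_eq h] at h1
    have h2 : F x / s ≤ M / s := div_le_div_of_nonneg_right ((le_abs_self _).trans (h.bd x)) h.s0.le
    linarith

lemma le_U (h : Hy j c s M b F F') (hc : c ≤ c1) (x : ℝ) : G (x - dd s M b) ≤ G x + F x / s := by
  have h' : Hy j c s M b (fun x => - F (-x)) (fun x => F' (-x)) := by
    refine ⟨h.s0, h.b0, fun x => ?_, fun x => ?_, ?_, fun x hx => ?_, h.sm⟩
    · have := ((h.der (-x)).comp x (hasDerivAt_neg x)).neg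
      refine HasDerivAt.congr_deriv this ?_
      ring
    · rw [abs_neg]; exact h.bd _
    · have aux : ∀ (i : ℕ) (a : ℝ) (f : ℝ → ℝ), O i a f → O i a fun x => f (-x) := by
        intro i
        induction i with
        | zero => intro a f hf; exact ⟨hf.1.comp continuous_neg, fun x => hf.2 _⟩
        | succ i ih =>
          rintro a f ⟨k1, f', k2, k3⟩
          refine ⟨fun x => k1 _, fun x => - f' (-x), fun x => ?_, ?_⟩
          · have := (k2 (-x)).comp x (hasDerivAt_neg x)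
            refine HasDerivAt.congr_deriv this ?_
            ring
          · exact (ih a f' k3).neg
      exact aux _ _ _ h.od
    · rw [h.zero (-x) (by rwa [abs_neg]), neg_zero]
  have h1 := U_le h' hc (-x)
  have e1 : G (-x + dd s M b) = - G (x - dd s M b) := by
    rw [← G_neg]; congr 1; ring
  rw [e1, G_neg] at h1
  simp only [neg_neg] at h1
  rw [neg_div] at h1
  linarith

lemma U_lt (h : Hy j c s M b F F') (hc : c ≤ c1) (x : ℝ) : G x + F x / s < 1 / 2 :=
  (U_le h hc x).trans_lt (G_lt _)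

lemma lt_U (h : Hy j c s M b F F') (hc : c ≤ c1) (x : ℝ) : -(1 / 2) < G x + F x / s :=
  (lt_G _).trans_le (le_U h hc x)

lemma G_ps (h : Hy j c s M b F F') (hc : c ≤ c1) (x : ℝ) : G (ps s F x) = G x + F x / s :=
  G_Gi (lt_U h hc x) (U_lt h hc x)

lemma ps_le (h : Hy j c s M b F F') (hc : c ≤ c1) (x : ℝ) : |ps s F x - x| ≤ dd s M b := by
  have h1 := U_le h hc x
  have h2 := le_U h hc x
  rw [← G_ps h hc] at h1 h2
  have h3 := G_strictMono.le_iff_le.1 h1
  have h4 := G_strictMono.le_iff_le.1 h2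
  rw [abs_le]
  constructor <;> linarith

lemma ps_zero (h : Hy j c s M b F F') {x : ℝ} (hx : b ≤ |x|) : ps s F x = x := by
  unfold ps
  rw [h.zero x hx, zero_div, add_zero, Gi_G]

/-- the derivative of the transport -/
def ps' (s : ℝ) (F F' : ℝ → ℝ) (x : ℝ) : ℝ := (P x + F' x / s) / P (ps s F x)

lemma ps_deriv (h : Hy j c s M b F F') (hc : c ≤ c1) (x : ℝ) : HasDerivAt (ps s F) (ps' s F F' x) x := by
  have h1 := Gi_deriv (lt_U h hc x) (U_lt h hc x)
  have h2 := (hasDerivAt_G x).add ((h.der x).div_const s)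
  have h3 := HasDerivAt.comp x h1 h2
  refine HasDerivAt.congr_deriv h3 ?_
  unfold ps'
  rw [mul_comm, ← div_eq_mul_inv]
  rfl

lemma ps_cont (h : Hy j c s M b F F') (hc : c ≤ c1) : Continuous (ps s F) :=
  continuous_iff_continuousAt.2 fun x => (ps_deriv h hc x).continuousAt

lemma ps'_pos (h : Hy j c s M b F F') (hc : c ≤ c1 / 2) (x : ℝ) : 0 < ps' s F F' x := by
  unfold ps'
  apply div_pos _ (P_pos _)
  have hs := h.s0
  rcases lt_or_ge b |x| with hx | hx
  · rw [h.zero' hx, zero_div, add_zero]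
    exact P_pos x
  · have h1 := P_compT h.b0 (hx.trans (by linarith) : |x| ≤ b + 1)
    have h2 : |F' x / s| ≤ c1 / 2 * P b := by
      rw [abs_div, abs_of_pos hs, div_le_iff₀ hs]
      refine (h.od.le x).trans (h.sm.trans ?_)
      have := mul_le_mul_of_nonneg_right hc h.rho.le
      linarith
    have h3 := (abs_le.1 h2).1
    have h4 := mul_pos c1_pos (P_pos b)
    linarith

theorem ps_dif (h : Hy j c s M b F F') (hc : c ≤ c1 / 2) : Dif (ps s F) (ps' s F F') := by
  have hc1 := c1_pos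
  have hc' : c ≤ c1 := by linarith
  refine ⟨ps_deriv h hc', ps'_pos h hc, ?_⟩
  apply Continuous.surjective (ps_cont h hc')
  · refine tendsto_id.congr' ?_
    filter_upwards [eventually_ge_atTop b] with x hx
    exact (ps_zero h (hx.trans (le_abs_self x))).symm
  · refine tendsto_id.congr' ?_
    filter_upwards [eventually_le_atBot (-b)] with x hx
    have : b ≤ |x| := by
      rw [le_abs]
      right
      linarith
    exact (ps_zero h this).symm

lemma ps_mono (h : Hy j c s M b F F') (hc : c ≤ c1 / 2) : StrictMono (ps s F) := by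
  have hd := ps_dif h hc
  apply strictMono_of_deriv_pos
  intro x
  rw [(hd.der x).deriv]
  exact hd.pos x

theorem ps_abs (h : Hy j c s M b F F') (hc : c ≤ c1 / 2) {R : ℝ} (hR : b ≤ R) (x : ℝ) :
    |ps s F x| ≤ R ↔ |x| ≤ R := by
  have hb := h.b0
  have hR0 : 0 ≤ R := hb.trans hR
  have e1 : ps s F R = R := ps_zero h (by rwa [abs_of_nonneg hR0])
  have e2 : ps s F (-R) = -R := ps_zero h (by rwa [abs_neg, abs_of_nonneg hR0])
  have hm := ps_mono h hc
  rw [abs_le, abs_le]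
  constructor
  · rintro ⟨h1, h2⟩
    constructor
    · rw [← hm.le_iff_le, e2]; exact h1
    · rw [← hm.le_iff_le, e1]; exact h2
  · rintro ⟨h1, h2⟩
    constructor
    · rw [← e2]; exact hm.monotone h1
    · rw [← e1]; exact hm.monotone h2

theorem ps_mass (h : Hy j c s M b F F') (x : ℝ) :
    s * P (ps s F x) * ps' s F F' x = s * P x + F' x := by
  have := P_pos (ps s F x)
  have := h.s0
  unfold ps'
  field_simp

/-- the derivative of the displacement -/
lemma xi_deriv (h : Hy j c s M b F F') (hc : c ≤ c1) (x : ℝ) : HasDerivAt (fun x => ps s F x - x)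
    ((Real.exp (-(ell (x + (ps s F x - x)) - ell x)) - 1) + F' x / s * Real.exp (- ell x) *
      (1 + (Real.exp (-(ell (x + (ps s F x - x)) - ell x)) - 1))) x := by
  refine HasDerivAt.congr_deriv ((ps_deriv h hc x).sub (hasDerivAt_id x)) ?_
  have hP := P_pos x
  have hP' := P_pos (ps s F x)
  have e1 : x + (ps s F x - x) = ps s F x := by ring
  rw [e1]
  have e2 : Real.exp (-(ell (ps s F x) - ell x)) = P x / P (ps s F x) := by
    unfold ell
    rw [neg_sub, Real.exp_sub, Real.exp_log hP, Real.exp_log hP']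
  have e3 : Real.exp (- ell x) = (P x)⁻¹ := by
    unfold ell
    rw [Real.exp_neg, Real.exp_log hP]
  rw [e2, e3]
  unfold ps'
  have := h.s0
  field_simp
  ring

end

lemma xi_step (j : ℕ) {C c : ℝ} (hC1 : 1 ≤ C) (hc0 : 0 < c) (hc : c ≤ c1 / 2)
    (H : ∀ {s M b : ℝ} {F F' : ℝ → ℝ}, Hy j c s M b F F' → O j (C * (M / (s * P b))) fun x => ps s F x - x) :
    ∃ C' c' : ℝ, 1 ≤ C' ∧ 0 < c' ∧ c' ≤ c1 / 2 ∧ ∀ {s M b : ℝ} {F F' : ℝ → ℝ},
    Hy j c' s M b F F' → O (j + 1) (C' * (M / (s * P b))) fun x => ps s F x - x := by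
  obtain ⟨a1, ha1⟩ := ell'_O j
  have ha0 := ha1.nonneg
  obtain ⟨Cd, hCd1, hCd⟩ := O.delta j
  obtain ⟨Ce, hCe1, hCe⟩ := O.exp j
  obtain ⟨Cm, hCm1, hCm⟩ := O.mul_exp j ell_deriv ha1
  have hc1 := c1_pos
  have hA : 0 < C * (1 + Cd * a1) := by
    have : 0 ≤ Cd * a1 := by positivity
    positivity
  refine ⟨C + (Ce * (Cd * (a1 * C)) + 2 ^ j * (Cm / c1 * (1 + Ce))), min c (1 / (C * (1 + Cd * a1))), ?_,
    lt_min hc0 (by positivity), (min_le_left _ _).trans hc, fun {s M b F F'} h => ?_⟩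
  · have : 0 ≤ Ce * (Cd * (a1 * C)) + 2 ^ j * (Cm / c1 * (1 + Ce)) := by positivity
    linarith
  have hr := h.rho
  have hM := h.M0
  set mu := M / (s * P b) with hmu
  have hmu0 : 0 ≤ mu := div_nonneg hM hr.le
  have hmu1 : mu ≤ 1 / (C * (1 + Cd * a1)) := by
    rw [hmu, div_le_iff₀ hr]
    exact h.sm.trans (mul_le_mul_of_nonneg_right (min_le_right _ _) hr.le)
  have hmu2 : mu * (C * (1 + Cd * a1)) ≤ 1 := (le_div_iff₀ hA).1 hmu1
  have hh := h.weak (min_le_left c _)
  have hcc : c ≤ c1 := by linarith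
  have g1 := H hh
  have hl : C * mu ≤ 1 := by
    have : 0 ≤ mu * C * (Cd * a1) := by positivity
    nlinarith
  have hl' : Cd * (a1 * (C * mu)) ≤ 1 := by
    have : 0 ≤ C * mu := by positivity
    nlinarith
  have g2 := (hCd ell_deriv ha1 g1 hl).neg
  have g3 := hCe g2 hl'
  have hE0 : 0 ≤ 1 / (c1 * P b) := by
    have := P_pos b
    positivity
  have g4 : O j (Cm * (|1 / s| * M * (1 / (c1 * P b)))) fun x => (1 / s) * F' x * Real.exp (- ell x) := by
    refine hCm (h.od.smul (1 / s)) (b := b) (fun x hx => by rw [h.zero' hx, mul_zero]) (fun x hx => ?_) hE0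
    unfold ell
    rw [Real.exp_neg, Real.exp_log (P_pos x), ← one_div]
    have := P_pos b
    exact one_div_le_one_div_of_le (by positivity) (P_compT h.b0 (by linarith))
  have g5 : O j (1 + Ce) fun x => 1 + (Real.exp (-(ell (x + (ps s F x - x)) - ell x)) - 1) := by
    refine ((O.const (a := 1) (c := 1) j (by simp)).add g3).mono ?_
    have : Ce * (Cd * (a1 * (C * mu))) ≤ Ce * 1 := mul_le_mul_of_nonneg_left hl' (by linarith)
    linarith
  have e0 : Cm * (|1 / s| * M * (1 / (c1 * P b))) = Cm / c1 * mu := by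
    have := h.s0
    have := P_pos b
    rw [abs_of_pos (by positivity), hmu]
    field_simp
  rw [e0] at g4
  have g6 := g3.add (g4.mul g5)
  refine ⟨fun x => (g1.le x).trans ?_, _, xi_deriv hh hcc, ?_⟩
  · have : 0 ≤ (Ce * (Cd * (a1 * C)) + 2 ^ j * (Cm / c1 * (1 + Ce))) * mu := by positivity
    nlinarith
  · refine (g6.mono ?_).congr fun x => ?_
    · have : 0 ≤ C * mu := by positivity
      nlinarith
    · simp only [one_div]
      ring

lemma xi_base (j : ℕ) : ∃ C c : ℝ, 1 ≤ C ∧ 0 < c ∧ c ≤ c1 / 2 ∧ ∀ {s M b : ℝ} {F F' : ℝ → ℝ},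
    Hy j c s M b F F' → O j (C * (M / (s * P b))) fun x => ps s F x - x := by
  induction j with
  | zero =>
    have hc1 := c1_pos
    refine ⟨max 1 (1 / c1), c1 / 2, le_max_left _ _, by positivity, le_refl _, fun {s M b F F'} h => ?_⟩
    have hcc : c1 / 2 ≤ c1 := by linarith
    refine ⟨(ps_cont h hcc).sub continuous_id, fun x => (ps_le h hcc x).trans ?_⟩
    have hr := h.rho
    have hM := h.M0
    have e : dd s M b = 1 / c1 * (M / (s * P b)) := by
      unfold dd
      field_simp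
    rw [e]
    exact mul_le_mul_of_nonneg_right (le_max_right _ _) (div_nonneg hM hr.le)
  | succ j ih =>
    obtain ⟨C, c, h1, h2, h3, h4⟩ := ih
    obtain ⟨C', c', k1, k2, k3, k4⟩ := xi_step j h1 h2 h3 h4
    exact ⟨C', c', k1, k2, k3, fun h => k4 h.low⟩

/-- **the displacement is small with its derivatives** -/
theorem xi_O (j : ℕ) : ∃ C c : ℝ, 1 ≤ C ∧ 0 < c ∧ c ≤ c1 / 2 ∧ ∀ {s M b : ℝ} {F F' : ℝ → ℝ},
    Hy j c s M b F F' → O (j + 1) (C * (M / (s * P b))) fun x => ps s F x - x := by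
  obtain ⟨C, c, h1, h2, h3, h4⟩ := xi_base j
  exact xi_step j h1 h2 h3 h4

end

end NUSea.PLX
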