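import Pool.Agent.PLX.Ns
import Pool.Agent.PLX.NUSea.Com
import Pool.Agent.PLX.NUSea.Sfin
import Pool.Agent.PLX.NUSea.OOneB
import Pool.Agent.PLX.NUSea.Wind
import Pool.Agent.PLX.Ux2
import Pool.Agent.NUCR.Bil

/-!
# Two curves with almost the same current: potentials and energies

`Obj β A τ f f1 f2`: a potential analytic in the strip, `|f'| ≤ A`, `|f''| ≤ A exp (-2 |Re z - τ|)`;
`exch`: `Re ∫ B_a f(ζ_a)` depends only on the current up to `A M ε`; `obj_fq`, `obj_fg`: the potentials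
of the quanta; `Ecur_bil`: the energy of the currents.
-/

set_option autoImplicit false
set_option linter.unusedSectionVars false

open MeasureTheory Set Filter Topology Complex

namespace NUSea.PLX.Ev

open NUMF (l l_pos V w g lq lqg)
open NUKer NUAct
open NUSea NUSea.PLX

noncomputable section

/-! ### potentials -/

/-- a potential with bounded derivative and decaying second derivative -/
structure Obj (β A τ : ℝ) (f f1 f2 : ℂ → ℂ) : Prop where
  d1 : ∀ z : ℂ, |z.im| ≤ β → HasDerivAt f (f1 z) z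
  d2 : ∀ z : ℂ, |z.im| ≤ β → HasDerivAt f1 (f2 z) z
  b1 : ∀ z : ℂ, |z.im| ≤ β → ‖f1 z‖ ≤ A
  b2 : ∀ z : ℂ, |z.im| ≤ β → ‖f2 z‖ ≤ A * Real.exp (-2 * |z.re - τ|)

lemma convex_strip (β : ℝ) : Convex ℝ {w : ℂ | |w.im| ≤ β} := by
  intro p hp q hq s t hs ht hst
  simp only [mem_setOf_eq, Complex.add_im, Complex.real_smul, Complex.im_ofReal_mul] at *
  refine (abs_add_le _ _).trans ?_
  rw [abs_mul, abs_mul, abs_of_nonneg hs, abs_of_nonneg ht]
  calc s * |p.im| + t * |q.im| ≤ s * β + t * β := by gcongr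
    _ = β := by rw [← add_mul, hst, one_mul]

variable {β A τ : ℝ} {f f1 f2 : ℂ → ℂ}

lemma Obj.A0 (h : Obj β A τ f f1 f2) (hβ : 0 ≤ β) : 0 ≤ A :=
  (norm_nonneg _).trans (h.b1 0 (by simpa using hβ))

lemma Obj.ext (h : Obj β A τ f f1 f2) (hβ : 0 ≤ β) : Ext β f := by
  have hA := h.A0 hβ
  refine Ext_of_lin (K := ‖f 0‖ + A * (1 + β)) (fun z hz => (h.d1 z hz).differentiableAt)
    fun z hz => ?_
  have h1 := (convex_strip β).norm_image_sub_le_of_norm_hasDerivWithin_le (f := f) (f' := f1) (C := A)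
    (fun w hw => (h.d1 w hw).hasDerivWithinAt) (fun w hw => h.b1 w hw)
    (x := 0) (y := z) (show |(0 : ℂ).im| ≤ β by simpa using hβ) hz
  rw [sub_zero] at h1
  have h2 : ‖z‖ ≤ |z.re| + |z.im| := Complex.norm_le_abs_re_add_abs_im z
  have h3 : ‖f z‖ ≤ ‖f z - f 0‖ + ‖f 0‖ := by
    have := norm_add_le (f z - f 0) (f 0)
    rwa [sub_add_cancel] at this
  have h4 := norm_nonneg (f 0)
  have h5 := abs_nonneg z.re
  have h6 : A * ‖z‖ ≤ A * (|z.re| + β) := mul_le_mul_of_nonneg_left (by linarith) hA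
  have h7 : 0 ≤ ‖f 0‖ * |z.re| := mul_nonneg h4 h5
  have h8 : 0 ≤ A * β * |z.re| := mul_nonneg (mul_nonneg hA hβ) h5
  nlinarith

lemma Obj.taylor (h : Obj β A τ f f1 f2) (hA : 0 ≤ A) {z z' : ℂ} (hre : z.re = z'.re)
    (hz : |z.im| ≤ β) (hz' : |z'.im| ≤ β) :
    ‖f z' - f z - f1 z * (z' - z)‖ ≤ A * Real.exp (-2 * |z.re - τ|) * ‖z' - z‖ ^ 2 :=
  seg_taylor (convex_vert z.re β) (fun w hw => h.d1 w hw.2) (fun w hw => h.d2 w hw.2)
    (fun w hw => by
      have := h.b2 w hw.2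
      rwa [hw.1] at this) ⟨rfl, hz⟩ ⟨hre.symm, hz'⟩

/-- mass of `exp (-2 |t|)` -/
def m2 : ℝ := ∫ t : ℝ, Real.exp (-2 * |t|)

lemma m2_nonneg : 0 ≤ m2 := integral_nonneg fun t => (Real.exp_pos _).le

section

variable [Sea]

variable {ε M b : ℝ} {s : Bool → ℝ} {e : ℝ → ℝ} {η η1 : Bool → ℝ → ℝ}

/-- the displacement is bounded by the weight -/
lemma cur_abs {s ε M b : ℝ} {e η : ℝ → ℝ} (h : Cur s ε M b e η) (t : ℝ) : |η t| ≤ e t := by
  have := h.oc.le t
  rwa [iD, norm_mul, Complex.norm_I, mul_one, Complex.norm_real, Real.norm_eq_abs] at this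

/-- **the potential on one path** -/
theorem one_path {s ε M b : ℝ} {e η η1 : ℝ → ℝ} (hO : Obj β A τ f f1 f2) (hβ0 : 0 ≤ β)
    (hβ : β ≤ l / 7) (hs : 0 ≤ s) (hε : ε ≤ 1 / 20) (hεβ : ε ≤ β) (hc : Cur s ε M b e η)
    (hη : ∀ t, HasDerivAt η (η1 t) t) :
    (Integrable fun t => Bf s (iD η) (iD η1) t * f (zt (iD η) t)) ∧
    (Integrable fun t : ℝ => P t * (s * η t) * (f1 (t : ℂ)).im) ∧
    |(∫ t, Bf s (iD η) (iD η1) t * f (zt (iD η) t)).re -
      ∫ t, P t * (s * η t) * (f1 (t : ℂ)).im| ≤ m2 * A * (M * ε) := by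
  have hA := hO.A0 hβ0
  have hE := hO.ext hβ0
  have hM := hc.M0 hs
  have hε0 := hc.ε0
  have Pw := path_of_cur_w hs hε hεβ hc hη
  obtain ⟨i1, e1⟩ := cv_gen s hβ Pw hE
  have i2 := int_rFh s Pw hE
  have i3 := int_rF s hβ0 hE
  have hB : ∀ t, Bf s (iD η) (iD η1) t * f (zt (iD η) t) =
      (s : ℂ) * (Pc (zt (iD η) t) * zd (iD η1) t) * f (zt (iD η) t) -
        ((s * P t : ℝ) : ℂ) * f (zt (iD η) t) := fun t => by
    unfold Bf
    ring
  have j1 : Integrable fun t => Bf s (iD η) (iD η1) t * f (zt (iD η) t) :=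
    (i1.sub i2).congr (Eventually.of_forall fun t => (hB t).symm)
  have hsup : ∀ t, b < |t| → η t = 0 := fun t ht => by
    have := cur_abs hc t
    rw [hc.supp t ht] at this
    exact abs_nonpos_iff.1 this
  have cη : Continuous η := continuous_iff_continuousAt.2 fun t => (hη t).continuousAt
  have cf1 : Continuous fun t : ℝ => f1 (t : ℂ) :=
    continuous_iff_continuousAt.2 fun t => by
      have h1 : ContinuousAt f1 (t : ℂ) := (hO.d2 t (by simpa using hβ0)).continuousAt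
      exact h1.comp (f := fun t : ℝ => (t : ℂ)) Complex.continuous_ofReal.continuousAt
  have cP := P_cont
  have j2 : Integrable fun t : ℝ => P t * (s * η t) * (f1 (t : ℂ)).im := by
    refine Continuous.integrable_of_hasCompactSupport
      ((cP.mul (continuous_const.mul cη)).mul (Complex.continuous_im.comp cf1)) ?_
    refine HasCompactSupport.intro (K := Icc (-b) b) isCompact_Icc fun t ht => ?_
    rw [mem_Icc, ← abs_le, not_le] at ht
    rw [hsup t ht]
    ring
  refine ⟨j1, j2, ?_⟩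
  have e2 : (∫ t, Bf s (iD η) (iD η1) t * f (zt (iD η) t)) =
      ∫ t : ℝ, (((s * P t : ℝ) : ℂ) * f t - ((s * P t : ℝ) : ℂ) * f (zt (iD η) t)) := by
    rw [integral_sub i3 i2, ← e1, ← integral_sub i1 i2]
    exact integral_congr_ae (Eventually.of_forall hB)
  have j3 : Integrable fun t : ℝ =>
      ((s * P t : ℝ) : ℂ) * f t - ((s * P t : ℝ) : ℂ) * f (zt (iD η) t) := i3.sub i2
  have e3 : (∫ t : ℝ, (((s * P t : ℝ) : ℂ) * f t - ((s * P t : ℝ) : ℂ) * f (zt (iD η) t))).re =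
      ∫ t : ℝ, (((s * P t : ℝ) : ℂ) * f t - ((s * P t : ℝ) : ℂ) * f (zt (iD η) t)).re :=
    (Complex.reCLM.integral_comp_comm j3).symm
  have j3r : Integrable fun t : ℝ =>
      (((s * P t : ℝ) : ℂ) * f t - ((s * P t : ℝ) : ℂ) * f (zt (iD η) t)).re := j3.re
  rw [e2, e3, ← integral_sub j3r j2, ← Real.norm_eq_abs]
  have iexp : Integrable fun t : ℝ => Real.exp (-2 * |t - τ|) :=
    (int_exp_abs' (κ := 2) (by norm_num)).comp_sub_right τ
  refine (norm_integral_le_of_norm_le (iexp.const_mul (A * (M * ε)))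
    (Eventually.of_forall fun t => ?_)).trans (le_of_eq ?_)
  · have hp := (P_pos t).le
    have hz : |(zt (iD η) t).im| ≤ β := Pw.im_le t
    have hre : ((t : ℂ)).re = (zt (iD η) t).re := by simp [zt, iD]
    have h1 := hO.taylor hA hre (by simpa using hβ0) hz
    have e4 : zt (iD η) t - t = (η t : ℂ) * I := by
      unfold zt iD
      ring
    rw [e4, Complex.ofReal_re] at h1
    have n1 : ‖(η t : ℂ) * I‖ = |η t| := by
      rw [norm_mul, Complex.norm_I, mul_one, Complex.norm_real, Real.norm_eq_abs]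
    rw [n1] at h1
    obtain ⟨r, hr⟩ : ∃ r, r = f (zt (iD η) t) - f t - f1 t * ((η t : ℂ) * I) := ⟨_, rfl⟩
    rw [← hr] at h1
    have e5 : (((s * P t : ℝ) : ℂ) * f t - ((s * P t : ℝ) : ℂ) * f (zt (iD η) t)).re -
        P t * (s * η t) * (f1 (t : ℂ)).im = -(s * P t * r.re) := by
      have h2 : ((s * P t : ℝ) : ℂ) * f t - ((s * P t : ℝ) : ℂ) * f (zt (iD η) t) =
          -(((s * P t : ℝ) : ℂ) * r) - ((s * P t : ℝ) : ℂ) * (f1 t * ((η t : ℂ) * I)) := by
        rw [hr]
        ring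
      have h3 : (f1 t * ((η t : ℂ) * I)).re = -(η t * (f1 t).im) := by
        simp [Complex.mul_re]
        ring
      rw [h2, Complex.sub_re, Complex.neg_re, Complex.re_ofReal_mul, Complex.re_ofReal_mul, h3]
      ring
    change ‖(((s * P t : ℝ) : ℂ) * f t - ((s * P t : ℝ) : ℂ) * f (zt (iD η) t)).re -
        P t * (s * η t) * (f1 (t : ℂ)).im‖ ≤ _
    rw [e5, Real.norm_eq_abs, abs_neg, abs_mul, abs_of_nonneg (mul_nonneg hs hp)]
    have h4 := (Complex.abs_re_le_norm r).trans h1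
    have hE0 := Real.exp_pos (-2 * |t - τ|)
    have h5 : s * P t * |η t| ≤ M :=
      (mul_le_mul_of_nonneg_left (cur_abs hc t) (mul_nonneg hs hp)).trans (hc.mass t)
    have h6 : |η t| ≤ ε := (cur_abs hc t).trans (hc.le t)
    have h7 := mul_nonneg hs hp
    have h8 := abs_nonneg (η t)
    calc s * P t * |r.re| ≤ s * P t * (A * Real.exp (-2 * |t - τ|) * |η t| ^ 2) := by gcongr
      _ = A * Real.exp (-2 * |t - τ|) * ((s * P t * |η t|) * |η t|) := by ring
      _ ≤ A * Real.exp (-2 * |t - τ|) * (M * ε) := by gcongr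
      _ = _ := by ring
  · rw [integral_const_mul, integral_sub_right_eq_self (fun t => Real.exp (-2 * |t|)) τ]
    unfold m2
    ring

/-- **exchange of the curves** -/
theorem exch (hO : Obj β A τ f f1 f2) (hβ0 : 0 ≤ β) (hβ : β ≤ l / 7) (hs : ∀ a, 0 ≤ s a)
    (hε : ε ≤ 1 / 20) (hεβ : ε ≤ β) (hc : ∀ a, Cur (s a) ε M b e (η a))
    (hη : ∀ a t, HasDerivAt (η a) (η1 a t) t) (hcom : Com M s e η η1) :
    |(∫ t, Bf (s false) (iD (η false)) (iD (η1 false)) t * f (zt (iD (η false)) t)).re -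
      (∫ t, Bf (s true) (iD (η true)) (iD (η1 true)) t * f (zt (iD (η true)) t)).re| ≤
      (1 + 2 * m2) * A * (M * ε) := by
  have hA := hO.A0 hβ0
  have hM := (hc true).M0 (hs true)
  obtain ⟨_, i1, h1⟩ := one_path hO hβ0 hβ (hs false) hε hεβ (hc false) (hη false)
  obtain ⟨_, i2, h2⟩ := one_path hO hβ0 hβ (hs true) hε hεβ (hc true) (hη true)
  have h3 : |(∫ t, P t * (s false * η false t) * (f1 (t : ℂ)).im) -
      ∫ t, P t * (s true * η true t) * (f1 (t : ℂ)).im| ≤ A * (M * ε) := by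
    rw [← integral_sub i1 i2, ← Real.norm_eq_abs]
    refine (norm_integral_le_of_norm_le (P_int.const_mul (A * (M * ε)))
      (Eventually.of_forall fun t => ?_)).trans (le_of_eq ?_)
    · have hp := (P_pos t).le
      have h4 := hcom.c0 false t
      have h5 : |(f1 (t : ℂ)).im| ≤ A := (Complex.abs_im_le_norm _).trans
        (hO.b1 t (by simpa using hβ0))
      have h6 : M * e t ≤ M * ε := mul_le_mul_of_nonneg_left ((hc true).le t) hM
      have e1 : P t * (s false * η false t) * (f1 (t : ℂ)).im -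
          P t * (s true * η true t) * (f1 (t : ℂ)).im =
          P t * ((s false * η false t - s true * η true t) * (f1 (t : ℂ)).im) := by ring
      rw [e1, Real.norm_eq_abs, abs_mul, abs_mul, abs_of_nonneg hp]
      have hMe : 0 ≤ M * e t := (abs_nonneg _).trans h4
      calc P t * (|s false * η false t - s true * η true t| * |(f1 (t : ℂ)).im|) ≤
            P t * ((M * e t) * A) := by gcongr
        _ ≤ P t * ((M * ε) * A) := by gcongr
        _ = _ := by ring
    · rw [integral_const_mul, P_mass, mul_one]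
  rw [abs_le] at h1 h2 h3 ⊢
  constructor <;> nlinarith [h1.1, h1.2, h2.1, h2.2, h3.1, h3.2]

end

/-! ### the potentials of the quanta -/

/-- a sum of blocks -/
def blk (c : Fin 8 → ℝ) (k j τ : ℝ) (z : ℂ) : ℂ :=
  ∑ i, (c i : ℂ) * NUMF.F (z - τ + NUO.yv j i * I) + k

/-- its derivative -/
def blk1 (c : Fin 8 → ℝ) (j τ : ℝ) (z : ℂ) : ℂ :=
  ∑ i, (c i : ℂ) * (2 * Complex.tanh (z - τ + NUO.yv j i * I))

/-- its second derivative -/
def blk2 (c : Fin 8 → ℝ) (j τ : ℝ) (z : ℂ) : ℂ :=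
  ∑ i, (c i : ℂ) * (2 * (1 / Complex.cosh (z - τ + NUO.yv j i * I) ^ 2))

/-- **blocks** -/
theorem obj_blk {δ : ℝ} (hδ : 0 < δ) (hδ1 : δ ≤ 2 / 7) : ∃ A : ℝ, 0 ≤ A ∧
    ∀ (c : Fin 8 → ℝ) (k j τ : ℝ), (∀ i, |c i| ≤ 1) → NUO.Off δ j →
      Obj (δ * l / 2) A τ (blk c k j τ) (blk1 c j τ) (blk2 c j τ) := by
  have hl := l_pos
  have hdl : 0 < δ * l := mul_pos hδ hl
  have hpi := Real.pi_pos
  have h4l : 4 * l = Real.pi / 2 := NUO.four_l
  obtain ⟨B, hB⟩ : ∃ B, B = Real.pi / 2 - δ * l / 2 := ⟨_, rfl⟩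
  have hB0 : 0 ≤ B := by rw [hB]; nlinarith
  have hB1 : B < Real.pi / 2 := by rw [hB]; linarith
  have hc0 : 0 < Real.cos B := Real.cos_pos_of_mem_Ioo ⟨by linarith, hB1⟩
  have hc1 : Real.cos B ≤ 1 := Real.cos_le_one B
  refine ⟨8 * (8 / Real.cos B ^ 2), by positivity, fun c k j τ hc hj => ?_⟩
  have hin : ∀ z : ℂ, |z.im| ≤ δ * l / 2 → |(z - (τ : ℂ)).im| < δ * l := fun z hz => by
    rw [Complex.sub_im, Complex.ofReal_im, sub_zero]
    linarith
  have hin2 : ∀ (z : ℂ) (i : Fin 8), |z.im| ≤ δ * l / 2 → |(z - τ + NUO.yv j i * I).im| ≤ B := by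
    intro z i hz
    rw [NUO.im_shift, Complex.sub_im, Complex.ofReal_im, sub_zero, hB]
    have := NUO.yv_le hj i
    exact (abs_add_le _ _).trans (by linarith)
  have hre2 : ∀ (z : ℂ) (i : Fin 8), (z - τ + NUO.yv j i * I).re = z.re - τ := by
    intro z i
    rw [NUO.re_shift, Complex.sub_re, Complex.ofReal_re]
  have hsum : ∀ (F : Fin 8 → ℂ) (X : ℝ), (∀ i, ‖F i‖ ≤ X) → 0 ≤ X →
      ‖∑ i, (c i : ℂ) * F i‖ ≤ 8 * X := by
    intro F X hF hX
    refine (norm_sum_le _ _).trans ?_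
    have h1 : ∀ i ∈ (Finset.univ : Finset (Fin 8)), ‖(c i : ℂ) * F i‖ ≤ X := by
      intro i _
      rw [norm_mul, Complex.norm_real, Real.norm_eq_abs]
      calc |c i| * ‖F i‖ ≤ 1 * X := mul_le_mul (hc i) (hF i) (norm_nonneg _) zero_le_one
        _ = X := one_mul X
    refine (Finset.sum_le_sum h1).trans (le_of_eq ?_)
    simp
  refine ⟨fun z hz => ?_, fun z hz => ?_, fun z hz => ?_, fun z hz => ?_⟩
  · have h1 : HasDerivAt (fun z : ℂ => ∑ i, (c i : ℂ) * NUMF.F (z + NUO.yv j i * I))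
        (∑ i, (c i : ℂ) * (2 * Complex.tanh (z - τ + NUO.yv j i * I))) (z - τ) :=
      HasDerivAt.fun_sum fun i _ => (NUO.hasDerivAt_block hj (hin z hz) i).const_mul _
    exact (h1.comp_sub_const z (τ : ℂ)).add_const _
  · have h1 : HasDerivAt (fun z : ℂ => ∑ i, (c i : ℂ) * (2 * Complex.tanh (z + NUO.yv j i * I)))
        (∑ i, (c i : ℂ) * (2 * (1 / Complex.cosh (z - τ + NUO.yv j i * I) ^ 2))) (z - τ) := by
      refine HasDerivAt.fun_sum fun i _ => HasDerivAt.const_mul _ (HasDerivAt.const_mul _ ?_)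
      have h2 := NUO.hasDerivAt_tanh' (slitPlane_ne_zero (NUMF.cosh_slit (NUO.im_lt hj (hin z hz) i)))
      have h3 : HasDerivAt (fun z : ℂ => z + NUO.yv j i * I) 1 (z - τ) := (hasDerivAt_id _).add_const _
      have h4 := h2.comp (z - τ : ℂ) h3
      rw [mul_one] at h4
      exact h4
    exact h1.comp_sub_const z (τ : ℂ)
  · refine hsum _ _ (fun i => ?_) (by positivity)
    rw [norm_mul, Complex.tanh_eq_sinh_div_cosh]
    have h1 := tanh_bound hB1 (hin2 z i hz)
    have n2 : ‖(2 : ℂ)‖ = 2 := by simp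
    rw [n2]
    have h2 : 1 / Real.cos B ≤ 1 / Real.cos B ^ 2 := by
      refine one_div_le_one_div_of_le (by positivity) ?_
      nlinarith
    calc 2 * ‖Complex.sinh (z - τ + NUO.yv j i * I) / Complex.cosh (z - τ + NUO.yv j i * I)‖ ≤
          2 * (1 / Real.cos B ^ 2) := by linarith
      _ ≤ 8 / Real.cos B ^ 2 := by
          have : 0 < 1 / Real.cos B ^ 2 := by positivity
          have e : 8 / Real.cos B ^ 2 = 8 * (1 / Real.cos B ^ 2) := by ring
          rw [e]
          linarith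
  · have h1 := hsum (fun i => 2 * (1 / Complex.cosh (z - τ + NUO.yv j i * I) ^ 2))
      (8 / Real.cos B ^ 2 * Real.exp (-2 * |z.re - τ|)) (fun i => by
        have h1 := inv_cosh_sq hB0 hB1 (hin2 z i hz)
        rw [hre2] at h1
        rw [norm_mul]
        have n2 : ‖(2 : ℂ)‖ = 2 := by simp
        rw [n2]
        calc 2 * ‖1 / Complex.cosh (z - τ + NUO.yv j i * I) ^ 2‖ ≤
              2 * (4 / Real.cos B ^ 2 * Real.exp (-2 * |z.re - τ|)) := by gcongr
          _ = _ := by ring) (by positivity)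
    refine h1.trans (le_of_eq ?_)
    ring

lemma co_le (i : Fin 8) : |NUO.co i| ≤ 1 := by
  fin_cases i <;> norm_num [NUO.co, abs_le]

lemma cx_le (i : Fin 8) : |NUO.cx i| ≤ 1 := by
  fin_cases i <;> norm_num [NUO.cx, abs_le]

lemma fq_blk (j τ : ℝ) (z : ℂ) : NUO.fq j (z - τ) = blk NUO.co (-Real.log 2) j τ z := by
  unfold NUO.fq blk
  push_cast
  ring

lemma fg_blk (j τ : ℝ) (z : ℂ) : NUO.fg j (z - τ) = blk NUO.cx (Real.log 2) j τ z := rfl

/-! ### the energy of the currents -/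

lemma kcv_int (a d : Bool) {b : ℝ} {v : ℝ → ℝ} (hv : Continuous v) (h0 : ∀ t, b < |t| → v t = 0)
    (t : ℝ) : Integrable fun y => kR a d (t - y) * v y := by
  have h1 : LocallyIntegrable fun y => kR a d (t - y) := by
    rw [locallyIntegrable_iff]
    intro k hk
    obtain ⟨r, hr⟩ := hk.isBounded.subset_closedBall 0
    rw [Real.closedBall_eq_Icc] at hr
    simp only [zero_sub, zero_add] at hr
    have h7 : Integrable (indicator (Icc (t - r) (t + r)) (kR a d)) := by
      rw [integrable_indicator_iff measurableSet_Icc]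
      exact (kR_li a d).integrableOn_isCompact isCompact_Icc
    have h8 := (h7.comp_sub_left t).integrableOn (s := k)
    refine h8.congr_fun_ae ?_
    filter_upwards [ae_restrict_mem hk.measurableSet] with y hy
    have h9 := hr hy
    exact indicator_of_mem (show t - y ∈ Icc (t - r) (t + r) from
      ⟨by linarith [h9.2], by linarith [h9.1]⟩) _
  exact h1.integrable_smul_right_of_hasCompactSupport hv (hcs_of_zero h0)

lemma kcv_sub (a d : Bool) {b : ℝ} {u v : ℝ → ℝ} (hu : Continuous u) (hv : Continuous v)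
    (h0 : ∀ t, b < |t| → u t = 0) (h1 : ∀ t, b < |t| → v t = 0) (t : ℝ) :
    NUKer.cv (kR a d) (fun y => u y - v y) t = NUKer.cv (kR a d) u t - NUKer.cv (kR a d) v t := by
  unfold NUKer.cv
  rw [← integral_sub (kcv_int a d hu h0 t) (kcv_int a d hv h1 t)]
  refine integral_congr_ae (Eventually.of_forall fun y => ?_)
  simp only
  ring

/-- potentials of bounded densities in the window -/
lemma exists_kcv : ∃ K : ℝ, 0 ≤ K ∧ ∀ (a d : Bool) {b R A : ℝ} {v : ℝ → ℝ}, 1 ≤ R → b ≤ R → 0 ≤ A →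
    (∀ t, b < |t| → v t = 0) → (∀ t, |v t| ≤ A) → ∀ t, |t| ≤ R →
    |NUKer.cv (kR a d) v t| ≤ K * R ^ 2 * A := by
  obtain ⟨K0, hK0, HK⟩ := exists_kR
  obtain ⟨c, hc0, Hw⟩ := exists_win
  refine ⟨K0 * c, mul_nonneg hK0 hc0, ?_⟩
  intro a d b R A v hR hbR hA h0 hv t ht
  have h1 := Hw R hR t (by linarith) (fun y => ((kR a d (t - y) * v y : ℝ) : ℂ))
    (K0 * A) 0 (by positivity)
    (fun y hy => by
      rw [h0 y (lt_of_le_of_lt hbR hy)]
      simp)
    (fun y hy hne => by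
      have h3 := HK a d (t - y) (sub_ne_zero.2 (Ne.symm hne))
      have g0 := gr_nonneg (abs_pos.2 (sub_ne_zero.2 (Ne.symm hne)))
      rw [Complex.norm_real, Real.norm_eq_abs, abs_mul, add_zero]
      calc |kR a d (t - y)| * |v y| ≤ (K0 * gr |t - y|) * A :=
            mul_le_mul h3 (hv y) (abs_nonneg _) (by positivity)
        _ = _ := by ring)
  rw [integral_complex_ofReal, Complex.norm_real, Real.norm_eq_abs] at h1
  refine h1.trans (le_of_eq ?_)
  ring

/-- a pair of bounded densities in the window -/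
lemma exists_pairE : ∃ K : ℝ, 0 ≤ K ∧ ∀ (a d : Bool) {b R A A' : ℝ} {u v : ℝ → ℝ}, 1 ≤ R → b ≤ R →
    0 ≤ A → 0 ≤ A' → (∀ t, b < |t| → u t = 0) → (∀ t, |u t| ≤ A) → (∀ t, b < |t| → v t = 0) →
    (∀ t, |v t| ≤ A') → |∫ t, u t * NUKer.cv (kR a d) v t| ≤ K * R ^ 3 * (A * A') := by
  obtain ⟨K, hK, H⟩ := exists_kcv
  refine ⟨2 * K, by positivity, ?_⟩
  intro a d b R A A' u v hR hbR hA hA' h0 hu h1 hv
  have hR0 : 0 ≤ R := by linarith
  have h2 := int_norm_bd (A := A * (K * R ^ 2 * A')) hR0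
    (β := fun t => ((u t * NUKer.cv (kR a d) v t : ℝ) : ℂ))
    (fun t ht => by
      rw [h0 t (lt_of_le_of_lt hbR ht)]
      simp)
    (fun t => by
      rcases le_or_gt |t| R with ht | ht
      · have h3 := H a d hR hbR hA' h1 hv t ht
        rw [Complex.norm_real, Real.norm_eq_abs, abs_mul]
        exact mul_le_mul (hu t) h3 (abs_nonneg _) hA
      · rw [h0 t (lt_of_le_of_lt hbR ht)]
        simp only [zero_mul, Complex.ofReal_zero, norm_zero]
        positivity)
  have h3 := norm_integral_le_integral_norm (fun t => ((u t * NUKer.cv (kR a d) v t : ℝ) : ℂ))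
    (μ := volume)
  rw [integral_complex_ofReal, Complex.norm_real, Real.norm_eq_abs] at h3
  refine h3.trans (h2.trans (le_of_eq ?_))
  ring

section

variable [Sea]

variable {ε M b : ℝ} {s : Bool → ℝ} {e : ℝ → ℝ} {η η1 : Bool → ℝ → ℝ}

/-- equal currents: `Ecur = ∬ h' V h'` -/
theorem Ecur_same {u : ℝ → ℝ} (hu : Continuous u) (h0 : ∀ t, b < |t| → u t = 0) :
    1 / 2 * ∑ a, ∑ d, ∫ t, u t * NUKer.cv (kR a d) u t = NUCR.bil u u := by
  have cs := hcs_of_zero h0
  have c1 := cv_cont NUR2.Uw_li hu cs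
  have c2 := cv_cont NUR2.Ug_li hu cs
  have i1 : Integrable fun t => u t * NUKer.cv NUR2.Uw u t :=
    (hu.mul c1).integrable_of_hasCompactSupport cs.mul_right
  have i2 : Integrable fun t => u t * NUKer.cv NUR2.Ug u t :=
    (hu.mul c2).integrable_of_hasCompactSupport cs.mul_right
  have e1 : kR true true = NUR2.Uw ∧ kR false false = NUR2.Uw ∧ kR true false = NUR2.Ug ∧
      kR false true = NUR2.Ug := by
    refine ⟨?_, ?_, ?_, ?_⟩ <;> funext u <;> simp [kR]
  simp only [Fintype.sum_bool]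
  rw [e1.1, e1.2.1, e1.2.2.1, e1.2.2.2]
  have e2 : NUCR.bil u u = (∫ t, u t * NUKer.cv NUR2.Uw u t) + ∫ t, u t * NUKer.cv NUR2.Ug u t := by
    unfold NUCR.bil
    rw [← integral_add i1 i2]
    refine integral_congr_ae (Eventually.of_forall fun t => ?_)
    simp only
    rw [← mul_add]
    congr 1
    have j1 := kcv_int true true hu h0 t
    have j2 := kcv_int true false hu h0 t
    rw [e1.1] at j1
    rw [e1.2.2.1] at j2
    unfold NUCR.cv NUKer.cv
    rw [← integral_add j1 j2]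
    refine integral_congr_ae ?_
    filter_upwards [ae_ne' t] with y hy
    rw [V_eq (sub_ne_zero.2 (Ne.symm hy))]
    unfold NUR2.Uw NUR2.Ug
    ring
  rw [e2]
  ring

/-- **the energy of almost equal currents** -/
theorem Ecur_bil : ∃ C : ℝ, 1 ≤ C ∧ ∀ {s : Bool → ℝ} {ε M b : ℝ} {e : ℝ → ℝ} {η η1 : Bool → ℝ → ℝ},
    (∀ a, 0 ≤ s a) → 0 ≤ b → ε ≤ 1 / 20 → (∀ a, Cur (s a) ε M b e (η a)) →
    (∀ a t, HasDerivAt (η a) (η1 a t) t) → Com M s e η η1 →
    |Ecur s η η1 - NUCR.bil (hd (s true) (η true) (η1 true)) (hd (s true) (η true) (η1 true))| ≤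
      C * (b + 1) ^ 3 * (M ^ 2 * ε) := by
  obtain ⟨K, hK, H⟩ := exists_pairE
  obtain ⟨C, hC, HB⟩ := exists_BB
  obtain ⟨C1, hC1, HC⟩ := exists_com
  obtain ⟨CP, hCP, HP⟩ := P_le
  refine ⟨1 + 4 * (K * (C1 * CP * C)), by
    have : 0 ≤ K * (C1 * CP * C) := by positivity
    linarith, ?_⟩
  intro s ε M b e η η1 hs hb hε hc hη hcom
  have hε0 := (hc true).ε0
  have hM := (hc true).M0 (hs true)
  have hMε : 0 ≤ M * ε := mul_nonneg hM hε0
  have B : ∀ a, BB (s a) (C * (M * ε)) (C * M) b (η a) (η1 a) := fun a => HB (hs a) hε (hc a) (hη a)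
  obtain ⟨h, hh⟩ : ∃ h : Bool → ℝ → ℝ, h = fun a => hd (s a) (η a) (η1 a) := ⟨_, rfl⟩
  have ch : ∀ a, Continuous (h a) := fun a => by rw [hh]; exact (B a).hc
  have sh : ∀ a t, b < |t| → h a t = 0 := fun a t ht => by rw [hh]; exact (B a).hsupp t ht
  have nh : ∀ a t, |h a t| ≤ C * M := fun a t => by rw [hh]; exact (B a).hle t
  have hP1 : ∀ t, P t ≤ CP := fun t => (HP t).trans (mul_le_of_le_one_right hCP.le (by
    rw [Real.exp_le_one_iff]
    have := abs_nonneg t
    linarith))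
  have nd : ∀ a t, |h a t - h true t| ≤ C1 * CP * (M * ε) := by
    intro a t
    rw [hh]
    refine (HC hcom a t).2.trans ?_
    have h1 : 0 ≤ e t := (hc true).oc.nonneg t
    have h2 : P t * e t ≤ CP * ε := mul_le_mul (hP1 t) ((hc true).le t) h1 hCP.le
    calc C1 * (M * (P t * e t)) ≤ C1 * (M * (CP * ε)) := by gcongr
      _ = _ := by ring
  have hR : (1:ℝ) ≤ b + 1 := by linarith
  have hbR : b ≤ b + 1 := by linarith
  have cs : ∀ a, HasCompactSupport (h a) := fun a => hcs_of_zero (sh a)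
  have ic : ∀ (a d x y : Bool), Integrable fun t => h x t * NUKer.cv (kR a d) (h y) t := fun a d x y =>
    ((ch x).mul (cv_cont (kR_li a d) (ch y) (cs y))).integrable_of_hasCompactSupport (cs x).mul_right
  have pair : ∀ a d : Bool, |(∫ t, h a t * NUKer.cv (kR a d) (h d) t) -
      ∫ t, h true t * NUKer.cv (kR a d) (h true) t| ≤
      2 * (K * (C1 * CP * C) * (b + 1) ^ 3 * (M ^ 2 * ε)) := by
    intro a d
    have e1 : (∫ t, h a t * NUKer.cv (kR a d) (h d) t) -
        (∫ t, h true t * NUKer.cv (kR a d) (h true) t) =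
        (∫ t, (h a t - h true t) * NUKer.cv (kR a d) (h d) t) +
        ∫ t, h true t * NUKer.cv (kR a d) (fun y => h d y - h true y) t := by
      have j1 : Integrable fun t => (h a t - h true t) * NUKer.cv (kR a d) (h d) t := by
        refine ((ic a d a d).sub (ic a d true d)).congr (Eventually.of_forall fun t => ?_)
        simp only [Pi.sub_apply]
        ring
      have j2 : Integrable fun t => h true t * NUKer.cv (kR a d) (fun y => h d y - h true y) t := by
        refine ((ic a d true d).sub (ic a d true true)).congr (Eventually.of_forall fun t => ?_)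
        simp only [Pi.sub_apply]
        rw [kcv_sub a d (ch d) (ch true) (sh d) (sh true)]
        ring
      rw [← integral_sub (ic a d a d) (ic a d true true), ← integral_add j1 j2]
      refine integral_congr_ae (Eventually.of_forall fun t => ?_)
      simp only
      rw [kcv_sub a d (ch d) (ch true) (sh d) (sh true)]
      ring
    rw [e1]
    have b1 := H a d hR hbR (A := C1 * CP * (M * ε)) (A' := C * M) (by positivity) (by positivity)
      (u := fun t => h a t - h true t) (v := h d)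
      (fun t ht => by simp only [sh a t ht, sh true t ht, sub_zero]) (nd a) (sh d) (nh d)
    have b2 := H a d hR hbR (A := C * M) (A' := C1 * CP * (M * ε)) (by positivity) (by positivity)
      (u := h true) (v := fun t => h d t - h true t) (sh true) (nh true)
      (fun t ht => by simp only [sh d t ht, sh true t ht, sub_zero]) (nd d)
    refine (abs_add_le _ _).trans ((add_le_add b1 b2).trans (le_of_eq ?_))
    ring
  have eE : Ecur s η η1 = 1 / 2 * ∑ a, ∑ d, ∫ t, h a t * NUKer.cv (kR a d) (h d) t := by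
    unfold Ecur
    rw [hh]
  have eb := Ecur_same (ch true) (sh true)
  have eh : hd (s true) (η true) (η1 true) = h true := by rw [hh]
  rw [eh, eE, ← eb, ← mul_sub, ← Finset.sum_sub_distrib]
  simp_rw [← Finset.sum_sub_distrib]
  rw [abs_mul, abs_of_pos (by norm_num : (0:ℝ) < 1 / 2)]
  have hS : |∑ a : Bool, ∑ d : Bool, ((∫ t, h a t * NUKer.cv (kR a d) (h d) t) -
      ∫ t, h true t * NUKer.cv (kR a d) (h true) t)| ≤
      ∑ a : Bool, ∑ d : Bool, 2 * (K * (C1 * CP * C) * (b + 1) ^ 3 * (M ^ 2 * ε)) :=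
    (Finset.abs_sum_le_sum_abs _ _).trans (Finset.sum_le_sum fun a _ =>
      (Finset.abs_sum_le_sum_abs _ _).trans (Finset.sum_le_sum fun d _ => pair a d))
  have h2 : ∑ a : Bool, ∑ d : Bool, 2 * (K * (C1 * CP * C) * (b + 1) ^ 3 * (M ^ 2 * ε)) =
      8 * (K * (C1 * CP * C) * (b + 1) ^ 3 * (M ^ 2 * ε)) := by
    simp only [Fintype.sum_bool]
    ring
  rw [h2] at hS
  have h3 : 0 ≤ (b + 1) ^ 3 * (M ^ 2 * ε) := by positivity
  calc 1 / 2 * |∑ a : Bool, ∑ d : Bool, ((∫ t, h a t * NUKer.cv (kR a d) (h d) t) -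
        ∫ t, h true t * NUKer.cv (kR a d) (h true) t)| ≤
        1 / 2 * (8 * (K * (C1 * CP * C) * (b + 1) ^ 3 * (M ^ 2 * ε))) := by gcongr
    _ = 4 * (K * (C1 * CP * C)) * ((b + 1) ^ 3 * (M ^ 2 * ε)) := by ring
    _ ≤ (1 + 4 * (K * (C1 * CP * C))) * ((b + 1) ^ 3 * (M ^ 2 * ε)) :=
        mul_le_mul_of_nonneg_right (by linarith) h3
    _ = _ := by ring

end

end

end NUSea.PLX.Ev
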