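import Pool.Agent.PLX.Ns
import Pool.Agent.PLX.NUSea.SEx

/-!
# The constant of the action of the transported two species gas, two numbers and two curves

Numbers `s a`, curves `ζ_a = t + i η_a`, `s a η_a` almost independent of `a` (`Com M s e η η1`).
Objects: `F_a = ∑ (if a = sp c then fq else fg) (j c) (z - τ c) + Ψ_a`.  Then

`S = ∑ clo s (sp c) (j c) (τ c) + ∫ P (s true Re Ψ_X + s false Re Ψ_Y) - 2 π ∑ wnu (j c) h (t0 c)
  + <h', V * h'> - ∑ Re ∫ B_a Ψ_a(ζ_a) + small`, `h = s true P η_X`.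
-/

set_option autoImplicit false
set_option linter.unusedSectionVars false

open MeasureTheory Set Filter Topology Complex

namespace NUSea.PLX.Ev

open NUMF (l l_pos V w g lq lqg)
open NUKer NUAct
open NUSea NUSea.PLX

noncomputable section

variable [Sea]

section

variable {s ε M b δ : ℝ} {e η η1 : ℝ → ℝ}

/-! ### the path -/

lemma le0 (h : Cur s ε M b e η) (t : ℝ) : |η t| ≤ e t := cur_abs h t

lemma le1 (h : Cur s ε M b e η) (h1 : ∀ t, HasDerivAt η (η1 t) t) (t : ℝ) : |η1 t| ≤ e t := by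
  have := (h.oc1 h1).le t
  rwa [iD, norm_mul, Complex.norm_I, mul_one, Complex.norm_real, Real.norm_eq_abs] at this

lemma out0 (h : Cur s ε M b e η) {t : ℝ} (ht : b < |t|) : η t = 0 := by
  have := le0 h t
  rw [h.supp t ht] at this
  exact abs_nonpos_iff.1 this

lemma odisp (h : Cur s ε M b e η) (h1 : ∀ t, HasDerivAt η (η1 t) t) : NUO.Disp ε η η1 where
  der := h1
  cont := by
    have h2 := (h.oc1 h1).cont
    have h3 : Continuous fun t => (iD η1 t).im := Complex.continuous_im.comp h2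
    refine h3.congr fun t => ?_
    simp [iD]
  supp := by
    refine HasCompactSupport.intro (K := Icc (-b) b) isCompact_Icc fun t ht => out0 h ?_
    rw [mem_Icc, ← abs_le, not_le] at ht
    exact ht
  le t := (le0 h t).trans (h.le t)
  dle t := (le1 h h1 t).trans (h.le t)

lemma cur_le (h : Cur s ε M b e η) (hs : 0 ≤ s) (t : ℝ) : |s * P t * η t| ≤ M := by
  have hp := (P_pos t).le
  rw [abs_mul, abs_of_nonneg (mul_nonneg hs hp)]
  exact (mul_le_mul_of_nonneg_left (le0 h t) (mul_nonneg hs hp)).trans (h.mass t)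

lemma zt_eq (η : ℝ → ℝ) (t : ℝ) : zt (iD η) t = NUO.zt η t := rfl

lemma Bf_Bd (s : ℝ) (η η1 : ℝ → ℝ) (t : ℝ) : Bf s (iD η) (iD η1) t = O.Bd s η η1 t := by
  unfold Bf O.Bd
  rw [zt_eq]
  unfold zd iD
  push_cast
  ring

/-- integrability on the path -/
lemma int_B {β : ℝ} {F : ℂ → ℂ} (hF : Ext β F) (hβ : β ≤ l / 7) (hs : 0 ≤ s) (hε : ε ≤ 1 / 20)
    (hεβ : ε ≤ β) (hc : Cur s ε M b e η) (hη : ∀ t, HasDerivAt η (η1 t) t) :
    Integrable fun t => Bf s (iD η) (iD η1) t * F (zt (iD η) t) := by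
  have Pw := path_of_cur_w hs hε hεβ hc hη
  obtain ⟨i1, _⟩ := cv_gen s hβ Pw hF
  refine (i1.sub (int_rFh s Pw hF)).congr (Eventually.of_forall fun t => ?_)
  simp only [Pi.sub_apply]
  unfold Bf
  ring

end

/-! ### the potentials of the objects -/

/-- potential of a constituent of species `x` on the species `a` -/
def gq (x : Bool) (j τ : ℝ) (a : Bool) (z : ℂ) : ℂ := (if a = x then NUO.fq j else NUO.fg j) (z - τ)

omit [Sea] in
lemma obj_gq {δ : ℝ} (hδ : 0 < δ) (hδ1 : δ ≤ 2 / 7) : ∃ A : ℝ, 0 ≤ A ∧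
    ∀ (x : Bool) (j τ : ℝ) (a : Bool), NUO.Off δ j → ∃ f1 f2 : ℂ → ℂ,
      Obj (δ * l / 2) A τ (gq x j τ a) f1 f2 := by
  obtain ⟨A, hA, H⟩ := obj_blk hδ hδ1
  refine ⟨A, hA, fun x j τ a hj => ?_⟩
  by_cases h : a = x
  · refine ⟨blk1 NUO.co j τ, blk2 NUO.co j τ, ?_⟩
    have e : gq x j τ a = blk NUO.co (-Real.log 2) j τ := by
      funext z
      unfold gq
      rw [if_pos h, fq_blk]
    rw [e]
    exact H _ _ _ _ co_le hj
  · refine ⟨blk1 NUO.cx j τ, blk2 NUO.cx j τ, ?_⟩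
    have e : gq x j τ a = blk NUO.cx (Real.log 2) j τ := by
      funext z
      unfold gq
      rw [if_neg h, fg_blk]
    rw [e]
    exact H _ _ _ _ cx_le hj

omit [Sea] in
lemma gq_re {δ j : ℝ} (hδ : 0 < δ) (hj : NUO.Off δ j) (x a : Bool) (τ t : ℝ) :
    (gq x j τ a (t : ℂ)).re = if a = x then lq j (τ - t) else lqg j (τ - t) := by
  have hl := l_pos
  have e0 : ((t : ℂ) - τ).im = 0 := by simp
  have e1 : ((t : ℂ) - τ).re = t - τ := by simp
  have hz : |((t : ℂ) - τ).im| < δ * l := by rw [e0, abs_zero]; positivity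
  unfold gq
  by_cases h : a = x
  · rw [if_pos h, if_pos h, NUO.fq_re hj hz, e0, e1, zero_div, sub_zero, ← neg_sub τ t, NUO.lq_neg]
  · rw [if_neg h, if_neg h, NUO.fg_re hj hz, e0, e1, zero_div, sub_zero, ← neg_sub τ t, NUO.lqg_neg]

/-- the cloud of a constituent -/
lemma gq_line {δ j : ℝ} (hδ : 0 < δ) (hj : NUO.Off δ j) (x a : Bool) (τ s : ℝ)
    (hi : Integrable fun t : ℝ => ((s * P t : ℝ) : ℂ) * gq x j τ a t) :
    (∫ t : ℝ, ((s * P t : ℝ) : ℂ) * gq x j τ a t).re =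
      s * if a = x then O.cloP j τ else O.cloC j τ := by
  have e1 : (∫ t : ℝ, ((s * P t : ℝ) : ℂ) * gq x j τ a t).re =
      ∫ t : ℝ, (((s * P t : ℝ) : ℂ) * gq x j τ a t).re :=
    (Complex.reCLM.integral_comp_comm hi).symm
  rw [e1]
  simp_rw [Complex.re_ofReal_mul, gq_re hδ hj]
  by_cases h : a = x
  · simp only [if_pos h]
    unfold O.cloP
    rw [← integral_const_mul]
    exact integral_congr_ae (Eventually.of_forall fun t => by simp only; ring)
  · simp only [if_neg h]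
    unfold O.cloC
    rw [← integral_const_mul]
    exact integral_congr_ae (Eventually.of_forall fun t => by simp only; ring)

lemma clo_sum (s : Bool → ℝ) (x : Bool) (j τ : ℝ) :
    (∑ a, s a * if a = x then O.cloP j τ else O.cloC j τ) = O.clo s x j τ := by
  unfold O.clo
  cases x <;> simp [Fintype.sum_bool] <;> ring

section

variable {ι : Type} [Fintype ι] {sp : ι → Bool} {j τ : ι → ℝ} {Fe Ψ : Bool → ℂ → ℂ} {δ : ℝ}
  {s : Bool → ℝ}

lemma sum_gq (hsum : ∀ (a : Bool) (z : ℂ), |z.im| ≤ δ * l / 2 → Fe a z =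
      ∑ c, (if a = sp c then NUO.fq (j c) else NUO.fg (j c)) (z - τ c) + Ψ a z) (a : Bool) {z : ℂ}
    (hz : |z.im| ≤ δ * l / 2) : Fe a z = ∑ c, gq (sp c) (j c) (τ c) a z + Ψ a z := hsum a z hz

/-- **the potentials on the line** -/
theorem part_line (hδ : 0 < δ) (hδ1 : δ ≤ 2 / 7) (hj : ∀ c, NUO.Off δ (j c))
    (hF : ∀ a, Ext (δ * l / 2) (Fe a))
    (hsum : ∀ (a : Bool) (z : ℂ), |z.im| ≤ δ * l / 2 → Fe a z =
      ∑ c, (if a = sp c then NUO.fq (j c) else NUO.fg (j c)) (z - τ c) + Ψ a z) :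
    (∑ a, ∫ t : ℝ, ((s a * P t : ℝ) : ℂ) * Fe a t).re =
      (∑ c, O.clo s (sp c) (j c) (τ c)) +
        ∫ t : ℝ, P t * (s true * (Ψ true t).re + s false * (Ψ false t).re) := by
  have hl := l_pos
  have hβ0 : 0 ≤ δ * l / 2 := by positivity
  obtain ⟨A, hA, HO⟩ := obj_gq hδ hδ1
  have him : ∀ t : ℝ, |(t : ℂ).im| ≤ δ * l / 2 := fun t => by
    rw [Complex.ofReal_im, abs_zero]
    exact hβ0
  have i1 : ∀ a, Integrable fun t : ℝ => ((s a * P t : ℝ) : ℂ) * Fe a t := fun a =>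
    int_rF (s a) hβ0 (hF a)
  have i2 : ∀ a c, Integrable fun t : ℝ => ((s a * P t : ℝ) : ℂ) * gq (sp c) (j c) (τ c) a t := by
    intro a c
    obtain ⟨f1, f2, h⟩ := HO (sp c) (j c) (τ c) a (hj c)
    exact int_rF (s a) hβ0 (h.ext hβ0)
  have i3 : ∀ a, Integrable fun t : ℝ => ∑ c, ((s a * P t : ℝ) : ℂ) * gq (sp c) (j c) (τ c) a t :=
    fun a => integrable_finsetSum _ fun c _ => i2 a c
  have e1 : ∀ a (t : ℝ), ((s a * P t : ℝ) : ℂ) * Fe a t =
      (∑ c, ((s a * P t : ℝ) : ℂ) * gq (sp c) (j c) (τ c) a t) + ((s a * P t : ℝ) : ℂ) * Ψ a t := by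
    intro a t
    rw [sum_gq hsum a (him t), mul_add, Finset.mul_sum]
  have i4 : ∀ a, Integrable fun t : ℝ => ((s a * P t : ℝ) : ℂ) * Ψ a t := by
    intro a
    refine ((i1 a).sub (i3 a)).congr (Eventually.of_forall fun t => ?_)
    simp only [Pi.sub_apply]
    rw [e1]
    ring
  have e2 : ∀ a, (∫ t : ℝ, ((s a * P t : ℝ) : ℂ) * Fe a t).re =
      (∑ c, s a * if a = sp c then O.cloP (j c) (τ c) else O.cloC (j c) (τ c)) +
        ∫ t : ℝ, s a * P t * (Ψ a t).re := by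
    intro a
    have h1 : (∫ t : ℝ, ((s a * P t : ℝ) : ℂ) * Fe a t) =
        (∑ c, ∫ t : ℝ, ((s a * P t : ℝ) : ℂ) * gq (sp c) (j c) (τ c) a t) +
          ∫ t : ℝ, ((s a * P t : ℝ) : ℂ) * Ψ a t := by
      rw [← integral_finsetSum _ fun c _ => i2 a c, ← integral_add (i3 a) (i4 a)]
      exact integral_congr_ae (Eventually.of_forall (e1 a))
    rw [h1, Complex.add_re, Complex.re_sum]
    congr 1
    · exact Finset.sum_congr rfl fun c _ => gq_line hδ (hj c) (sp c) a (τ c) (s a) (i2 a c)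
    · have h2 : (∫ t : ℝ, ((s a * P t : ℝ) : ℂ) * Ψ a t).re =
          ∫ t : ℝ, (((s a * P t : ℝ) : ℂ) * Ψ a t).re :=
        (Complex.reCLM.integral_comp_comm (i4 a)).symm
      rw [h2]
      simp_rw [Complex.re_ofReal_mul]
  have i5 : ∀ a, Integrable fun t : ℝ => s a * P t * (Ψ a t).re := by
    intro a
    refine (i4 a).re.congr (Eventually.of_forall fun t => ?_)
    simp only [RCLike.re_to_complex, Complex.re_ofReal_mul]
  have e3 : (∫ t : ℝ, P t * (s true * (Ψ true t).re + s false * (Ψ false t).re)) =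
      ∑ a, ∫ t : ℝ, s a * P t * (Ψ a t).re := by
    rw [Fintype.sum_bool, ← integral_add (i5 true) (i5 false)]
    exact integral_congr_ae (Eventually.of_forall fun t => by simp only; ring)
  rw [Complex.re_sum]
  simp_rw [e2]
  rw [Finset.sum_add_distrib, Finset.sum_comm, e3]
  congr 1
  exact Finset.sum_congr rfl fun c _ => clo_sum s (sp c) (j c) (τ c)

/-- **the potentials on the paths** -/
theorem part_path {ε M b : ℝ} {e : ℝ → ℝ} {η η1 : Bool → ℝ → ℝ} (hδ : 0 < δ) (hδ1 : δ ≤ 2 / 7)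
    (hj : ∀ c, NUO.Off δ (j c)) (hs : ∀ a, 0 ≤ s a) (hε : ε ≤ 1 / 20) (hεβ : ε ≤ δ * l / 2)
    (hc : ∀ a, Cur (s a) ε M b e (η a)) (hη : ∀ a t, HasDerivAt (η a) (η1 a t) t)
    (hF : ∀ a, Ext (δ * l / 2) (Fe a))
    (hsum : ∀ (a : Bool) (z : ℂ), |z.im| ≤ δ * l / 2 → Fe a z =
      ∑ c, (if a = sp c then NUO.fq (j c) else NUO.fg (j c)) (z - τ c) + Ψ a z) :
    (∑ a, ∫ t, Bf (s a) (iD (η a)) (iD (η1 a)) t * Fe a (zt (iD (η a)) t)).re =
      (∑ c, ∑ a, (∫ t, Bf (s a) (iD (η a)) (iD (η1 a)) t *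
        gq (sp c) (j c) (τ c) a (zt (iD (η a)) t)).re) +
      ∑ a, (∫ t, Bf (s a) (iD (η a)) (iD (η1 a)) t * Ψ a (zt (iD (η a)) t)).re := by
  have hl := l_pos
  have hβ0 : 0 ≤ δ * l / 2 := by positivity
  have hβ : δ * l / 2 ≤ l / 7 := by nlinarith
  obtain ⟨A, hA, HO⟩ := obj_gq hδ hδ1
  have him : ∀ a (t : ℝ), |(zt (iD (η a)) t).im| ≤ δ * l / 2 := fun a =>
    (path_of_cur_w (hs a) hε hεβ (hc a) (hη a)).im_le
  have i1 : ∀ a, Integrable fun t : ℝ => Bf (s a) (iD (η a)) (iD (η1 a)) t *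
      Fe a (zt (iD (η a)) t) := fun a => int_B (hF a) hβ (hs a) hε hεβ (hc a) (hη a)
  have i2 : ∀ a c, Integrable fun t : ℝ => Bf (s a) (iD (η a)) (iD (η1 a)) t *
      gq (sp c) (j c) (τ c) a (zt (iD (η a)) t) := by
    intro a c
    obtain ⟨f1, f2, h⟩ := HO (sp c) (j c) (τ c) a (hj c)
    exact int_B (h.ext hβ0) hβ (hs a) hε hεβ (hc a) (hη a)
  have i3 : ∀ a, Integrable fun t : ℝ => ∑ c, Bf (s a) (iD (η a)) (iD (η1 a)) t *
      gq (sp c) (j c) (τ c) a (zt (iD (η a)) t) :=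
    fun a => integrable_finsetSum _ fun c _ => i2 a c
  have e1 : ∀ a (t : ℝ), Bf (s a) (iD (η a)) (iD (η1 a)) t * Fe a (zt (iD (η a)) t) =
      (∑ c, Bf (s a) (iD (η a)) (iD (η1 a)) t * gq (sp c) (j c) (τ c) a (zt (iD (η a)) t)) +
        Bf (s a) (iD (η a)) (iD (η1 a)) t * Ψ a (zt (iD (η a)) t) := by
    intro a t
    rw [sum_gq hsum a (him a t), mul_add, Finset.mul_sum]
  have i4 : ∀ a, Integrable fun t : ℝ => Bf (s a) (iD (η a)) (iD (η1 a)) t *
      Ψ a (zt (iD (η a)) t) := by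
    intro a
    refine ((i1 a).sub (i3 a)).congr (Eventually.of_forall fun t => ?_)
    simp only [Pi.sub_apply]
    rw [e1]
    ring
  have e2 : ∀ a, (∫ t, Bf (s a) (iD (η a)) (iD (η1 a)) t * Fe a (zt (iD (η a)) t)).re =
      (∑ c, (∫ t, Bf (s a) (iD (η a)) (iD (η1 a)) t *
        gq (sp c) (j c) (τ c) a (zt (iD (η a)) t)).re) +
      (∫ t, Bf (s a) (iD (η a)) (iD (η1 a)) t * Ψ a (zt (iD (η a)) t)).re := by
    intro a
    have h1 : (∫ t, Bf (s a) (iD (η a)) (iD (η1 a)) t * Fe a (zt (iD (η a)) t)) =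
        (∑ c, ∫ t, Bf (s a) (iD (η a)) (iD (η1 a)) t *
          gq (sp c) (j c) (τ c) a (zt (iD (η a)) t)) +
          ∫ t, Bf (s a) (iD (η a)) (iD (η1 a)) t * Ψ a (zt (iD (η a)) t) := by
      rw [← integral_finsetSum _ fun c _ => i2 a c, ← integral_add (i3 a) (i4 a)]
      exact integral_congr_ae (Eventually.of_forall (e1 a))
    rw [h1, Complex.add_re, Complex.re_sum]
  rw [Complex.re_sum]
  simp_rw [e2]
  rw [Finset.sum_add_distrib, Finset.sum_comm]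

end

/-- **one constituent on the two paths** -/
theorem exists_one {δ : ℝ} (hδ : 0 < δ) (hδ1 : δ ≤ 2 / 7) : ∃ C : ℝ, 0 ≤ C ∧
    ∀ {s : Bool → ℝ} {ε M b K R : ℝ} {e : ℝ → ℝ} {η η1 : Bool → ℝ → ℝ} (x : Bool) (j τ t0 : ℝ),
      (∀ a, 0 ≤ s a) → ε ≤ 1 / 20 → ε ≤ δ * l / 2 → (∀ a, Cur (s a) ε M b e (η a)) →
      (∀ a t, HasDerivAt (η a) (η1 a t) t) → Com M s e η η1 → 0 ≤ K →
      (∀ t t', |s true * P t * η true t - s true * P t' * η true t'| ≤ K * |t - t'|) →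
      NUO.Off δ j → |τ - t0| ≤ R →
      |-(∑ a, (∫ t, Bf (s a) (iD (η a)) (iD (η1 a)) t * gq x j τ a (zt (iD (η a)) t)).re) +
        2 * Real.pi * (NUO.wnu j * (s true * P t0 * η true t0))| ≤
        C * (1 + |NUO.wnu j|) * (M * ε + K * (1 + R)) := by
  have hl := l_pos
  obtain ⟨A, hA, HO⟩ := obj_gq hδ hδ1
  obtain ⟨C2, hC2, H2⟩ := O.wind_obj hδ (by linarith)
  have hm := m2_nonneg
  refine ⟨(1 + 2 * m2) * A + C2, by positivity, ?_⟩
  intro s ε M b K R e η η1 x j τ t0 hs hε hεβ hc hη hcom hK hKL hj hR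
  have hβ0 : 0 ≤ δ * l / 2 := by positivity
  have hβ : δ * l / 2 ≤ l / 7 := by nlinarith
  have hε0 := (hc true).ε0
  have hM := (hc true).M0 (hs true)
  have hR0 : 0 ≤ R := (abs_nonneg _).trans hR
  have D := odisp (hc true) (hη true)
  obtain ⟨X, hX⟩ : ∃ X : Bool → Bool → ℝ, X = fun a d =>
    (∫ t, Bf (s a) (iD (η a)) (iD (η1 a)) t * gq x j τ d (zt (iD (η a)) t)).re := ⟨_, rfl⟩
  have hex : ∀ d, |X false d - X true d| ≤ (1 + 2 * m2) * A * (M * ε) := by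
    intro d
    obtain ⟨f1, f2, h⟩ := HO x j τ d hj
    rw [hX]
    exact exch h hβ0 hβ hs hε hεβ hc hη hcom
  have h3 := H2 (s true) M K ε t0 R (η true) (η1 true) Unit (fun _ => j) (fun _ => τ) (fun _ => hj) D
    hεβ (cur_le (hc true) (hs true)) hK hKL (fun _ => hR)
  simp only [Finset.univ_unique, Finset.sum_singleton] at h3
  have i : ∀ d, Integrable fun t : ℝ => Bf (s true) (iD (η true)) (iD (η1 true)) t *
      gq x j τ d (zt (iD (η true)) t) := by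
    intro d
    obtain ⟨f1, f2, h⟩ := HO x j τ d hj
    exact int_B (h.ext hβ0) hβ (hs true) hε hεβ (hc true) (hη true)
  have e1 : (∫ t, O.Bd (s true) (η true) (η1 true) t * (NUO.fq j (NUO.zt (η true) t - τ) +
      NUO.fg j (NUO.zt (η true) t - τ))).re = X true true + X true false := by
    rw [hX]
    simp only
    rw [← Complex.add_re, ← integral_add (i true) (i false)]
    congr 1
    refine integral_congr_ae (Eventually.of_forall fun t => ?_)
    simp only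
    rw [Bf_Bd, zt_eq]
    unfold gq
    cases x
    · rw [if_neg (by decide), if_pos rfl]
      ring
    · rw [if_pos rfl, if_neg (by decide)]
      ring
  rw [e1, mul_assoc (2 * Real.pi)] at h3
  have e2 : (∑ a, (∫ t, Bf (s a) (iD (η a)) (iD (η1 a)) t * gq x j τ a (zt (iD (η a)) t)).re) =
      X true true + X false false := by
    rw [Fintype.sum_bool, hX]
  rw [e2]
  have h4 := hex false
  have n0 := abs_nonneg (NUO.wnu j)
  have p0 : 0 ≤ K * (1 + R) := by positivity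
  have p1 : 0 ≤ M * ε := mul_nonneg hM hε0
  have h5 : (1 + 2 * m2) * A * (M * ε) ≤
      (1 + 2 * m2) * A * (1 + |NUO.wnu j|) * (M * ε + K * (1 + R)) := by
    calc (1 + 2 * m2) * A * (M * ε) = (1 + 2 * m2) * A * 1 * (M * ε + 0) := by ring
      _ ≤ _ := by gcongr; linarith
  have e3 : ((1 + 2 * m2) * A + C2) * (1 + |NUO.wnu j|) * (M * ε + K * (1 + R)) =
      (1 + 2 * m2) * A * (1 + |NUO.wnu j|) * (M * ε + K * (1 + R)) +
      C2 * (1 + |NUO.wnu j|) * (M * ε + K * (1 + R)) := by ring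
  rw [e3]
  rw [abs_le] at h3 h4 ⊢
  constructor <;> linarith [h3.1, h3.2, h4.1, h4.2]

/-- **the constant of the action** -/
theorem main {δ : ℝ} (hδ : 0 < δ) (hδ1 : δ ≤ 2 / 7) : ∃ C : ℝ, 1 ≤ C ∧
    ∀ (s : Bool → ℝ) (ε M b K R : ℝ) (e : ℝ → ℝ) (η η1 : Bool → ℝ → ℝ) (Fe Ψ : Bool → ℂ → ℂ)
      (ι : Type) [Fintype ι] (sp : ι → Bool) (j τ t0 : ι → ℝ), (∀ a, 0 ≤ s a) →
      (∀ a, Cur (s a) ε M b e (η a)) → (∀ a t, HasDerivAt (η a) (η1 a t) t) → Com M s e η η1 →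
      0 ≤ b → C * (b + 1) ^ 7 * ε ≤ 1 → 0 ≤ K →
      (∀ t t', |s true * P t * η true t - s true * P t' * η true t'| ≤ K * |t - t'|) →
      (∀ a, Ext (δ * l / 2) (Fe a)) → (∀ c, NUO.Off δ (j c)) → (∀ c, |τ c - t0 c| ≤ R) →
      (∀ (a : Bool) (z : ℂ), |z.im| ≤ δ * l / 2 → Fe a z =
        ∑ c, (if a = sp c then NUO.fq (j c) else NUO.fg (j c)) (z - τ c) + Ψ a z) →
      |(gas s η η1 Fe).S - ((∑ c, O.clo s (sp c) (j c) (τ c)) +
        (∫ t : ℝ, P t * (s true * (Ψ true t).re + s false * (Ψ false t).re)) -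
        2 * Real.pi * (∑ c, NUO.wnu (j c) * (s true * P (t0 c) * η true (t0 c))) +
        NUCR.bil (hd (s true) (η true) (η1 true)) (hd (s true) (η true) (η1 true)) -
        ∑ a, (∫ t, Bf (s a) (iD (η a)) (iD (η1 a)) t * Ψ a (zt (iD (η a)) t)).re)| ≤
        C * (∑ c, (1 + |NUO.wnu (j c)|)) * (M * ε + K * (1 + R)) + C * (b + 1) ^ 9 * M ^ 2 * ε := by
  have hl := l_pos
  obtain ⟨C1, hC1, H1⟩ := exists_S'
  obtain ⟨CE, hCE, HE⟩ := Ecur_bil
  obtain ⟨C2, hC2, H2⟩ := exists_one hδ hδ1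
  have hdl : 0 < δ * l / 2 := by positivity
  refine ⟨20 + C1 + CE + C2 + 1 / (δ * l / 2), by
    have : 0 < 1 / (δ * l / 2) := by positivity
    linarith, ?_⟩
  intro s ε M b K R e η η1 Fe Ψ ι _ sp j τ t0 hs hc hη hcom hb hsm hK hKL hF hj hR hsum
  have hε0 := (hc true).ε0
  have hM0 := (hc true).M0 (hs true)
  have hR7 : 1 ≤ (b + 1) ^ 7 := one_le_pow₀ (by linarith)
  obtain ⟨X, hX⟩ : ∃ X : ℝ, X = (b + 1) ^ 7 * ε := ⟨_, rfl⟩
  have hX0 : 0 ≤ X := by rw [hX]; positivity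
  have hεX : ε ≤ X := by rw [hX]; exact le_mul_of_one_le_left hε0 hR7
  have hi : 0 < 1 / (δ * l / 2) := by positivity
  have hsm' : (20 + C1 + CE + C2 + 1 / (δ * l / 2)) * X ≤ 1 := by
    rw [hX]
    refine le_trans (le_of_eq ?_) hsm
    ring
  have q1 : 0 ≤ C1 * X := by positivity
  have q2 : 0 ≤ C2 * X := by positivity
  have q3 : 0 ≤ 1 / (δ * l / 2) * X := by positivity
  have q4 : 0 ≤ CE * X := by positivity
  have hε20 : ε ≤ 1 / 20 := by linarith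
  have hεδ : ε ≤ δ * l / 2 := by
    have : 1 / (δ * l / 2) * X ≤ 1 := by linarith
    rw [one_div, inv_mul_le_iff₀ hdl, mul_one] at this
    linarith
  have s1 : C1 * (b + 1) ^ 7 * ε ≤ 1 := by
    have e1 : C1 * (b + 1) ^ 7 * ε = C1 * X := by rw [hX]; ring
    rw [e1]
    linarith
  have a1 := H1 (b + 1) (by linarith) (by linarith) hs hc hη s1 Fe
  have a2 := HE hs hb hε20 hc hη hcom
  rw [Complex.sub_re, part_line hδ hδ1 hj hF hsum, part_path hδ hδ1 hj hs hε20 hεδ hc hη hF hsum] at a1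
  have hsumc : |∑ c, (-(∑ a, (∫ t, Bf (s a) (iD (η a)) (iD (η1 a)) t *
        gq (sp c) (j c) (τ c) a (zt (iD (η a)) t)).re) +
      2 * Real.pi * (NUO.wnu (j c) * (s true * P (t0 c) * η true (t0 c))))| ≤
      C2 * (∑ c, (1 + |NUO.wnu (j c)|)) * (M * ε + K * (1 + R)) := by
    refine (Finset.abs_sum_le_sum_abs _ _).trans
      ((Finset.sum_le_sum fun c _ => H2 (sp c) (j c) (τ c) (t0 c) hs hε20 hεδ hc hη hcom hK hKL
        (hj c) (hR c)).trans (le_of_eq ?_))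
    rw [← Finset.sum_mul, ← Finset.mul_sum]
  rw [Finset.sum_add_distrib, Finset.sum_neg_distrib, ← Finset.mul_sum] at hsumc
  obtain ⟨N, hN⟩ : ∃ N : ℝ, N = ∑ c, (1 + |NUO.wnu (j c)|) := ⟨_, rfl⟩
  rw [← hN] at hsumc ⊢
  have hN0 : 0 ≤ N := by rw [hN]; exact Finset.sum_nonneg fun c _ => by positivity
  have hG : 0 ≤ N * (M * ε + K * (1 + R)) := by
    rcases isEmpty_or_nonempty ι with hE | ⟨⟨c⟩⟩
    · have : N = 0 := by rw [hN, Finset.univ_eq_empty, Finset.sum_empty]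
      rw [this, zero_mul]
    · have hR0 : 0 ≤ R := (abs_nonneg _).trans (hR c)
      positivity
  have g1 : C2 * N * (M * ε + K * (1 + R)) ≤
      (20 + C1 + CE + C2 + 1 / (δ * l / 2)) * N * (M * ε + K * (1 + R)) := by
    rw [mul_assoc, mul_assoc]
    exact mul_le_mul_of_nonneg_right (by linarith) hG
  have g2 : C1 * (b + 1) ^ 9 * (M ^ 2 * ε) + CE * (b + 1) ^ 3 * (M ^ 2 * ε) ≤
      (20 + C1 + CE + C2 + 1 / (δ * l / 2)) * (b + 1) ^ 9 * M ^ 2 * ε := by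
    have h9 : 0 ≤ (b + 1) ^ 9 * (M ^ 2 * ε) := by positivity
    have h39 : (b + 1) ^ 3 ≤ (b + 1) ^ 9 := pow_le_pow_right₀ (by linarith) (by norm_num)
    have hMM : 0 ≤ M ^ 2 * ε := by positivity
    calc C1 * (b + 1) ^ 9 * (M ^ 2 * ε) + CE * (b + 1) ^ 3 * (M ^ 2 * ε) ≤
          C1 * (b + 1) ^ 9 * (M ^ 2 * ε) + CE * (b + 1) ^ 9 * (M ^ 2 * ε) := by gcongr
      _ = (C1 + CE) * ((b + 1) ^ 9 * (M ^ 2 * ε)) := by ring
      _ ≤ (20 + C1 + CE + C2 + 1 / (δ * l / 2)) * ((b + 1) ^ 9 * (M ^ 2 * ε)) :=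
          mul_le_mul_of_nonneg_right (by linarith) h9
      _ = _ := by ring
  rw [abs_le] at hsumc a1 a2 ⊢
  constructor <;> linarith [hsumc.1, hsumc.2, a1.1, a1.2, a2.1, a2.2]

end

end NUSea.PLX.Ev
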