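import Pool.Agent.PLX.Ns
import Pool.Agent.PLX.NUSea.Sfin
import Pool.Agent.PLX.Ux2
import Pool.Agent.NUAct.PhiQ2

/-!
# The cross potential of two displaced seas with almost the same current

`DJ s b η z = ∫ (Ux (z - y) - Ux (z - y - i η y)) s P(y) dy` is the potential of the transported density
(`J_eq`).  If `|s' η' - s η| ≤ κ`, the real part of `DJ s' η' - DJ s η` near the line and its derivative
are at most `K (M ε + κ) Wb b (Re z)` (`DJ_diff`): the first order is almost imaginary on the line and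
the second derivative of `Ux` decays.
-/

set_option autoImplicit false
set_option linter.unusedSectionVars false

open MeasureTheory Set Filter Topology Complex

namespace NUSea.PLX

open NUMF (l l_pos w g V)
open NUAct NUKer

noncomputable section

variable [Sea]

/-- potential of the displacement -/
def DJ (s b : ℝ) (η : ℝ → ℝ) (z : ℂ) : ℂ :=
  ∫ y in Icc (-b) b, ((s * P y : ℝ) : ℂ) * (Ux (z - y) - Ux (z - zt (iD η) y))

/-- its derivative -/
def DJ1 (s b : ℝ) (η : ℝ → ℝ) (z : ℂ) : ℂ :=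
  ∫ y in Icc (-b) b, ((s * P y : ℝ) : ℂ) * (Uxd (z - y) - Uxd (z - zt (iD η) y))

lemma zt_im (η : ℝ → ℝ) (y : ℝ) : (zt (iD η) y).im = η y := by simp [zt, iD]

lemma zt_re (η : ℝ → ℝ) (y : ℝ) : (zt (iD η) y).re = y := by simp [zt, iD]

lemma zt_zero {η : ℝ → ℝ} {y : ℝ} (h : η y = 0) : zt (iD η) y = y := by
  unfold zt iD
  rw [h]
  simp

lemma idPath {b : ℝ} (hb : 0 ≤ b) : Path b (1 / 2) 2 (fun t : ℝ => (t : ℂ)) (fun _ => 1) where
  der t := Complex.ofRealCLM.hasDerivAt
  cont := continuous_const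
  im_le t := by simpa using hb
  dle t := by rw [norm_one]; norm_num
  c_pos := by norm_num
  c_le := by norm_num
  mono s t h := by
    rw [← Complex.ofReal_sub, Complex.ofReal_re]
    linarith
  near t := by simp

lemma Ux_cont' {z : ℂ} {ζ : ℝ → ℂ} (hζ : Continuous ζ) (h : ∀ y, |(z - ζ y).im| < l) :
    Continuous fun y => Ux (z - ζ y) := by
  have hc : ContinuousOn Ux {w : ℂ | |w.im| < l} := fun w hw =>
    (hasDerivAt_Ux hw).continuousAt.continuousWithinAt
  exact hc.comp_continuous (continuous_const.sub hζ) h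

lemma Uxd_cont' {z : ℂ} {ζ : ℝ → ℂ} (hζ : Continuous ζ) (h : ∀ y, |(z - ζ y).im| < l) :
    Continuous fun y => Uxd (z - ζ y) := by
  have hc : ContinuousOn Uxd {w : ℂ | |w.im| < l} := fun w hw =>
    (hasDerivAt_Uxd hw).continuousAt.continuousWithinAt
  exact hc.comp_continuous (continuous_const.sub hζ) h

lemma Ux_int (s : ℝ) {z : ℂ} {ζ : ℝ → ℂ} (hζ : Continuous ζ) (h : ∀ y, |(z - ζ y).im| ≤ l / 2)
    (hre : ∀ y, (ζ y).re = y) :
    Integrable fun y => ((s * P y : ℝ) : ℂ) * Ux (z - ζ y) := by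
  have hl := l_pos
  obtain ⟨K, hK0, hK⟩ := Ux_gr
  obtain ⟨C, hC0, hC⟩ := rho_bd s
  refine int_dens (A := K * (2 + |z.re|)) (rho_cont s)
    (Ux_cont' hζ fun y => lt_of_le_of_lt (h y) (by linarith)) hC fun y => ?_
  refine (hK _ (h y)).trans ?_
  have h1 : |(z - ζ y).re| ≤ |z.re| + |y| := by
    rw [Complex.sub_re, hre]
    exact abs_sub _ _
  have h2 : 1 + |y| ≤ Real.exp |y| := by
    have := Real.add_one_le_exp |y|
    linarith
  have h3 : 1 ≤ Real.exp |y| := Real.one_le_exp (abs_nonneg _)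
  have h4 : 0 ≤ |z.re| := abs_nonneg _
  rw [mul_assoc]
  refine mul_le_mul_of_nonneg_left ?_ hK0
  nlinarith

/-- **the cross potential of the transported density** -/
theorem J_eq {s ε M b : ℝ} {e η η1 : ℝ → ℝ} (hs : 0 ≤ s) (hε : ε ≤ 1 / 20)
    (hc : Cur s ε M b e η) (hη : ∀ t, HasDerivAt η (η1 t) t) {z : ℂ} (hz : |z.im| ≤ l / 7) :
    ∫ y, Ux (z - zt (iD η) y) * Bf s (iD η) (iD η1) y = DJ s b η z := by
  have hl := l_pos
  have P' := path_of_cur hs hε hc hη
  have hle : ∀ y, |η y| ≤ l / 7 := fun y => by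
    have := P'.im_le y
    rwa [zt_im] at this
  have hout : ∀ y, b < |y| → η y = 0 := by
    intro y hy
    have h1 := hc.oc.le y
    rw [hc.supp y hy] at h1
    have h2 := norm_le_zero_iff.1 h1
    unfold iD at h2
    simpa using h2
  have him : ∀ y, |(z - zt (iD η) y).im| ≤ l / 2 := fun y => by
    rw [Complex.sub_im, zt_im]
    exact (abs_sub _ _).trans (by linarith [hle y])
  have him0 : ∀ y : ℝ, |(z - (y : ℂ)).im| ≤ l / 2 := fun y => by
    rw [Complex.sub_im, Complex.ofReal_im, sub_zero]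
    linarith
  obtain ⟨i1, e1⟩ := fe_x le_rfl P' hz
  obtain ⟨i2, e2⟩ := fe_x (b := l / 7) le_rfl (idPath (by positivity)) hz
  have i3 := Ux_int s (z := z) P'.continuous him (fun y => zt_re η y)
  have i4 := Ux_int s (z := z) Complex.continuous_ofReal him0 (fun y => Complex.ofReal_re y)
  have a1 : ∫ y, Ux (z - zt (iD η) y) * Bf s (iD η) (iD η1) y =
      s * (∫ y, Ux (z - zt (iD η) y) * (Pc (zt (iD η) y) * zd (iD η1) y)) -
        ∫ y, ((s * P y : ℝ) : ℂ) * Ux (z - zt (iD η) y) := by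
    rw [← integral_const_mul, ← integral_sub (i1.const_mul _) i3]
    refine integral_congr_ae (Eventually.of_forall fun y => ?_)
    simp only
    unfold Bf
    ring
  have a2 : ∫ y : ℝ, ((s * P y : ℝ) : ℂ) * Ux (z - y) = s * vx z := by
    rw [← e2, ← integral_const_mul]
    refine integral_congr_ae (Eventually.of_forall fun y => ?_)
    simp only
    rw [Pc_ofReal]
    push_cast
    ring
  rw [a1, e1, ← a2, ← integral_sub i4 i3]
  unfold DJ
  rw [← setIntegral_eq_integral_of_forall_compl_eq_zero (s := Icc (-b) b)]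
  · refine integral_congr_ae (Eventually.of_forall fun y => ?_)
    simp only
    ring
  · intro y hy
    have h1 : b < |y| := by
      by_contra h
      exact hy (abs_le.1 (not_lt.1 h))
    rw [zt_zero (hout y h1), sub_self]

section

variable {s b : ℝ} {η : ℝ → ℝ} {β : ℝ}

/-- differentiation under the integral -/
theorem hasDerivAt_DJ (hη : Continuous η) (hle : ∀ y, |η y| ≤ l / 7) {z : ℂ} (hz : |z.im| ≤ l / 6) :
    HasDerivAt (DJ s b η) (DJ1 s b η z) z := by
  have hl := l_pos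
  obtain ⟨K, hK, HK⟩ := Uxd_bound
  obtain ⟨C, hC0, hC⟩ := rho_bd s
  have cζ : Continuous fun y => zt (iD η) y := by
    unfold zt iD
    fun_prop
  have hball : ∀ x ∈ Metric.ball z (l / 12), |x.im| ≤ l / 4 := by
    intro x hx
    rw [Metric.mem_ball, dist_eq_norm] at hx
    have h1 := Complex.abs_im_le_norm (x - z)
    rw [Complex.sub_im] at h1
    have h2 : |x.im| ≤ |x.im - z.im| + |z.im| := by
      have := abs_add_le (x.im - z.im) z.im
      rwa [sub_add_cancel] at this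
    linarith
  have im0 : ∀ x ∈ Metric.ball z (l / 12), ∀ y : ℝ, |(x - (y : ℂ)).im| ≤ l / 2 := fun x hx y => by
    rw [Complex.sub_im, Complex.ofReal_im, sub_zero]
    linarith [hball x hx]
  have im1 : ∀ x ∈ Metric.ball z (l / 12), ∀ y : ℝ, |(x - zt (iD η) y).im| ≤ l / 2 := fun x hx y => by
    rw [Complex.sub_im, zt_im]
    exact (abs_sub _ _).trans (by linarith [hball x hx, hle y])
  have hzb : z ∈ Metric.ball z (l / 12) := Metric.mem_ball_self (by positivity)
  have c0 : ∀ x ∈ Metric.ball z (l / 12), Continuous fun y : ℝ =>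
      ((s * P y : ℝ) : ℂ) * (Ux (x - y) - Ux (x - zt (iD η) y)) := fun x hx =>
    (rho_cont s).mul ((Ux_cont' Complex.continuous_ofReal fun y =>
      lt_of_le_of_lt (im0 x hx y) (by linarith)).sub
      (Ux_cont' cζ fun y => lt_of_le_of_lt (im1 x hx y) (by linarith)))
  have c1 : Continuous fun y : ℝ =>
      ((s * P y : ℝ) : ℂ) * (Uxd (z - y) - Uxd (z - zt (iD η) y)) :=
    (rho_cont s).mul ((Uxd_cont' Complex.continuous_ofReal fun y =>
      lt_of_le_of_lt (im0 z hzb y) (by linarith)).sub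
      (Uxd_cont' cζ fun y => lt_of_le_of_lt (im1 z hzb y) (by linarith)))
  have key := hasDerivAt_integral_of_dominated_loc_of_deriv_le (μ := volume.restrict (Icc (-b) b))
    (𝕜 := ℂ) (s := Metric.ball z (l / 12))
    (F := fun x y => ((s * P y : ℝ) : ℂ) * (Ux (x - y) - Ux (x - zt (iD η) y)))
    (F' := fun x y => ((s * P y : ℝ) : ℂ) * (Uxd (x - y) - Uxd (x - zt (iD η) y))) (x₀ := z)
    (bound := fun _ => C * (2 * K))
    (Metric.ball_mem_nhds z (by positivity)) ?_ ?_ ?_ ?_ ?_ ?_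
  · exact key.2
  · filter_upwards [Metric.ball_mem_nhds z (by positivity : 0 < l / 12)] with x hx
    exact (c0 x hx).aestronglyMeasurable
  · exact (c0 z hzb).continuousOn.integrableOn_compact isCompact_Icc
  · exact c1.aestronglyMeasurable
  · refine Eventually.of_forall fun y x hx => ?_
    rw [norm_mul]
    have h1 : ‖((s * P y : ℝ) : ℂ)‖ ≤ C := by
      refine (hC y).trans (mul_le_of_le_one_right hC0 ?_)
      rw [Real.exp_le_one_iff]
      have := abs_nonneg y
      linarith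
    refine mul_le_mul h1 ((norm_sub_le _ _).trans ?_) (norm_nonneg _) hC0
    have h2 := HK _ (im0 x hx y)
    have h3 := HK _ (im1 x hx y)
    linarith
  · exact continuous_const.continuousOn.integrableOn_compact isCompact_Icc
  · refine Eventually.of_forall fun y x hx => ?_
    have d1 := (hasDerivAt_Ux (lt_of_le_of_lt (im0 x hx y) (by linarith))).comp_sub_const x (y : ℂ)
    have d2 := (hasDerivAt_Ux (lt_of_le_of_lt (im1 x hx y) (by linarith))).comp_sub_const x
      (zt (iD η) y)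
    exact (d1.sub d2).const_mul _

/-- the derivative is continuous along a path -/
theorem continuous_DJ1 (hη : Continuous η) (hle : ∀ y, |η y| ≤ l / 7) {ζ : ℝ → ℂ} (hζ : Continuous ζ)
    (hζl : ∀ t, |(ζ t).im| ≤ l / 7) : Continuous fun t => DJ1 s b η (ζ t) := by
  have hl := l_pos
  have cζ : Continuous fun y => zt (iD η) y := by
    unfold zt iD
    fun_prop
  have hc : ContinuousOn Uxd {w : ℂ | |w.im| < l} := fun w hw =>
    (hasDerivAt_Uxd hw).continuousAt.continuousWithinAt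
  unfold DJ1
  refine continuous_parametric_integral_of_continuous (μ := volume)
    (f := fun t y => ((s * P y : ℝ) : ℂ) * (Uxd (ζ t - y) - Uxd (ζ t - zt (iD η) y))) ?_
    (s := Icc (-b) b) isCompact_Icc
  have h1 : Continuous fun p : ℝ × ℝ => Uxd (ζ p.1 - (p.2 : ℂ)) :=
    hc.comp_continuous ((hζ.comp continuous_fst).sub (Complex.continuous_ofReal.comp continuous_snd))
      fun p => by
        rw [mem_setOf_eq, Complex.sub_im, Complex.ofReal_im, sub_zero]
        exact lt_of_le_of_lt (hζl p.1) (by linarith)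
  have h2 : Continuous fun p : ℝ × ℝ => Uxd (ζ p.1 - zt (iD η) p.2) :=
    hc.comp_continuous ((hζ.comp continuous_fst).sub (cζ.comp continuous_snd)) fun p => by
      rw [mem_setOf_eq, Complex.sub_im, zt_im]
      exact lt_of_le_of_lt (abs_sub _ _) (by linarith [hζl p.1, hle p.2])
  have h3 : Continuous fun p : ℝ × ℝ => ((s * P p.2 : ℝ) : ℂ) := (rho_cont s).comp continuous_snd
  exact h3.mul (h1.sub h2)

end

/-- the derivative of the cross potential is real on the line -/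
lemma Uxd_real (x : ℝ) : (Uxd (x : ℂ)).im = 0 := by
  have h1 : HasDerivAt (fun t : ℝ => Ux (t : ℂ)) (Uxd x) x :=
    (hasDerivAt_Ux (z := x) (by simpa using l_pos)).comp_ofReal
  have h2 : HasDerivAt (fun t : ℝ => (Ux (t : ℂ)).im) (Uxd x).im x :=
    Complex.imCLM.hasFDerivAt.comp_hasDerivAt x h1
  have h3 : (fun t : ℝ => (Ux (t : ℂ)).im) = fun _ => 0 := by
    funext t
    rw [Ux_ofReal, Complex.ofReal_im]
  rw [h3] at h2
  exact h2.unique (hasDerivAt_const x 0)

lemma Uxd_im {K : ℝ} (HK : ∀ w : ℂ, |w.im| ≤ l / 2 → ‖Uxd2 w‖ ≤ K * Real.exp (-2 * |w.re|)) {w : ℂ}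
    (hw : |w.im| ≤ l / 2) : |(Uxd w).im| ≤ K * Real.exp (-2 * |w.re|) * |w.im| := by
  have hl := l_pos
  have h1 := (convex_vert w.re (l / 2)).norm_image_sub_le_of_norm_hasDerivWithin_le (f := Uxd)
    (f' := Uxd2) (C := K * Real.exp (-2 * |w.re|))
    (fun z hz => (hasDerivAt_Uxd (lt_of_le_of_lt hz.2 (by linarith))).hasDerivWithinAt)
    (fun z hz => by
      have := HK z hz.2
      rwa [hz.1] at this) (x := (w.re : ℂ)) (y := w)
    ⟨Complex.ofReal_re _, by rw [Complex.ofReal_im, abs_zero]; positivity⟩ ⟨rfl, hw⟩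
  have h2 : (Uxd w).im = (Uxd w - Uxd (w.re : ℂ)).im := by
    rw [Complex.sub_im, Uxd_real, sub_zero]
  have h3 : ‖w - (w.re : ℂ)‖ = |w.im| := by
    have e : w - (w.re : ℂ) = (w.im : ℂ) * I := by
      apply Complex.ext <;> simp
    rw [e, norm_mul, Complex.norm_I, mul_one, Complex.norm_real, Real.norm_eq_abs]
  rw [h2, ← h3]
  exact (Complex.abs_im_le_norm _).trans h1

/-- **two seas with almost the same current** -/
theorem DJ_diff : ∃ K : ℝ, 1 ≤ K ∧ ∀ {s s' ε M κ b : ℝ} {η η' : ℝ → ℝ}, 0 ≤ s → 0 ≤ s' → 0 ≤ M →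
    0 ≤ ε → ε ≤ l / 7 → 0 ≤ κ → Continuous η → Continuous η' →
    (∀ y, |η y| ≤ ε) → (∀ y, |η' y| ≤ ε) → (∀ y, s * P y * |η y| ≤ M) → (∀ y, s' * P y * |η' y| ≤ M) →
    (∀ y, |s' * η' y - s * η y| ≤ κ) → ∀ z : ℂ, |z.im| ≤ l / 7 →
    |(DJ s' b η' z - DJ s b η z).re| ≤ K * (M * ε + κ * |z.im|) * Wb b z.re ∧
    ‖DJ1 s' b η' z - DJ1 s b η z‖ ≤ K * (M * ε + κ) * Wb b z.re := by
  have hl := l_pos
  obtain ⟨K, hK, HK⟩ := Ux_inc
  obtain ⟨K2, hK2, HK2⟩ := Uxd23_dec
  obtain ⟨C, hC0, hC⟩ := rho_bd 1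
  refine ⟨1 + 2 * K + C * K2, by nlinarith, ?_⟩
  intro s s' ε M κ b η η' hs hs' hM hε0 hε hκ cη cη' hη hη' hm hm' hcom z hz
  have hPC : ∀ y, P y ≤ C := by
    intro y
    have h1 := hC y
    rw [one_mul, Complex.norm_real, Real.norm_eq_abs, abs_of_pos (P_pos y)] at h1
    refine h1.trans (mul_le_of_le_one_right hC0 ?_)
    rw [Real.exp_le_one_iff]
    have := abs_nonneg y
    linarith
  have cζ : ∀ {h : ℝ → ℝ}, Continuous h → Continuous fun y => zt (iD h) y := by
    intro h ch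
    unfold zt iD
    fun_prop
  have im0 : ∀ y : ℝ, |(z - (y : ℂ)).im| ≤ l / 2 := fun y => by
    rw [Complex.sub_im, Complex.ofReal_im, sub_zero]
    linarith
  have im1 : ∀ {h : ℝ → ℝ}, (∀ y, |h y| ≤ ε) → ∀ y : ℝ, |(z - zt (iD h) y).im| ≤ l / 2 :=
    fun {h} hh y => by
      rw [Complex.sub_im, zt_im]
      exact (abs_sub _ _).trans (by linarith [hh y])
  have hre : ∀ (h : ℝ → ℝ) (y : ℝ), (z - (y : ℂ)).re = (z - zt (iD h) y).re := fun h y => by
    rw [Complex.sub_re, Complex.sub_re, zt_re, Complex.ofReal_re]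
  have hdiff : ∀ (h : ℝ → ℝ) (y : ℝ), (z - zt (iD h) y) - (z - y) = -((h y : ℂ) * I) := by
    intro h y
    unfold zt iD
    ring
  have hEW : ∀ y : ℝ, Real.exp (-2 * |z.re - y|) ≤ Wt (z.re - y) := by
    intro y
    unfold Wt
    have h3 : Real.exp (-2 * |z.re - y|) ≤ Real.exp (-|z.re - y|) :=
      Real.exp_le_exp.2 (by linarith [abs_nonneg (z.re - y)])
    have := abs_nonneg (V (z.re - y))
    linarith
  -- general estimate
  have main : ∀ (U U1 : ℂ → ℂ), (∀ w w' : ℂ, w.re = w'.re → |w.im| ≤ l / 2 → |w'.im| ≤ l / 2 →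
        ‖U w' - U w - U1 w * (w' - w)‖ ≤ K * Real.exp (-2 * |w.re|) * ‖w' - w‖ ^ 2) → ∀ y : ℝ,
      ‖(((s' * P y : ℝ) : ℂ) * (U (z - y) - U (z - zt (iD η') y)) -
        ((s * P y : ℝ) : ℂ) * (U (z - y) - U (z - zt (iD η) y))) -
        ((P y * (s' * η' y - s * η y) : ℝ) : ℂ) * (I * U1 (z - y))‖ ≤
        2 * K * (M * ε) * Real.exp (-2 * |z.re - y|) := by
    intro U U1 hU y
    have hp := (P_pos y).le
    obtain ⟨r, hr⟩ : ∃ r, r = U (z - zt (iD η) y) - U (z - y) -
      U1 (z - y) * ((z - zt (iD η) y) - (z - y)) := ⟨_, rfl⟩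
    obtain ⟨r', hr'⟩ : ∃ r', r' = U (z - zt (iD η') y) - U (z - y) -
      U1 (z - y) * ((z - zt (iD η') y) - (z - y)) := ⟨_, rfl⟩
    have b1 := hU (z - y) (z - zt (iD η) y) (hre η y) (im0 y) (im1 hη y)
    have b2 := hU (z - y) (z - zt (iD η') y) (hre η' y) (im0 y) (im1 hη' y)
    rw [← hr] at b1
    rw [← hr'] at b2
    rw [hdiff] at hr hr' b1 b2
    have e1 : (((s' * P y : ℝ) : ℂ) * (U (z - y) - U (z - zt (iD η') y)) -
        ((s * P y : ℝ) : ℂ) * (U (z - y) - U (z - zt (iD η) y))) -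
        ((P y * (s' * η' y - s * η y) : ℝ) : ℂ) * (I * U1 (z - y)) =
        ((s * P y : ℝ) : ℂ) * r - ((s' * P y : ℝ) : ℂ) * r' := by
      rw [hr, hr']
      push_cast
      ring
    rw [e1]
    have e2 : (z - (y : ℂ)).re = z.re - y := by simp
    rw [e2] at b1 b2
    have n1 : ∀ h : ℝ → ℝ, ‖-((h y : ℂ) * I)‖ = |h y| := fun h => by
      rw [norm_neg, norm_mul, Complex.norm_I, mul_one, Complex.norm_real, Real.norm_eq_abs]
    rw [n1] at b1 b2
    have hE0 := Real.exp_pos (-2 * |z.re - y|)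
    have part : ∀ (σ : ℝ) (h : ℝ → ℝ) (ρ : ℂ), 0 ≤ σ → |h y| ≤ ε → σ * P y * |h y| ≤ M →
        ‖ρ‖ ≤ K * Real.exp (-2 * |z.re - y|) * |h y| ^ 2 →
        ‖((σ * P y : ℝ) : ℂ) * ρ‖ ≤ K * (M * ε) * Real.exp (-2 * |z.re - y|) := by
      intro σ h ρ hσ h4 h5 h6
      rw [norm_mul, Complex.norm_real, Real.norm_eq_abs, abs_of_nonneg (mul_nonneg hσ hp)]
      have h7 : 0 ≤ σ * P y := mul_nonneg hσ hp
      calc σ * P y * ‖ρ‖ ≤ σ * P y * (K * Real.exp (-2 * |z.re - y|) * |h y| ^ 2) := by gcongr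
        _ = K * Real.exp (-2 * |z.re - y|) * ((σ * P y * |h y|) * |h y|) := by ring
        _ ≤ K * Real.exp (-2 * |z.re - y|) * (M * ε) := by gcongr
        _ = _ := by ring
    have p1 := part s η r hs (hη y) (hm y) b1
    have p2 := part s' η' r' hs' (hη' y) (hm' y) b2
    refine (norm_sub_le _ _).trans ((add_le_add p1 p2).trans (le_of_eq ?_))
    ring
  have hMε : 0 ≤ M * ε := mul_nonneg hM hε0
  have hpd : ∀ y, |P y * (s' * η' y - s * η y)| ≤ C * κ := by
    intro y
    rw [abs_mul, abs_of_pos (P_pos y)]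
    exact mul_le_mul (hPC y) (hcom y) (abs_nonneg _) hC0
  have hre' : ∀ y : ℝ, (z - (y : ℂ)).re = z.re - y := fun y => by simp
  have him' : ∀ y : ℝ, (z - (y : ℂ)).im = z.im := fun y => by simp
  constructor
  · have j : ∀ {σ : ℝ} {h : ℝ → ℝ}, Continuous h → (∀ y, |h y| ≤ ε) → IntegrableOn (fun y : ℝ =>
        ((σ * P y : ℝ) : ℂ) * (Ux (z - y) - Ux (z - zt (iD h) y))) (Icc (-b) b) := by
      intro σ h ch hh
      exact ((rho_cont σ).mul ((Ux_cont' Complex.continuous_ofReal fun y =>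
        lt_of_le_of_lt (im0 y) (by linarith)).sub (Ux_cont' (cζ ch) fun y =>
        lt_of_le_of_lt (im1 hh y) (by linarith)))).continuousOn.integrableOn_compact isCompact_Icc
    unfold DJ
    rw [← integral_sub (j cη' hη') (j cη hη)]
    have e3 : (∫ y in Icc (-b) b, (((s' * P y : ℝ) : ℂ) * (Ux (z - y) - Ux (z - zt (iD η') y)) -
        ((s * P y : ℝ) : ℂ) * (Ux (z - y) - Ux (z - zt (iD η) y)))).re =
        ∫ y in Icc (-b) b, (((s' * P y : ℝ) : ℂ) * (Ux (z - y) - Ux (z - zt (iD η') y)) -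
        ((s * P y : ℝ) : ℂ) * (Ux (z - y) - Ux (z - zt (iD η) y))).re :=
      (Complex.reCLM.integral_comp_comm ((j cη' hη').sub (j cη hη))).symm
    rw [e3, ← Real.norm_eq_abs]
    refine (norm_integral_le_of_norm_le (((Wt_int.comp_sub_left z.re).integrableOn).const_mul
      ((1 + 2 * K + C * K2) * (M * ε + κ * |z.im|))) (Eventually.of_forall fun y => ?_)).trans
      (le_of_eq ?_)
    · have h1 := main Ux Uxd (fun w w' h1 h2 h3 => (HK w w' h1 h2 h3).1) y
      have h2 := Uxd_im (fun w hw => (HK2 w hw).1) (im0 y)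
      rw [hre', him'] at h2
      have h3 := (Complex.abs_re_le_norm _).trans h1
      rw [Complex.sub_re] at h3
      have h4 : |(((P y * (s' * η' y - s * η y) : ℝ) : ℂ) * (I * Uxd (z - y))).re| ≤
          (C * κ) * (K2 * Real.exp (-2 * |z.re - y|) * |z.im|) := by
        rw [Complex.re_ofReal_mul, Complex.I_mul_re, abs_mul, abs_neg]
        exact mul_le_mul (hpd y) h2 (abs_nonneg _) (by positivity)
      obtain ⟨X, hX⟩ : ∃ X, X = (((s' * P y : ℝ) : ℂ) * (Ux (z - y) - Ux (z - zt (iD η') y)) -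
        ((s * P y : ℝ) : ℂ) * (Ux (z - y) - Ux (z - zt (iD η) y))).re := ⟨_, rfl⟩
      obtain ⟨Y, hY⟩ : ∃ Y, Y = (((P y * (s' * η' y - s * η y) : ℝ) : ℂ) * (I * Uxd (z - y))).re :=
        ⟨_, rfl⟩
      rw [← hX, ← hY] at h3
      rw [← hY] at h4
      rw [← hX, Real.norm_eq_abs]
      have h5 : |X| ≤ |X - Y| + |Y| := by
        have := abs_add_le (X - Y) Y
        rwa [sub_add_cancel] at this
      have hW := Wt_nonneg (z.re - y)
      have hE := hEW y
      have hE0 := Real.exp_pos (-2 * |z.re - y|)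
      have hz0 := abs_nonneg z.im
      calc |X| ≤ 2 * K * (M * ε) * Real.exp (-2 * |z.re - y|) +
            (C * κ) * (K2 * Real.exp (-2 * |z.re - y|) * |z.im|) := h5.trans (add_le_add h3 h4)
        _ = (2 * K * (M * ε) + C * K2 * (κ * |z.im|)) * Real.exp (-2 * |z.re - y|) := by ring
        _ ≤ (2 * K * (M * ε) + C * K2 * (κ * |z.im|)) * Wt (z.re - y) := by gcongr
        _ ≤ (1 + 2 * K + C * K2) * (M * ε + κ * |z.im|) * Wt (z.re - y) := by
            refine mul_le_mul_of_nonneg_right ?_ hW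
            have q1 : 0 ≤ κ * |z.im| := by positivity
            have q2 : 0 ≤ C * K2 := by positivity
            nlinarith [mul_nonneg hK.le q1, mul_nonneg q2 hMε]
    · rw [integral_const_mul]
      rfl
  · have j : ∀ {σ : ℝ} {h : ℝ → ℝ}, Continuous h → (∀ y, |h y| ≤ ε) → IntegrableOn (fun y : ℝ =>
        ((σ * P y : ℝ) : ℂ) * (Uxd (z - y) - Uxd (z - zt (iD h) y))) (Icc (-b) b) := by
      intro σ h ch hh
      exact ((rho_cont σ).mul ((Uxd_cont' Complex.continuous_ofReal fun y =>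
        lt_of_le_of_lt (im0 y) (by linarith)).sub (Uxd_cont' (cζ ch) fun y =>
        lt_of_le_of_lt (im1 hh y) (by linarith)))).continuousOn.integrableOn_compact isCompact_Icc
    unfold DJ1
    rw [← integral_sub (j cη' hη') (j cη hη)]
    refine (norm_integral_le_of_norm_le (((Wt_int.comp_sub_left z.re).integrableOn).const_mul
      ((1 + 2 * K + C * K2) * (M * ε + κ))) (Eventually.of_forall fun y => ?_)).trans
      (le_of_eq ?_)
    · have h1 := main Uxd Uxd2 (fun w w' h1 h2 h3 => (HK w w' h1 h2 h3).2) y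
      have h2 := (HK2 _ (im0 y)).1
      rw [hre'] at h2
      have h4 : ‖((P y * (s' * η' y - s * η y) : ℝ) : ℂ) * (I * Uxd2 (z - y))‖ ≤
          (C * κ) * (K2 * Real.exp (-2 * |z.re - y|)) := by
        rw [norm_mul, norm_mul, Complex.norm_I, one_mul, Complex.norm_real, Real.norm_eq_abs]
        exact mul_le_mul (hpd y) h2 (norm_nonneg _) (by positivity)
      obtain ⟨X, hX⟩ : ∃ X, X = ((s' * P y : ℝ) : ℂ) * (Uxd (z - y) - Uxd (z - zt (iD η') y)) -
        ((s * P y : ℝ) : ℂ) * (Uxd (z - y) - Uxd (z - zt (iD η) y)) := ⟨_, rfl⟩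
      obtain ⟨Y, hY⟩ : ∃ Y, Y = ((P y * (s' * η' y - s * η y) : ℝ) : ℂ) * (I * Uxd2 (z - y)) :=
        ⟨_, rfl⟩
      rw [← hX, ← hY] at h1
      rw [← hY] at h4
      rw [← hX]
      have h5 : ‖X‖ ≤ ‖X - Y‖ + ‖Y‖ := by
        have := norm_add_le (X - Y) Y
        rwa [sub_add_cancel] at this
      have hW := Wt_nonneg (z.re - y)
      have hE := hEW y
      have hE0 := Real.exp_pos (-2 * |z.re - y|)
      calc ‖X‖ ≤ 2 * K * (M * ε) * Real.exp (-2 * |z.re - y|) +
            (C * κ) * (K2 * Real.exp (-2 * |z.re - y|)) := h5.trans (add_le_add h1 h4)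
        _ = (2 * K * (M * ε) + C * K2 * κ) * Real.exp (-2 * |z.re - y|) := by ring
        _ ≤ (2 * K * (M * ε) + C * K2 * κ) * Wt (z.re - y) := by gcongr
        _ ≤ (1 + 2 * K + C * K2) * (M * ε + κ) * Wt (z.re - y) := by
            refine mul_le_mul_of_nonneg_right ?_ hW
            have q2 : 0 ≤ C * K2 := by positivity
            nlinarith [mul_nonneg hK.le hκ, mul_nonneg q2 hMε]
    · rw [integral_const_mul]
      rfl

end

end NUSea.PLX
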