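import Pool.Agent.PLX.Ns
import Pool.Agent.PLX.NUSea.PhiQ
import Pool.Agent.PLX.NUSea.PhiE
import Pool.Agent.PLX.NUSea.Com

/-!
# Size of the quadratic part of the one body potential on the whole line

`exists_phi1`: the own curve; `sum_KB_two`: the one body potential of two curves; `exists_phiQ'`,
`exists_phiQ''`: for two curves with almost the same current `Q_a = Re ∑ KB a d` is `C¹` on the line,
`|Q_a|, |Q_a'| ≤ K M ε Wb b`.
-/

set_option autoImplicit false
set_option linter.unusedSectionVars false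

open MeasureTheory Set Filter Topology Complex

namespace NUSea.PLX

open NUMF (l l_pos w g V)
open NUAct NUKer

noncomputable section

variable [Sea]

variable {s ε M b : ℝ} {e η η1 : ℝ → ℝ}

/-- **the own part of the quadratic part of the one body potential on the whole line** -/
theorem exists_phi1 : ∃ K : ℝ, 1 ≤ K ∧ ∀ {s ε M b : ℝ} {e η η1 : ℝ → ℝ}, 0 ≤ s → 0 ≤ b →
    ε ≤ 1 / 20 → Cur s ε M b e η → (∀ t, HasDerivAt η (η1 t) t) →
    ∃ Q' : ℝ → ℝ, Continuous Q' ∧ (∀ t, HasDerivAt (fun t =>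
      (∫ y, Up Uc (zt (iD η)) t y * Bf s (iD η) (iD η1) y).re) (Q' t) t) ∧
    (∀ t, |(∫ y, Up Uc (zt (iD η)) t y * Bf s (iD η) (iD η1) y).re| ≤ K * (M * ε) * Wb b t) ∧
    (∀ t, |Q' t| ≤ K * (M * ε) * Wb b t) := by
  obtain ⟨C, hC, HB⟩ := exists_BB
  obtain ⟨K, hK, HK⟩ := exists_ker
  obtain ⟨C2, hC2, HD⟩ := dens_bd
  refine ⟨C + K * C + 2 * (K * C2), by
    have h1 : 0 < K * C2 := by positivity
    have h2 : 0 < K * C := by positivity
    linarith, ?_⟩
  intro s ε M b e η η1 hs hb hε hc hη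
  have BB := HB hs hε hc hη
  obtain ⟨η2, D, o2⟩ := hc.disp' hs hη
  have hM := hc.M0 hs
  have hε0 := hc.ε0
  have hMε : 0 ≤ M * ε := mul_nonneg hM hε0
  have hKC : 0 < K * C := by positivity
  have hKC2 : 0 < K * C2 := by positivity
  have hB := hasDerivAt_Bf D hε
  -- the real part of the derivative of `B`
  have r1 : ∀ t, |(Bf1 s (iD η) (iD η1) (iD η2) t).re| ≤ C * (M * ε) := by
    intro t
    obtain ⟨_, f', h1, h2⟩ := BB.re
    have h3 : HasDerivAt (fun t => (Bf s (iD η) (iD η1) t).re)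
        (Bf1 s (iD η) (iD η1) (iD η2) t).re t :=
      Complex.reCLM.hasFDerivAt.comp_hasDerivAt t (hB t)
    rw [← (h1 t).unique h3]
    exact h2.le t
  have n1 : ∀ t, ‖Bf1 s (iD η) (iD η1) (iD η2) t‖ ≤ 2 * (C2 * M) := by
    intro t
    obtain ⟨d1, d2, d3, d4, _⟩ := HD s ε M (b + 1) (iD η) (iD η1) (iD η2) hs hM D hε t
    have e1 : Bf1 s (iD η) (iD η1) (iD η2) t = af1 s (iD η) (iD η1) (iD η2) t +
        (Bf1 s (iD η) (iD η1) (iD η2) t - af1 s (iD η) (iD η1) (iD η2) t) := by ring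
    rw [e1]
    refine (norm_add_le _ _).trans ?_
    have h1 : C2 * M * ε ≤ C2 * M := by
      have : 0 ≤ C2 * M := by positivity
      nlinarith
    linarith
  have z1 : ∀ y, b < |y| → Bf1 s (iD η) (iD η1) (iD η2) y = 0 := by
    intro y hy
    have h1 : Bf s (iD η) (iD η1) =ᶠ[𝓝 y] fun _ => 0 := by
      filter_upwards [(continuous_abs.tendsto y).eventually (lt_mem_nhds hy)] with x hx
      exact BB.supp x hx
    exact (hB y).unique ((hasDerivAt_const y (0:ℂ)).congr_of_eventuallyEq h1)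
  -- one product
  have key : ∀ (t y : ℝ) (β : ℂ) (A1 A2 : ℝ), y ≠ t → |β.re| ≤ A1 * (M * ε) → ‖β‖ ≤ A2 * M →
      0 ≤ A1 → 0 ≤ A2 → |(Up Uc (zt (iD η)) t y * β).re| ≤
        (A1 * (M * ε)) * |V (t - y)| + (K * A2) * (M * ε) * Real.exp (-|t - y|) := by
    intro t y β A1 A2 hne h1 h2 hA1 hA2
    have h3 := (HK D hε t y (Ne.symm hne)).1
    have e1 : (Up Uc (zt (iD η)) t y * β).re = V (t - y) * β.re +
        ((Up Uc (zt (iD η)) t y - (V (t - y) : ℂ)) * β).re := by
      rw [sub_mul, Complex.sub_re, Complex.re_ofReal_mul]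
      ring
    rw [e1]
    refine (abs_add_le _ _).trans (add_le_add ?_ ?_)
    · rw [abs_mul, mul_comm]
      exact mul_le_mul_of_nonneg_right h1 (abs_nonneg _)
    · refine (Complex.abs_re_le_norm _).trans ?_
      rw [norm_mul]
      calc _ ≤ (K * ε * Real.exp (-|t - y|)) * (A2 * M) :=
            mul_le_mul h3 h2 (norm_nonneg _) (by positivity)
        _ = _ := by ring
  refine ⟨fun t => (∫ y, (Q1 (iD η) (iD η1) t y * Bf s (iD η) (iD η1) y +
    Up Uc (zt (iD η)) t y * Bf1 s (iD η) (iD η1) (iD η2) y)).re,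
    Complex.continuous_re.comp (continuous_KB1 D hε), fun t => ?_, fun t => ?_, fun t => ?_⟩
  · exact Complex.reCLM.hasFDerivAt.comp_hasDerivAt t (hasDerivAt_KB D hε t)
  · refine wt_re (by positivity) (fun y hy => by rw [BB.supp y hy, mul_zero]) fun y hy => ?_
    have h1 := key t y (Bf s (iD η) (iD η1) y) C C hy (BB.re.le y) (BB.le y) (by linarith)
      (by linarith)
    refine h1.trans ?_
    have hV := abs_nonneg (V (t - y))
    have hE := Real.exp_pos (-|t - y|)
    have p1 : 0 ≤ (K * C + 2 * (K * C2)) * (M * ε) * |V (t - y)| := by positivity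
    have p2 : 0 ≤ (C + 2 * (K * C2)) * (M * ε) * Real.exp (-|t - y|) := by positivity
    unfold Wt
    nlinarith
  · refine wt_re (by positivity) (fun y hy => by rw [BB.supp y hy, z1 y hy]; simp)
      fun y hy => ?_
    have h1 := key t y (Bf1 s (iD η) (iD η1) (iD η2) y) C (2 * C2) hy (r1 y)
      ((n1 y).trans (le_of_eq (by ring))) (by linarith) (by positivity)
    have h2 : |(Q1 (iD η) (iD η1) t y * Bf s (iD η) (iD η1) y).re| ≤
        (K * C) * (M * ε) * Real.exp (-|t - y|) := by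
      refine (Complex.abs_re_le_norm _).trans ?_
      rw [norm_mul]
      calc _ ≤ (K * ε * Real.exp (-|t - y|)) * (C * M) :=
            mul_le_mul (HK D hε t y (Ne.symm hy)).2 (BB.le y) (norm_nonneg _) (by positivity)
        _ = _ := by ring
    rw [Complex.add_re]
    refine (abs_add_le _ _).trans ((add_le_add h2 h1).trans ?_)
    have hV := abs_nonneg (V (t - y))
    have hE := Real.exp_pos (-|t - y|)
    have p1 : 0 ≤ (K * C + 2 * (K * C2)) * (M * ε) * |V (t - y)| := by positivity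
    have p2 : 0 ≤ C * (M * ε) * Real.exp (-|t - y|) := by positivity
    unfold Wt
    nlinarith

/-- the one body potential of two curves -/
theorem sum_KB_two {s : Bool → ℝ} {ε M b : ℝ} {e η η1 : Bool → ℝ → ℝ} (hs : ∀ a, 0 ≤ s a)
    (hε : ε ≤ 1 / 20) (hc : ∀ a, Cur (s a) ε M b (e a) (η a))
    (hη : ∀ a t, HasDerivAt (η a) (η1 a t) t) (Fe : Bool → ℂ → ℂ) (a : Bool) (t : ℝ) :
    ∑ d, (gas s η η1 Fe).KB a d t =
      (∫ y, Up Uc (zt (iD (η a))) t y * Bf (s a) (iD (η a)) (iD (η1 a)) y) +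
      (DJ (s (!a)) b (η (!a)) (zt (iD (η a)) t) - DJ (s a) b (η a) (zt (iD (η a)) t)) := by
  have hok : (gas s η η1 (fun _ _ => 0)).Ok := gas_ok hs hε hc hη fun _ => ext_zero _
  have hok' : (gas (fun _ => s a) (fun _ => η a) (fun _ => η1 a) (fun _ _ => 0)).Ok :=
    gas_ok (fun _ => hs a) hε (fun _ => hc a) (fun _ => hη a) fun _ => ext_zero _
  have hz : |(zt (iD (η a)) t).im| ≤ l / 7 := (path_of_cur (hs a) hε (hc a) (hη a)).im_le t
  have i1 : Integrable fun y => Up Us (zt (iD (η a))) t y * Bf (s a) (iD (η a)) (iD (η1 a)) y := by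
    refine (hok.iB a a t).congr (Eventually.of_forall fun y => ?_)
    unfold gas
    simp only [two_K, if_pos rfl]
    rfl
  have i2 : Integrable fun y => Ux (zt (iD (η a)) t - zt (iD (η a)) y) *
      Bf (s a) (iD (η a)) (iD (η1 a)) y := by
    refine (hok'.iB a (!a) t).congr (Eventually.of_forall fun y => ?_)
    unfold gas
    simp only [two_K]
    rw [if_neg (by cases a <;> simp)]
    rfl
  have e0 : ∑ d, (gas s η η1 Fe).KB a d t =
      (gas s η η1 Fe).KB a a t + (gas s η η1 Fe).KB a (!a) t := by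
    rw [Fintype.sum_bool]
    cases a
    · rw [add_comm]; rfl
    · rfl
  have e1 : (gas s η η1 Fe).KB a a t =
      ∫ y, Up Us (zt (iD (η a))) t y * Bf (s a) (iD (η a)) (iD (η1 a)) y := by
    unfold Gas.KB
    refine integral_congr_ae (Eventually.of_forall fun y => ?_)
    unfold gas
    simp only [two_K, if_pos rfl]
    rfl
  have e2 : (gas s η η1 Fe).KB a (!a) t = DJ (s (!a)) b (η (!a)) (zt (iD (η a)) t) := by
    rw [← J_eq (hs (!a)) hε (hc (!a)) (hη (!a)) hz]
    unfold Gas.KB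
    refine integral_congr_ae (Eventually.of_forall fun y => ?_)
    unfold gas
    simp only [two_K]
    rw [if_neg (by cases a <;> simp)]
    rfl
  have e3 : (∫ y, Up Uc (zt (iD (η a))) t y * Bf (s a) (iD (η a)) (iD (η1 a)) y) =
      (∫ y, Up Us (zt (iD (η a))) t y * Bf (s a) (iD (η a)) (iD (η1 a)) y) +
      DJ (s a) b (η a) (zt (iD (η a)) t) := by
    rw [← J_eq (hs a) hε (hc a) (hη a) hz, ← integral_add i1 i2]
    refine integral_congr_ae (Eventually.of_forall fun y => ?_)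
    simp only
    rw [Up_Uc]
    ring
  rw [e0, e1, e2, e3]
  ring

/-- **the quadratic part of the one body potential on the whole line**, two curves with almost the
same current, arbitrary potentials -/
theorem exists_phiQ'' : ∃ K : ℝ, 1 ≤ K ∧ ∀ {s : Bool → ℝ} {ε M b : ℝ} {e : ℝ → ℝ}
    {η η1 : Bool → ℝ → ℝ}, (∀ a, 0 ≤ s a) → 0 ≤ b → ε ≤ 1 / 20 → (∀ a, Cur (s a) ε M b e (η a)) →
    (∀ a t, HasDerivAt (η a) (η1 a t) t) → Com M s e η η1 →
    ∀ (Fe : Bool → ℂ → ℂ),
    ∃ Q' : Bool → ℝ → ℝ, (∀ a, Continuous (Q' a)) ∧ (∀ a t, HasDerivAt (fun t =>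
      (∑ d, (gas s η η1 Fe).KB a d t).re) (Q' a t) t) ∧
    (∀ a t, |(∑ d, (gas s η η1 Fe).KB a d t).re| ≤ K * (M * ε) * Wb b t) ∧
    (∀ a t, |Q' a t| ≤ K * (M * ε) * Wb b t) := by
  obtain ⟨K, hK, H⟩ := exists_phi1
  obtain ⟨K', hK', H'⟩ := DJ_diff
  refine ⟨K + 6 * K', by linarith, ?_⟩
  intro s ε M b e η η1 hs hb hε hc hη hcom Fe
  have hM := (hc true).M0 (hs true)
  have hε0 := (hc true).ε0
  have hl := l_pos
  have hP : ∀ a, Path (l / 7) (1 / 2) 2 (zt (iD (η a))) (zd (iD (η1 a))) := fun a =>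
    path_of_cur (hs a) hε (hc a) (hη a)
  have he : ∀ t, 0 ≤ e t ∧ e t ≤ ε := fun t => ⟨(hc true).oc.nonneg t, (hc true).le t⟩
  have hn : ∀ a t, |η a t| ≤ e t := by
    intro a t
    have h1 := (hc a).oc.le t
    unfold iD at h1
    rwa [norm_mul, Complex.norm_I, mul_one, Complex.norm_real, Real.norm_eq_abs] at h1
  have hεl : ε ≤ l / 7 := by
    have h8 := NUAct.l8
    have := Real.pi_gt_three
    linarith
  have cη : ∀ a, Continuous (η a) := fun a =>
    continuous_iff_continuousAt.2 fun t => (hη a t).continuousAt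
  have hm : ∀ a t, s a * P t * |η a t| ≤ M := by
    intro a t
    refine le_trans ?_ ((hc a).mass t)
    have := mul_nonneg (hs a) (P_pos t).le
    exact mul_le_mul_of_nonneg_left (hn a t) this
  have hd : ∀ a y, |s (!a) * η (!a) y - s a * η a y| ≤ 2 * (M * ε) := by
    intro a y
    have h1 := hcom.c0 (!a) y
    have h2 := hcom.c0 a y
    have h3 : M * e y ≤ M * ε := mul_le_mul_of_nonneg_left (he y).2 hM
    have e1 : s (!a) * η (!a) y - s a * η a y =
        (s (!a) * η (!a) y - s true * η true y) - (s a * η a y - s true * η true y) := by ring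
    rw [e1]
    refine (abs_sub _ _).trans ?_
    linarith
  have hMε : 0 ≤ M * ε := mul_nonneg hM hε0
  have him : ∀ a t, |(zt (iD (η a)) t).im| ≤ l / 7 := fun a t => (hP a).im_le t
  have hzd : ∀ a t, ‖zd (iD (η1 a)) t‖ ≤ 2 := fun a t => (hP a).dle t
  have hW : ∀ t, 0 ≤ Wb b t := fun t => by
    unfold Wb
    exact setIntegral_nonneg measurableSet_Icc fun y _ => Wt_nonneg _
  have key : ∀ a t,
      |(DJ (s (!a)) b (η (!a)) (zt (iD (η a)) t) - DJ (s a) b (η a) (zt (iD (η a)) t)).re| ≤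
        3 * K' * (M * ε) * Wb b t ∧
      ‖DJ1 (s (!a)) b (η (!a)) (zt (iD (η a)) t) - DJ1 (s a) b (η a) (zt (iD (η a)) t)‖ ≤
        3 * K' * (M * ε) * Wb b t := by
    intro a t
    obtain ⟨h1, h2⟩ := H' (b := b) (hs a) (hs (!a)) hM hε0 hεl (by positivity : 0 ≤ 2 * (M * ε))
      (cη a) (cη (!a)) (fun y => (hn a y).trans (he y).2) (fun y => (hn (!a) y).trans (he y).2)
      (hm a) (hm (!a)) (hd a) (zt (iD (η a)) t) (him a t)
    rw [zt_re] at h1 h2
    have hWt := hW t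
    have hi : |(zt (iD (η a)) t).im| ≤ 1 := by
      rw [zt_im]
      exact ((hn a t).trans (he t).2).trans (by linarith)
    constructor
    · refine h1.trans ?_
      have h3 : M * ε + 2 * (M * ε) * |(zt (iD (η a)) t).im| ≤ 3 * (M * ε) := by
        nlinarith [abs_nonneg (zt (iD (η a)) t).im]
      calc _ ≤ K' * (3 * (M * ε)) * Wb b t := by gcongr
        _ = _ := by ring
    · refine h2.trans (le_of_eq ?_)
      ring
  have hsum := fun a t => sum_KB_two hs hε hc hη Fe a t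
  choose q hq1 hq2 hq3 hq4 using fun a => H (hs a) hb hε (hc a) (hη a)
  refine ⟨fun a t => q a t + ((DJ1 (s (!a)) b (η (!a)) (zt (iD (η a)) t) -
    DJ1 (s a) b (η a) (zt (iD (η a)) t)) * zd (iD (η1 a)) t).re, fun a => ?_, fun a t => ?_,
    fun a t => ?_, fun a t => ?_⟩
  · have hle : ∀ a y, |η a y| ≤ l / 7 := fun a y => ((hn a y).trans (he y).2).trans hεl
    have c1 := continuous_DJ1 (s := s (!a)) (b := b) (cη (!a)) (hle (!a)) (hP a).continuous (him a)
    have c2 := continuous_DJ1 (s := s a) (b := b) (cη a) (hle a) (hP a).continuous (him a)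
    exact (hq1 a).add (Complex.continuous_re.comp ((c1.sub c2).mul (hP a).cont))
  · have hle : ∀ a y, |η a y| ≤ l / 7 := fun a y => ((hn a y).trans (he y).2).trans hεl
    have e1 : (fun t => (∑ d, (gas s η η1 Fe).KB a d t).re) = fun t =>
        (∫ y, Up Uc (zt (iD (η a))) t y * Bf (s a) (iD (η a)) (iD (η1 a)) y).re +
        (DJ (s (!a)) b (η (!a)) (zt (iD (η a)) t) - DJ (s a) b (η a) (zt (iD (η a)) t)).re := by
      funext t
      rw [hsum, Complex.add_re]
    rw [e1]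
    have z6 : |(zt (iD (η a)) t).im| ≤ l / 6 := (him a t).trans (by linarith)
    have d1 := (hasDerivAt_DJ (s := s (!a)) (b := b) (cη (!a)) (hle (!a)) z6).comp t ((hP a).der t)
    have d2 := (hasDerivAt_DJ (s := s a) (b := b) (cη a) (hle a) z6).comp t ((hP a).der t)
    have d3 : HasDerivAt (fun t => DJ (s (!a)) b (η (!a)) (zt (iD (η a)) t) -
        DJ (s a) b (η a) (zt (iD (η a)) t)) ((DJ1 (s (!a)) b (η (!a)) (zt (iD (η a)) t) -
        DJ1 (s a) b (η a) (zt (iD (η a)) t)) * zd (iD (η1 a)) t) t :=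
      (d1.sub d2).congr_deriv (by ring)
    exact (hq2 a t).add (Complex.reCLM.hasFDerivAt.comp_hasDerivAt t d3)
  · rw [hsum, Complex.add_re]
    refine (abs_add_le _ _).trans ((add_le_add (hq3 a t) (key a t).1).trans ?_)
    have p := mul_nonneg (mul_nonneg (by linarith : 0 ≤ K') hMε) (hW t)
    nlinarith
  · refine (abs_add_le _ _).trans ((add_le_add (hq4 a t)
      ((Complex.abs_re_le_norm _).trans (le_of_eq (norm_mul _ _)))).trans ?_)
    have h1 := mul_le_mul (key a t).2 (hzd a t) (norm_nonneg _)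
      (mul_nonneg (mul_nonneg (by linarith) hMε) (hW t))
    calc _ ≤ K * (M * ε) * Wb b t + 3 * K' * (M * ε) * Wb b t * 2 := by gcongr
      _ = _ := by ring

/-- `exists_phiQ''` without continuity -/
theorem exists_phiQ' : ∃ K : ℝ, 1 ≤ K ∧ ∀ {s : Bool → ℝ} {ε M b : ℝ} {e : ℝ → ℝ}
    {η η1 : Bool → ℝ → ℝ}, (∀ a, 0 ≤ s a) → 0 ≤ b → ε ≤ 1 / 20 → (∀ a, Cur (s a) ε M b e (η a)) →
    (∀ a t, HasDerivAt (η a) (η1 a t) t) → Com M s e η η1 →
    ∀ (Fe : Bool → ℂ → ℂ),
    ∃ Q' : Bool → ℝ → ℝ, (∀ a t, HasDerivAt (fun t =>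
      (∑ d, (gas s η η1 Fe).KB a d t).re) (Q' a t) t) ∧
    (∀ a t, |(∑ d, (gas s η η1 Fe).KB a d t).re| ≤ K * (M * ε) * Wb b t) ∧
    (∀ a t, |Q' a t| ≤ K * (M * ε) * Wb b t) := by
  obtain ⟨K, hK, H⟩ := exists_phiQ''
  refine ⟨K, hK, fun {s ε M b e η η1} hs hb hε hc hη hcom Fe => ?_⟩
  obtain ⟨Q', _, h⟩ := H hs hb hε hc hη hcom Fe
  exact ⟨Q', h⟩

end

end NUSea.PLX
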